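import Pool.Agent.PolyTimeCL.Prog

/-!
# Polynomial-time functions on binary trees

Binary trees `T` serve as universal data.  `PT f` says that `f : T → T` is computed by a stack
program within a polynomial number of steps.  This file proves the basic closure properties.
-/

set_option autoImplicit false

namespace Pool.Agent.PolyTime

/-! ### Programs with time bounds -/

/-- `P` leads from `s` to `s'` in at most `n` steps. -/
def RL (P : Prog) (s : St) (n : ℕ) (s' : St) : Prop := ∃ m ≤ n, Runs P s m s'

theorem RL.mono {P : Prog} {s s' : St} {n n' : ℕ} (h : RL P s n s') (hn : n ≤ n') : RL P s n' s' :=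
  let ⟨m, hm, h⟩ := h; ⟨m, hm.trans hn, h⟩

theorem RL.skip (s : St) : RL .skip s 1 s := ⟨1, le_rfl, .skip s⟩

theorem RL.push (k : ℕ) (b : Bool) (s : St) :
    RL (.push k b) s 1 (Function.update s k (b :: s k)) := ⟨1, le_rfl, .push k b s⟩

theorem RL.pop (k : ℕ) (s : St) : RL (.pop k) s 1 (Function.update s k (s k).tail) :=
  ⟨1, le_rfl, .pop k s⟩

theorem RL.seq {P Q : Prog} {s s' s'' : St} {n n' : ℕ} (h : RL P s n s') (h' : RL Q s' n' s'') :
    RL (.seq P Q) s (n + n') s'' := by
  obtain ⟨m, hm, h⟩ := h
  obtain ⟨m', hm', h'⟩ := h'
  exact ⟨m + m', by omega, .seq h h'⟩

theorem RL.case_none {k : ℕ} {P Q R : Prog} {s s' : St} {n : ℕ} (hk : (s k).head? = none)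
    (h : RL P s n s') : RL (.case k P Q R) s (n + 1) s' := by
  obtain ⟨m, hm, h⟩ := h
  exact ⟨m + 1, by omega, .case_none hk h⟩

theorem RL.case_false {k : ℕ} {P Q R : Prog} {s s' : St} {n : ℕ} (hk : (s k).head? = some false)
    (h : RL Q s n s') : RL (.case k P Q R) s (n + 1) s' := by
  obtain ⟨m, hm, h⟩ := h
  exact ⟨m + 1, by omega, .case_false hk h⟩

theorem RL.case_true {k : ℕ} {P Q R : Prog} {s s' : St} {n : ℕ} (hk : (s k).head? = some true)
    (h : RL R s n s') : RL (.case k P Q R) s (n + 1) s' := by
  obtain ⟨m, hm, h⟩ := h
  exact ⟨m + 1, by omega, .case_true hk h⟩

theorem RL.loop_stop {k : ℕ} {c : Option Bool → Bool} {P : Prog} {s : St}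
    (h : c (s k).head? = false) : RL (.loop k c P) s 1 s := ⟨1, le_rfl, .loop_stop h⟩

theorem RL.loop_go {k : ℕ} {c : Option Bool → Bool} {P : Prog} {s s' s'' : St} {n n' : ℕ}
    (hc : c (s k).head? = true) (h : RL P s n s') (h' : RL (.loop k c P) s' n' s'') :
    RL (.loop k c P) s (n + n' + 1) s'' := by
  obtain ⟨m, hm, h⟩ := h
  obtain ⟨m', hm', h'⟩ := h'
  exact ⟨m + m' + 1, by omega, .loop_go hc h h'⟩

/-- Every stack grows by at most one symbol per step. -/
theorem Runs.length_le {P : Prog} {s s' : St} {n : ℕ} (h : Runs P s n s') (k : ℕ) :
    (s' k).length ≤ (s k).length + n := by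
  induction h with
  | skip s => omega
  | push j b s =>
    by_cases hj : k = j
    · subst hj; simp
    · simp [Function.update_of_ne hj]
  | pop j s =>
    by_cases hj : k = j
    · subst hj; simp; omega
    · simp [Function.update_of_ne hj]
  | seq _ _ ih1 ih2 => omega
  | case_none _ _ ih => omega
  | case_false _ _ ih => omega
  | case_true _ _ ih => omega
  | loop_stop _ => omega
  | loop_go _ _ _ ih1 ih2 => omega

theorem RL.length_le {P : Prog} {s s' : St} {n : ℕ} (h : RL P s n s') (k : ℕ) :
    (s' k).length ≤ (s k).length + n := by
  obtain ⟨m, hm, h⟩ := h
  have := h.length_le k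
  omega

/-! ### Renaming of stacks -/

/-- Rename the stacks used by a program. -/
def Prog.ren (ρ : ℕ → ℕ) : Prog → Prog
  | .skip => .skip
  | .push k b => .push (ρ k) b
  | .pop k => .pop (ρ k)
  | .seq P Q => .seq (P.ren ρ) (Q.ren ρ)
  | .case k P Q R => .case (ρ k) (P.ren ρ) (Q.ren ρ) (R.ren ρ)
  | .loop k c P => .loop (ρ k) c (P.ren ρ)

theorem Runs.ren {ρ : ℕ → ℕ} (hρ : Function.Injective ρ) {P : Prog} {s s' : St} {n : ℕ}
    (h : Runs P s n s') : ∀ S : St, (∀ i, S (ρ i) = s i) →
      ∃ S', Runs (P.ren ρ) S n S' ∧ (∀ i, S' (ρ i) = s' i) ∧ ∀ j, (∀ i, ρ i ≠ j) → S' j = S j := by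
  induction h with
  | skip s => exact fun S hS => ⟨S, .skip S, hS, fun _ _ => rfl⟩
  | push k b s =>
    intro S hS
    refine ⟨_, .push (ρ k) b S, fun i => ?_, fun j hj => ?_⟩
    · by_cases hi : i = k
      · subst hi; simp [hS]
      · rw [Function.update_of_ne hi, Function.update_of_ne (fun h => hi (hρ h)), hS]
    · rw [Function.update_of_ne (fun h => hj k h.symm)]
  | pop k s =>
    intro S hS
    refine ⟨_, .pop (ρ k) S, fun i => ?_, fun j hj => ?_⟩
    · by_cases hi : i = k
      · subst hi; simp [hS]
      · rw [Function.update_of_ne hi, Function.update_of_ne (fun h => hi (hρ h)), hS]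
    · rw [Function.update_of_ne (fun h => hj k h.symm)]
  | seq _ _ ih1 ih2 =>
    intro S hS
    obtain ⟨S1, h1, h1', h1''⟩ := ih1 S hS
    obtain ⟨S2, h2, h2', h2''⟩ := ih2 S1 h1'
    exact ⟨S2, .seq h1 h2, h2', fun j hj => (h2'' j hj).trans (h1'' j hj)⟩
  | case_none hk _ ih =>
    intro S hS
    obtain ⟨S1, h1, h1', h1''⟩ := ih S hS
    exact ⟨S1, .case_none (by rw [hS]; exact hk) h1, h1', h1''⟩
  | case_false hk _ ih =>
    intro S hS
    obtain ⟨S1, h1, h1', h1''⟩ := ih S hS
    exact ⟨S1, .case_false (by rw [hS]; exact hk) h1, h1', h1''⟩
  | case_true hk _ ih =>
    intro S hS
    obtain ⟨S1, h1, h1', h1''⟩ := ih S hS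
    exact ⟨S1, .case_true (by rw [hS]; exact hk) h1, h1', h1''⟩
  | loop_stop hk =>
    intro S hS
    exact ⟨S, .loop_stop (by rw [hS]; exact hk), hS, fun _ _ => rfl⟩
  | loop_go hk _ _ ih1 ih2 =>
    intro S hS
    obtain ⟨S1, h1, h1', h1''⟩ := ih1 S hS
    obtain ⟨S2, h2, h2', h2''⟩ := ih2 S1 h1'
    exact ⟨S2, .loop_go (by rw [hS]; exact hk) h1 h2, h2',
      fun j hj => (h2'' j hj).trans (h1'' j hj)⟩

/-- Run a program on stack `a`, with the stacks from `b` on as scratch space. -/
def Prog.call (P : Prog) (a b : ℕ) : Prog := P.ren (fun i => if i = 0 then a else b + (i - 1))

theorem RL.call {P : Prog} {x y : List Bool} {n : ℕ} (h : RL P (single x) n (single y))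
    {a b : ℕ} (hab : a < b) {S : St} (ha : S a = x) (hb : ∀ j, b ≤ j → S j = []) :
    RL (P.call a b) S n (Function.update S a y) := by
  obtain ⟨m, hm, h⟩ := h
  have hρ : Function.Injective (fun i => if i = 0 then a else b + (i - 1)) := by
    intro i j hij
    simp only at hij
    split_ifs at hij <;> omega
  obtain ⟨S', h1, h2, h3⟩ := h.ren hρ S (by
    intro i
    rcases i with _ | i
    · simp [ha]
    · simp [hb (b + i) (by omega)])
  have : S' = Function.update S a y := by
    funext j
    by_cases hj : j = a
    · subst hj
      have := h2 0
      simp at this
      simp [this]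
    · rw [Function.update_of_ne hj]
      by_cases hjb : b ≤ j
      · have h4 : S' (if j - b + 1 = 0 then a else b + (j - b + 1 - 1)) = single y (j - b + 1) :=
          h2 (j - b + 1)
        rw [if_neg (by omega), show b + (j - b + 1 - 1) = j by omega, single_succ] at h4
        rw [h4, hb j hjb]
      · apply h3
        intro i
        split_ifs <;> omega
  rw [this] at h1
  exact ⟨m, hm, h1⟩

/-! ### Concrete states with four registers -/

/-- The state with given contents of the first four stacks, the others being empty. -/
def st4 (a b c d : List Bool) : St
  | 0 => a
  | 1 => b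
  | 2 => c
  | 3 => d
  | _ => []

@[simp] theorem st4_0 (a b c d : List Bool) : st4 a b c d 0 = a := rfl
@[simp] theorem st4_1 (a b c d : List Bool) : st4 a b c d 1 = b := rfl
@[simp] theorem st4_2 (a b c d : List Bool) : st4 a b c d 2 = c := rfl
@[simp] theorem st4_3 (a b c d : List Bool) : st4 a b c d 3 = d := rfl
@[simp] theorem st4_4 (a b c d : List Bool) (j : ℕ) : st4 a b c d (j + 4) = [] := rfl

@[simp] theorem upd0 (a b c d x : List Bool) :
    Function.update (st4 a b c d) 0 x = st4 x b c d := by
  funext j
  rcases j with _ | _ | _ | _ | j <;> simp [Function.update_apply] <;> rfl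
@[simp] theorem upd1 (a b c d x : List Bool) :
    Function.update (st4 a b c d) 1 x = st4 a x c d := by
  funext j
  rcases j with _ | _ | _ | _ | j <;> simp [Function.update_apply] <;> rfl
@[simp] theorem upd2 (a b c d x : List Bool) :
    Function.update (st4 a b c d) 2 x = st4 a b x d := by
  funext j
  rcases j with _ | _ | _ | _ | j <;> simp [Function.update_apply] <;> rfl
@[simp] theorem upd3 (a b c d x : List Bool) :
    Function.update (st4 a b c d) 3 x = st4 a b c x := by
  funext j
  rcases j with _ | _ | _ | _ | j <;> simp [Function.update_apply] <;> rfl

theorem single_eq (x : List Bool) : single x = st4 x [] [] [] := by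
  funext j
  rcases j with _ | _ | _ | _ | j <;> simp <;> rfl

/-! ### Moving and copying -/

/-- Move stack `a` to stack `b`, reversing the order. -/
def mv (a b : ℕ) : Prog :=
  .loop a Option.isSome
    (.case a .skip (.seq (.pop a) (.push b false)) (.seq (.pop a) (.push b true)))

theorem mv_run {a b : ℕ} (hab : a ≠ b) : ∀ (u : List Bool) (s : St), s a = u →
    RL (mv a b) s (4 * u.length + 1)
      (Function.update (Function.update s a []) b (u.reverse ++ s b)) := by
  intro u
  induction u with
  | nil =>
    intro s hs
    have : Function.update (Function.update s a []) b (([] : List Bool).reverse ++ s b) = s := by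
      funext j
      simp only [Function.update_apply, List.reverse_nil, List.nil_append]
      split_ifs <;> simp_all
    rw [this]
    exact .loop_stop (by simp [hs])
  | cons x u ih =>
    intro s hs
    set s1 : St := Function.update (Function.update s a u) b (x :: s b) with hs1
    have h1 : s1 a = u := by
      rw [hs1, Function.update_of_ne hab]; simp
    have hb : RL (.case a .skip (.seq (.pop a) (.push b false)) (.seq (.pop a) (.push b true)))
        s 3 s1 := by
      have hpop := RL.pop a s
      rw [hs] at hpop
      have hpush : ∀ y, RL (.push b y) (Function.update s a (x :: u).tail) 1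
          (Function.update (Function.update s a u) b (y :: s b)) := by
        intro y
        have := RL.push b y (Function.update s a (x :: u).tail)
        rw [Function.update_of_ne (Ne.symm hab)] at this
        exact this
      cases x with
      | false => exact .case_false (by simp [hs]) (.seq hpop (hpush false))
      | true => exact .case_true (by simp [hs]) (.seq hpop (hpush true))
    have h2 := RL.loop_go (c := Option.isSome) (by simp [hs]) hb (ih s1 h1)
    have e : Function.update (Function.update s1 a []) b (u.reverse ++ s1 b) =
        Function.update (Function.update s a []) b ((x :: u).reverse ++ s b) := by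
      funext j
      simp only [hs1, Function.update_apply]
      by_cases hj : j = b
      · subst hj; simp
      · simp only [hj, if_false]
        by_cases hja : j = a
        · simp [hja]
        · simp [hja]
    rw [e] at h2
    refine h2.mono ?_
    simp only [List.length_cons]
    omega

/-- Move stack `a` to stacks `b` and `c`, reversing the order. -/
def mv2 (a b c : ℕ) : Prog :=
  .loop a Option.isSome
    (.case a .skip (.seq (.pop a) (.seq (.push b false) (.push c false)))
      (.seq (.pop a) (.seq (.push b true) (.push c true))))

theorem mv2_run {a b c : ℕ} (hab : a ≠ b) (hac : a ≠ c) (hbc : b ≠ c) :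
    ∀ (u : List Bool) (s : St), s a = u →
    RL (mv2 a b c) s (5 * u.length + 1)
      (Function.update (Function.update (Function.update s a []) b (u.reverse ++ s b)) c
        (u.reverse ++ s c)) := by
  intro u
  induction u with
  | nil =>
    intro s hs
    have : Function.update (Function.update (Function.update s a []) b
        (([] : List Bool).reverse ++ s b)) c (([] : List Bool).reverse ++ s c) = s := by
      funext j
      simp only [Function.update_apply, List.reverse_nil, List.nil_append]
      split_ifs <;> simp_all
    rw [this]
    exact .loop_stop (by simp [hs])
  | cons x u ih =>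
    intro s hs
    set s1 : St := Function.update (Function.update (Function.update s a u) b (x :: s b)) c
      (x :: s c) with hs1
    have h1 : s1 a = u := by
      rw [hs1, Function.update_of_ne hac, Function.update_of_ne hab]; simp
    have hb : RL (.case a .skip (.seq (.pop a) (.seq (.push b false) (.push c false)))
      (.seq (.pop a) (.seq (.push b true) (.push c true)))) s 4 s1 := by
      have hpop := RL.pop a s
      rw [hs] at hpop
      have hpush : ∀ y, RL (.seq (.push b y) (.push c y)) (Function.update s a (x :: u).tail) 2
          (Function.update (Function.update (Function.update s a u) b (y :: s b)) c (y :: s c)) := by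
        intro y
        have h1 := RL.push b y (Function.update s a (x :: u).tail)
        rw [Function.update_of_ne (Ne.symm hab)] at h1
        have h2 := RL.push c y (Function.update (Function.update s a (x :: u).tail) b (y :: s b))
        rw [Function.update_of_ne (Ne.symm hbc), Function.update_of_ne (Ne.symm hac)] at h2
        exact .seq h1 h2
      cases x with
      | false => exact .case_false (by simp [hs]) (.seq hpop (hpush false))
      | true => exact .case_true (by simp [hs]) (.seq hpop (hpush true))
    have h2 := RL.loop_go (c := Option.isSome) (by simp [hs]) hb (ih s1 h1)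
    have e : Function.update (Function.update (Function.update s1 a []) b (u.reverse ++ s1 b)) c
        (u.reverse ++ s1 c) =
        Function.update (Function.update (Function.update s a []) b ((x :: u).reverse ++ s b)) c
          ((x :: u).reverse ++ s c) := by
      funext j
      simp only [hs1, Function.update_apply]
      by_cases hj : j = b
      · subst hj; simp [hbc]
      · by_cases hjc : j = c
        · subst hjc; simp
        · simp only [hj, hjc, if_false]
          by_cases hja : j = a
          · simp [hja]
          · simp [hja]
    rw [e] at h2
    refine h2.mono ?_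
    simp only [List.length_cons]
    omega

/-- Empty stack `a`. -/
def clr (a : ℕ) : Prog := .loop a Option.isSome (.pop a)

theorem clr_run {a : ℕ} : ∀ (u : List Bool) (s : St), s a = u →
    RL (clr a) s (2 * u.length + 1) (Function.update s a []) := by
  intro u
  induction u with
  | nil =>
    intro s hs
    have : Function.update s a [] = s := by rw [← hs]; simp
    rw [this]
    exact .loop_stop (by simp [hs])
  | cons x u ih =>
    intro s hs
    have hpop := RL.pop a s
    rw [hs] at hpop
    have h2 := RL.loop_go (c := Option.isSome) (by simp [hs]) hpop
      (ih (Function.update s a (x :: u).tail) (by simp))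
    rw [Function.update_idem] at h2
    refine h2.mono ?_
    simp only [List.length_cons]
    omega

/-! ### Trees -/

/-- Binary trees: the universal data type. -/
inductive T : Type
  | nil : T
  | node : T → T → T
  deriving DecidableEq

namespace T

/-- The code of a tree as a bit string. -/
def enc : T → List Bool
  | .nil => [false]
  | .node l r => true :: (l.enc ++ r.enc)

/-- The length of the code of a tree. -/
def size : T → ℕ
  | .nil => 1
  | .node l r => l.size + r.size + 1

@[simp] theorem enc_length (t : T) : t.enc.length = t.size := by
  induction t with
  | nil => rfl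
  | node l r ihl ihr => simp [enc, size, ihl, ihr]

theorem size_pos (t : T) : 0 < t.size := by cases t <;> simp [size]

theorem enc_append_inj : ∀ {a b : T} {u v : List Bool}, a.enc ++ u = b.enc ++ v → a = b ∧ u = v := by
  intro a
  induction a with
  | nil =>
    intro b u v h
    cases b with
    | nil => simpa [enc] using h
    | node l r => simp [enc] at h
  | node l r ihl ihr =>
    intro b u v h
    cases b with
    | nil => simp [enc] at h
    | node l' r' =>
      simp only [enc, List.cons_append, List.append_assoc, List.cons.injEq, true_and] at h
      obtain ⟨h1, h2⟩ := ihl h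
      obtain ⟨h3, h4⟩ := ihr h2
      exact ⟨by rw [h1, h3], h4⟩

theorem enc_injective : Function.Injective enc := by
  intro a b h
  exact (enc_append_inj (u := []) (v := []) (by simpa using h)).1

/-- Left child (`nil` for `nil`). -/
def left : T → T
  | .nil => .nil
  | .node l _ => l

/-- Right child (`nil` for `nil`). -/
def right : T → T
  | .nil => .nil
  | .node _ r => r

/-- The code of a list of trees. -/
def encs (ts : List T) : List Bool := (ts.map enc).flatten

@[simp] theorem encs_nil : encs [] = [] := rfl
@[simp] theorem encs_cons (t : T) (ts : List T) : encs (t :: ts) = t.enc ++ encs ts := rfl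

/-- Total size of a list of trees. -/
def sizes (ts : List T) : ℕ := (ts.map size).sum

@[simp] theorem sizes_nil : sizes [] = 0 := rfl
@[simp] theorem sizes_cons (t : T) (ts : List T) : sizes (t :: ts) = t.size + sizes ts := rfl

end T

open T

/-- Move the code of one tree from stack `a` to stack `b` (reversed), using stack `c`. -/
def takeTree (a b c : ℕ) : Prog :=
  .seq (.push c true)
    (.loop c Option.isSome
      (.case a (.pop c)
        (.seq (.pop a) (.seq (.push b false) (.pop c)))
        (.seq (.pop a) (.seq (.push b true) (.push c true)))))

theorem takeTree_loop {a b c : ℕ} (hab : a ≠ b) (hac : a ≠ c) (hbc : b ≠ c) :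
    ∀ (n : ℕ) (ts : List T) (rest : List Bool) (s : St), sizes ts ≤ n →
      s a = encs ts ++ rest → s c = List.replicate ts.length true →
    RL (.loop c Option.isSome
      (.case a (.pop c)
        (.seq (.pop a) (.seq (.push b false) (.pop c)))
        (.seq (.pop a) (.seq (.push b true) (.push c true))))) s (5 * sizes ts + 1)
      (Function.update (Function.update (Function.update s a rest) b
        ((encs ts).reverse ++ s b)) c []) := by
  intro n
  induction n with
  | zero =>
    intro ts rest s hn ha hc
    cases ts with
    | nil =>
      have : Function.update (Function.update (Function.update s a rest) b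
        ((encs []).reverse ++ s b)) c [] = s := by
        simp only [encs_nil, List.nil_append, List.length_nil, List.replicate_zero,
          List.reverse_nil] at *
        rw [← ha, ← hc]
        simp
      rw [this]
      exact .loop_stop (by simp [hc])
    | cons t ts =>
      have := t.size_pos
      simp at hn
      omega
  | succ n ih =>
    intro ts rest s hn ha hc
    cases ts with
    | nil =>
      have : Function.update (Function.update (Function.update s a rest) b
        ((encs []).reverse ++ s b)) c [] = s := by
        simp only [encs_nil, List.nil_append, List.length_nil, List.replicate_zero,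
          List.reverse_nil] at *
        rw [← ha, ← hc]
        simp
      rw [this]
      exact .loop_stop (by simp [hc])
    | cons t ts =>
      cases t with
      | nil =>
        simp only [encs_cons, enc, List.cons_append, List.nil_append, List.length_cons,
          List.replicate_succ, sizes_cons, size] at ha hc hn
        have hpop := RL.pop a s
        rw [ha] at hpop
        simp only [List.tail_cons] at hpop
        have h2 := RL.push b false (Function.update s a (encs ts ++ rest))
        rw [Function.update_of_ne (Ne.symm hab)] at h2
        have h3 := RL.pop c (Function.update (Function.update s a (encs ts ++ rest)) b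
          (false :: s b))
        rw [Function.update_of_ne (Ne.symm hbc), Function.update_of_ne (Ne.symm hac), hc] at h3
        simp only [List.tail_cons] at h3
        have h4 := ih ts rest (Function.update (Function.update (Function.update s
          a (encs ts ++ rest)) b (false :: s b)) c (List.replicate ts.length true)) (by omega)
          (by rw [Function.update_of_ne hac, Function.update_of_ne hab]; simp) (by simp)
        have h5 := RL.loop_go (c := Option.isSome) (by simp [hc])
          (RL.case_false (P := .pop c) (R := .seq (.pop a) (.seq (.push b true) (.push c true)))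
            (by simp [ha]) (RL.seq hpop (RL.seq h2 h3))) h4
        have e : Function.update (Function.update (Function.update (Function.update
            (Function.update (Function.update s a (encs ts ++ rest)) b (false :: s b)) c
            (List.replicate ts.length true)) a rest) b ((encs ts).reverse ++
            Function.update (Function.update (Function.update s
          a (encs ts ++ rest)) b (false :: s b)) c (List.replicate ts.length true) b)) c [] =
            Function.update (Function.update (Function.update s a rest) b
        ((encs (T.nil :: ts)).reverse ++ s b)) c [] := by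
          funext j
          simp only [Function.update_apply]
          by_cases hjc : j = c
          · simp [hjc]
          · by_cases hjb : j = b
            · simp [hjb, hbc, enc]
            · by_cases hja : j = a
              · simp [hja, hac, hab]
              · simp [hja, hjb, hjc]
        rw [e] at h5
        refine h5.mono ?_
        simp only [sizes_cons, size]
        omega
      | node l r =>
        simp only [encs_cons, enc, List.cons_append, List.length_cons,
          List.replicate_succ, sizes_cons, size] at ha hc hn
        have hpop := RL.pop a s
        rw [ha] at hpop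
        simp only [List.tail_cons] at hpop
        have h2 := RL.push b true (Function.update s a (l.enc ++ r.enc ++ encs ts ++ rest))
        rw [Function.update_of_ne (Ne.symm hab)] at h2
        have h3 := RL.push c true (Function.update (Function.update s a
          (l.enc ++ r.enc ++ encs ts ++ rest)) b (true :: s b))
        rw [Function.update_of_ne (Ne.symm hbc), Function.update_of_ne (Ne.symm hac), hc] at h3
        have h4 := ih (l :: r :: ts) rest (Function.update (Function.update (Function.update s
          a (l.enc ++ r.enc ++ encs ts ++ rest)) b (true :: s b)) c
            (true :: true :: List.replicate ts.length true)) (by simp; omega)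
          (by rw [Function.update_of_ne hac, Function.update_of_ne hab]; simp)
          (by simp [List.replicate_succ])
        have h5 := RL.loop_go (c := Option.isSome) (by simp [hc])
          (RL.case_true (P := .pop c) (Q := .seq (.pop a) (.seq (.push b false) (.pop c)))
            (by simp [ha]) (RL.seq hpop (RL.seq h2 h3))) h4
        have e : Function.update (Function.update (Function.update (Function.update
            (Function.update (Function.update s a (l.enc ++ r.enc ++ encs ts ++ rest)) b
              (true :: s b)) c
            (true :: true :: List.replicate ts.length true)) a rest) b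
            ((encs (l :: r :: ts)).reverse ++
            Function.update (Function.update (Function.update s
          a (l.enc ++ r.enc ++ encs ts ++ rest)) b (true :: s b)) c
            (true :: true :: List.replicate ts.length true) b)) c [] =
            Function.update (Function.update (Function.update s a rest) b
        ((encs (T.node l r :: ts)).reverse ++ s b)) c [] := by
          funext j
          simp only [Function.update_apply]
          by_cases hjc : j = c
          · simp [hjc]
          · by_cases hjb : j = b
            · simp [hjb, hbc, enc]
            · by_cases hja : j = a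
              · simp [hja, hac, hab]
              · simp [hja, hjb, hjc]
        rw [e] at h5
        refine h5.mono ?_
        simp only [sizes_cons, size]
        omega

theorem takeTree_run {a b c : ℕ} (hab : a ≠ b) (hac : a ≠ c) (hbc : b ≠ c) (t : T)
    (rest : List Bool) (s : St) (ha : s a = t.enc ++ rest) (hc : s c = []) :
    RL (takeTree a b c) s (5 * t.size + 2)
      (Function.update (Function.update s a rest) b (t.enc.reverse ++ s b)) := by
  have h1 := RL.push c true s
  rw [hc] at h1
  have h2 := takeTree_loop hab hac hbc t.size [t] rest (Function.update s c [true]) (by simp)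
    (by rw [Function.update_of_ne hac]; simp [ha]) (by simp)
  have h3 := RL.seq h1 h2
  have e : Function.update (Function.update (Function.update (Function.update s c [true]) a rest) b
        ((encs [t]).reverse ++ Function.update s c [true] b)) c [] =
      Function.update (Function.update s a rest) b (t.enc.reverse ++ s b) := by
    funext j
    simp only [Function.update_apply]
    by_cases hjc : j = c
    · simp [hjc, hac.symm, hbc.symm, hc]
    · by_cases hjb : j = b
      · simp [hjb, hbc]
      · by_cases hja : j = a
        · simp [hja, hac, hab]
        · simp [hja, hjb, hjc]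
  rw [e] at h3
  refine h3.mono ?_
  simp only [sizes_cons, sizes_nil]
  omega

end Pool.Agent.PolyTime
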