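import Pool.Agent.PolyTimeCL.Basic

/-!
# Polynomial-time functions on binary trees: closure properties
-/

set_option autoImplicit false

namespace Pool.Agent.PolyTime

open T

/-! ### Polynomially bounded functions -/

/-- `t` is bounded by a polynomial in the size `sz`. -/
def PB {α : Type*} (sz t : α → ℕ) : Prop := ∃ k, ∀ x, t x ≤ (sz x + 2) ^ k

namespace PB

variable {α : Type*} {sz : α → ℕ}

theorem mono {t t' : α → ℕ} (h : PB sz t) (h' : ∀ x, t' x ≤ t x) : PB sz t' := by
  obtain ⟨k, hk⟩ := h
  exact ⟨k, fun x => (h' x).trans (hk x)⟩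

theorem const (c : ℕ) : PB sz (fun _ => c) := by
  refine ⟨c, fun x => ?_⟩
  calc c ≤ 2 ^ c := Nat.lt_two_pow_self.le
    _ ≤ (sz x + 2) ^ c := Nat.pow_le_pow_left (by omega) c

theorem self : PB sz sz := ⟨1, fun x => by simp⟩

theorem add {t t' : α → ℕ} (h : PB sz t) (h' : PB sz t') : PB sz (fun x => t x + t' x) := by
  obtain ⟨k, hk⟩ := h
  obtain ⟨k', hk'⟩ := h'
  refine ⟨k + k' + 1, fun x => ?_⟩
  have h1 : (sz x + 2) ^ k ≤ (sz x + 2) ^ (k + k') := Nat.pow_le_pow_right (by omega) (by omega)
  have h2 : (sz x + 2) ^ k' ≤ (sz x + 2) ^ (k + k') := Nat.pow_le_pow_right (by omega) (by omega)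
  calc t x + t' x ≤ (sz x + 2) ^ (k + k') + (sz x + 2) ^ (k + k') := by
        have := hk x; have := hk' x; omega
    _ = (sz x + 2) ^ (k + k') * 2 := by ring
    _ ≤ (sz x + 2) ^ (k + k') * (sz x + 2) := Nat.mul_le_mul_left _ (by omega)
    _ = (sz x + 2) ^ (k + k' + 1) := by ring

theorem mul {t t' : α → ℕ} (h : PB sz t) (h' : PB sz t') : PB sz (fun x => t x * t' x) := by
  obtain ⟨k, hk⟩ := h
  obtain ⟨k', hk'⟩ := h'
  refine ⟨k + k', fun x => ?_⟩
  rw [pow_add]
  exact Nat.mul_le_mul (hk x) (hk' x)

theorem pow {t : α → ℕ} (h : PB sz t) (c : ℕ) : PB sz (fun x => t x ^ c) := by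
  obtain ⟨k, hk⟩ := h
  refine ⟨k * c, fun x => ?_⟩
  rw [pow_mul]
  exact Nat.pow_le_pow_left (hk x) c

/-- Substitution in a polynomial bound. -/
theorem comp {β : Type*} {sz' t : β → ℕ} (h : PB sz' t) {f : α → β}
    (hf : PB sz (fun x => sz' (f x))) : PB sz (fun x => t (f x)) := by
  obtain ⟨k, hk⟩ := h
  exact ((hf.add (const 2)).pow k).mono (fun x => hk (f x))

end PB

/-- `PE e f`: some stack program turns the code of `e a` into the code of `f a`, for all `a`, in
time polynomial in the size of `e a`. -/
def PE {α : Type*} (e f : α → T) : Prop :=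
  ∃ (P : Prog) (k : ℕ), ∀ a, RL P (single (e a).enc) (((e a).size + 2) ^ k) (single (f a).enc)

namespace PE

variable {α β : Type*} {e f g c : α → T}

theorem of_PB (P : Prog) (t : α → ℕ) (ht : PB (fun a => (e a).size) t)
    (h : ∀ a, RL P (single (e a).enc) (t a) (single (f a).enc)) : PE e f := by
  obtain ⟨k, hk⟩ := ht
  exact ⟨P, k, fun a => (h a).mono (hk a)⟩

theorem to_PB (h : PE e f) : ∃ (P : Prog) (t : α → ℕ), PB (fun a => (e a).size) t ∧
    ∀ a, RL P (single (e a).enc) (t a) (single (f a).enc) := by
  obtain ⟨P, k, h⟩ := h
  exact ⟨P, fun a => ((e a).size + 2) ^ k, (PB.self.add (PB.const 2)).pow k, h⟩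

theorem size_le (hf : PE e f) : PB (fun a => (e a).size) (fun x => (f x).size) := by
  obtain ⟨P, t, ht, h⟩ := hf.to_PB
  refine (PB.self.add ht).mono (fun x => ?_)
  have := (h x).length_le 0
  simpa using this

theorem id : PE e e := of_PB .skip (fun _ => 1) (PB.const 1) (fun _ => RL.skip _)

theorem congr (h : PE e f) (h' : ∀ a, f a = g a) : PE e g := by
  rwa [show g = f from funext (fun x => (h' x).symm)]

/-- Restriction of the domain. -/
theorem restrict (φ : β → α) (h : PE e f) : PE (fun b => e (φ b)) (fun b => f (φ b)) := by
  obtain ⟨P, k, h⟩ := h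
  exact ⟨P, k, fun b => h (φ b)⟩

theorem comp (hf : PE e f) (hg : PE f g) : PE e g := by
  have hs := hf.size_le
  obtain ⟨P, t, ht, h⟩ := hf.to_PB
  obtain ⟨Q, k, h'⟩ := hg
  exact of_PB (.seq P Q) (fun x => t x + ((f x).size + 2) ^ k)
    (ht.add ((hs.add (PB.const 2)).pow k)) (fun x => (h x).seq (h' x))

theorem nil : PE e (fun _ => T.nil) := by
  refine of_PB (.seq (clr 0) (.push 0 false)) (fun x => (2 * (e x).size + 1) + 1)
    (((PB.const 2).mul PB.self |>.add (PB.const 1)).add (PB.const 1)) (fun x => ?_)
  rw [single_eq, single_eq]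
  have h1 := clr_run (a := 0) (e x).enc (st4 (e x).enc [] [] []) rfl
  have h2 := RL.push 0 false (st4 [] [] [] [])
  simp only [upd0, enc_length, st4_0] at h1 h2
  exact h1.seq h2

/-- Copy register `0` to register `1`, using register `2`. -/
theorem dup_run (x : List Bool) :
    RL (.seq (mv 0 2) (mv2 2 0 1)) (st4 x [] [] []) (9 * x.length + 2) (st4 x x [] []) := by
  have h1 := mv_run (a := 0) (b := 2) (by decide) x (st4 x [] [] []) rfl
  simp only [upd0, upd2, st4_2, List.append_nil] at h1
  have h2 := mv2_run (a := 2) (b := 0) (c := 1) (by decide) (by decide) (by decide) x.reverse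
    (st4 [] [] x.reverse []) rfl
  simp only [upd0, upd1, upd2, st4_0, st4_1, List.append_nil, List.reverse_reverse,
    List.length_reverse] at h2
  refine (h1.seq h2).mono ?_
  omega

theorem call_st4_0 {P : Prog} {x y : List Bool} {n : ℕ} (h : RL P (single x) n (single y))
    (b : List Bool) : RL (P.call 0 2) (st4 x b [] []) n (st4 y b [] []) := by
  have := h.call (a := 0) (b := 2) (by decide) (S := st4 x b [] []) rfl
    (by intro j hj; obtain ⟨i, rfl⟩ : ∃ i, j = i + 2 := ⟨j - 2, by omega⟩
        rcases i with _ | _ | i <;> rfl)
  simpa using this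

theorem call_st4_1 {P : Prog} {x y : List Bool} {n : ℕ} (h : RL P (single x) n (single y))
    (a : List Bool) : RL (P.call 1 2) (st4 a x [] []) n (st4 a y [] []) := by
  have := h.call (a := 1) (b := 2) (by decide) (S := st4 a x [] []) rfl
    (by intro j hj; obtain ⟨i, rfl⟩ : ∃ i, j = i + 2 := ⟨j - 2, by omega⟩
        rcases i with _ | _ | i <;> rfl)
  simpa using this

theorem node (hf : PE e f) (hg : PE e g) : PE e (fun x => T.node (f x) (g x)) := by
  have hfs := hf.size_le
  obtain ⟨P, t, ht, h⟩ := hf.to_PB
  obtain ⟨Q, u, hu, h'⟩ := hg.to_PB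
  refine of_PB (.seq (.seq (mv 0 2) (mv2 2 0 1)) (.seq (P.call 1 2) (.seq (Q.call 0 2)
    (.seq (mv 1 2) (.seq (mv 2 0) (.push 0 true))))))
    (fun x => (9 * (e x).size + 2) +
      (t x + (u x + ((4 * (f x).size + 1) + ((4 * (f x).size + 1) + 1))))) ?_ (fun x => ?_)
  · have h4 : PB (fun a => (e a).size) (fun x => 4 * (f x).size + 1) :=
      ((PB.const 4).mul hfs).add (PB.const 1)
    exact (((PB.const 9).mul PB.self).add (PB.const 2)).add
      (ht.add (hu.add (h4.add (h4.add (PB.const 1)))))
  · rw [single_eq, single_eq]
    have h1 := dup_run (e x).enc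
    have h2 := call_st4_1 (h x) (e x).enc
    have h3 := call_st4_0 (h' x) (f x).enc
    have h4 := mv_run (a := 1) (b := 2) (by decide) (f x).enc
      (st4 (g x).enc (f x).enc [] []) rfl
    have h5 := mv_run (a := 2) (b := 0) (by decide) (f x).enc.reverse
      (st4 (g x).enc [] (f x).enc.reverse []) rfl
    have h6 := RL.push 0 true (st4 ((f x).enc ++ (g x).enc) [] [] [])
    simp only [upd0, upd1, upd2, st4_0, st4_1, st4_2, List.append_nil, List.reverse_reverse,
      List.length_reverse, enc_length] at h1 h2 h3 h4 h5 h6
    exact h1.seq (h2.seq (h3.seq (h4.seq (h5.seq h6))))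

/-- Constant functions. -/
theorem const : ∀ c : T, PE e (fun _ => c)
  | .nil => nil
  | .node l r => (const l).node (const r)

theorem left : PE e (fun a => (e a).left) := by
  refine of_PB (.case 0 .skip .skip (.seq (.pop 0) (.seq (takeTree 0 1 2) (.seq (clr 0) (mv 1 0)))))
    (fun x => 1 + ((5 * (e x).size + 2) + ((2 * (e x).size + 1) + (4 * (e x).size + 1))) + 1)
    ?_ (fun x => ?_)
  · exact ((PB.const 1).add ((((PB.const 5).mul PB.self).add (PB.const 2)).add
      ((((PB.const 2).mul PB.self).add (PB.const 1)).add
        (((PB.const 4).mul PB.self).add (PB.const 1))))).add (PB.const 1)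
  · rw [single_eq, single_eq]
    cases hx : e x with
    | nil =>
      exact (RL.case_false (k := 0) (by rfl) (RL.skip _)).mono (by omega)
    | node l r =>
      refine RL.mono (n := 1 + ((5 * l.size + 2) + ((2 * r.size + 1) + (4 * l.size + 1))) + 1)
        (RL.case_true (by rfl) ?_) (by simp only [T.size]; omega)
      have h1 := RL.pop 0 (st4 (T.node l r).enc [] [] [])
      have h2 := takeTree_run (a := 0) (b := 1) (c := 2) (by decide) (by decide) (by decide) l
        r.enc (st4 (l.enc ++ r.enc) [] [] []) rfl rfl
      have h3 := clr_run (a := 0) r.enc (st4 r.enc l.enc.reverse [] []) rfl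
      have h4 := mv_run (a := 1) (b := 0) (by decide) l.enc.reverse
        (st4 [] l.enc.reverse [] []) rfl
      simp only [upd0, upd1, upd2, st4_0, st4_1, st4_2, List.append_nil, List.reverse_reverse,
        List.length_reverse, enc_length, T.enc, List.tail_cons] at h1 h2 h3 h4
      exact h1.seq (h2.seq (h3.seq h4))

theorem right : PE e (fun a => (e a).right) := by
  refine of_PB (.case 0 .skip .skip (.seq (.pop 0) (.seq (takeTree 0 1 2) (clr 1))))
    (fun x => 1 + ((5 * (e x).size + 2) + (2 * (e x).size + 1)) + 1)
    ?_ (fun x => ?_)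
  · exact ((PB.const 1).add ((((PB.const 5).mul PB.self).add (PB.const 2)).add
      ((((PB.const 2).mul PB.self).add (PB.const 1))))).add (PB.const 1)
  · rw [single_eq, single_eq]
    cases hx : e x with
    | nil =>
      exact (RL.case_false (k := 0) (by rfl) (RL.skip _)).mono (by omega)
    | node l r =>
      refine RL.mono (n := 1 + ((5 * l.size + 2) + (2 * l.size + 1)) + 1)
        (RL.case_true (by rfl) ?_) (by simp only [T.size]; omega)
      have h1 := RL.pop 0 (st4 (T.node l r).enc [] [] [])
      have h2 := takeTree_run (a := 0) (b := 1) (c := 2) (by decide) (by decide) (by decide) l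
        r.enc (st4 (l.enc ++ r.enc) [] [] []) rfl rfl
      have h3 := clr_run (a := 1) l.enc.reverse (st4 r.enc l.enc.reverse [] []) rfl
      simp only [upd0, upd1, upd2, st4_0, st4_1, st4_2, List.append_nil, List.reverse_reverse,
        List.length_reverse, enc_length, T.enc, List.tail_cons] at h1 h2 h3
      exact h1.seq (h2.seq h3)

/-- Definition by cases on whether a test value is `nil`.  The programs for the two cases need to
work only in the respective case. -/
theorem cond (hc : PE e c)
    (hf : PE (fun a : {a // c a = T.nil} => e a) (fun a => f a))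
    (hg : PE (fun a : {a // c a ≠ T.nil} => e a) (fun a => g a)) :
    PE e (fun x => if c x = T.nil then f x else g x) := by
  have hcs := hc.size_le
  obtain ⟨R, v, hv, h''⟩ := hc.to_PB
  obtain ⟨P, k, h⟩ := hf
  obtain ⟨Q, l, h'⟩ := hg
  refine of_PB (.seq (.seq (mv 0 2) (mv2 2 0 1)) (.seq (R.call 1 2)
    (.case 1 .skip (.seq (clr 1) P) (.seq (clr 1) Q))))
    (fun x => (9 * (e x).size + 2) + (v x + (((2 * (c x).size + 1) +
      (((e x).size + 2) ^ k + ((e x).size + 2) ^ l)) + 1)))
    ?_ (fun x => ?_)
  · exact (((PB.const 9).mul PB.self).add (PB.const 2)).add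
      (hv.add (((((PB.const 2).mul hcs).add (PB.const 1)).add
        (((PB.self.add (PB.const 2)).pow k).add ((PB.self.add (PB.const 2)).pow l))).add
          (PB.const 1)))
  · rw [single_eq, single_eq]
    have h1 := dup_run (e x).enc
    have h2 := call_st4_1 (h'' x) (e x).enc
    have h3 := clr_run (a := 1) (c x).enc (st4 (e x).enc (c x).enc [] []) rfl
    simp only [upd0, upd1, upd2, st4_0, st4_1, st4_2, List.append_nil, List.reverse_reverse,
      List.length_reverse, enc_length] at h1 h2 h3
    beta_reduce
    refine h1.seq (h2.seq ?_)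
    cases hcx : c x with
    | nil =>
      rw [hcx] at h3
      simp only [if_true]
      have h4 := h ⟨x, hcx⟩
      rw [single_eq, single_eq] at h4
      exact (RL.case_false (k := 1) (by rfl) (h3.seq h4)).mono (by simp only; omega)
    | node l r =>
      rw [hcx] at h3
      simp only [reduceCtorEq, if_false]
      have h4 := h' ⟨x, by rw [hcx]; simp⟩
      rw [single_eq, single_eq] at h4
      exact (RL.case_true (k := 1) (by rfl) (h3.seq h4)).mono (by simp only; omega)

/-- Iteration: `s a 0, s a 1, …` are successive states, the number of steps is the size of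
`g a`. -/
theorem iter {s : α → ℕ → T} (hg : PE e g) (h0 : PE e (fun a => s a 0))
    (hs : PE (fun p : {p : α × ℕ // p.2 < (g p.1).size} => s p.1.1 p.1.2)
      (fun p => s p.1.1 (p.1.2 + 1)))
    (B : α → ℕ) (hB : PB (fun a => (e a).size) B)
    (hle : ∀ x, ∀ i ≤ (g x).size, (s x i).size ≤ B x) :
    PE e (fun x => s x (g x).size) := by
  have hgs := hg.size_le
  obtain ⟨R, v, hv, hR⟩ := (hg.node h0).to_PB
  obtain ⟨P, k, hP⟩ := hs
  refine of_PB (.seq R (.seq (.pop 0) (.seq (takeTree 0 1 2)
    (.loop 1 Option.isSome (.seq (.pop 1) (P.call 0 2))))))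
    (fun x => v x + (1 + ((5 * (g x).size + 2) + ((g x).size * ((B x + 2) ^ k + 2) + 1))))
    ?_ (fun x => ?_)
  · exact hv.add ((PB.const 1).add ((((PB.const 5).mul hgs).add (PB.const 2)).add
      ((hgs.mul (((hB.add (PB.const 2)).pow k).add (PB.const 2))).add (PB.const 1))))
  · have h1 := hR x
    rw [single_eq] at h1 ⊢
    rw [single_eq] at h1 ⊢
    have h2 := RL.pop 0 (st4 (T.node (g x) (s x 0)).enc [] [] [])
    have h3 := takeTree_run (a := 0) (b := 1) (c := 2) (by decide) (by decide) (by decide) (g x)
        (s x 0).enc (st4 ((g x).enc ++ (s x 0).enc) [] [] []) rfl rfl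
    simp only [upd0, upd1, upd2, st4_0, st4_1, st4_2, List.append_nil, List.reverse_reverse,
      List.length_reverse, enc_length, T.enc, List.tail_cons] at h2 h3
    beta_reduce
    refine h1.seq (h2.seq (h3.seq ?_))
    have key : ∀ (u : List Bool) (j : ℕ), j + u.length = (g x).size →
        RL (.loop 1 Option.isSome (.seq (.pop 1) (P.call 0 2)))
          (st4 (s x j).enc u [] []) (u.length * ((B x + 2) ^ k + 2) + 1)
          (st4 (s x (g x).size).enc [] [] []) := by
      intro u
      induction u with
      | nil =>
        intro j hj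
        simp only [List.length_nil, add_zero] at hj
        rw [hj]
        exact (RL.loop_stop (by rfl)).mono (by simp)
      | cons b u ih =>
        intro j hj
        simp only [List.length_cons] at hj
        have h5 := ih (j + 1) (by omega)
        have h6 := RL.pop 1 (st4 (s x j).enc (b :: u) [] [])
        simp only [upd1, st4_1, List.tail_cons] at h6
        have h7 := call_st4_0 (hP ⟨(x, j), by simp only; omega⟩) u
        have h8 : ((s x j).size + 2) ^ k ≤ (B x + 2) ^ k :=
          Nat.pow_le_pow_left (by have := hle x j (by omega); omega) k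
        refine (RL.loop_go (by rfl) (h6.seq h7) h5).mono ?_
        simp only [List.length_cons, Nat.add_mul, Nat.one_mul]
        omega
    have h9 := key (g x).enc.reverse 0 (by simp)
    simpa using h9

/-- Test for equality. -/
theorem eq (hf : PE e f) (hg : PE e g) :
    PE e (fun x => if f x = g x then T.nil else T.node T.nil T.nil) := by
  have hfs := hf.size_le
  have hgs := hg.size_le
  obtain ⟨R, v, hv, hR⟩ := (hf.node hg).to_PB
  -- the body of the comparison loop: compares the tops of stacks `3` and `0`
  set body : Prog := .seq (.case 3 .skip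
      (.case 0 (.push 2 true) .skip (.push 2 true))
      (.case 0 (.push 2 true) (.push 2 true) .skip)) (.seq (.pop 3) (.pop 0)) with hbody
  refine of_PB (.seq R (.seq (.pop 0) (.seq (takeTree 0 1 2) (.seq (mv 1 3)
    (.seq (.loop 3 Option.isSome body) (.seq (.case 0 .skip (.push 2 true) (.push 2 true))
      (.seq (clr 0) (.case 2 (.push 0 false) .skip
        (.seq (clr 2) (.seq (.push 0 false) (.seq (.push 0 false) (.push 0 true))))))))))))
    (fun x => v x + (1 + ((5 * (f x).size + 2) + ((4 * (f x).size + 1) + ((6 * (f x).size + 1) +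
      (2 + ((2 * (g x).size + 1) + ((2 * ((f x).size + 1) + 1) + 4)))))))) ?_ (fun x => ?_)
  · exact hv.add ((PB.const 1).add ((((PB.const 5).mul hfs).add (PB.const 2)).add
      ((((PB.const 4).mul hfs).add (PB.const 1)).add ((((PB.const 6).mul hfs).add (PB.const 1)).add
      ((PB.const 2).add ((((PB.const 2).mul hgs).add (PB.const 1)).add
        ((((PB.const 2).mul (hfs.add (PB.const 1))).add (PB.const 1)).add (PB.const 4))))))))
  · have h1 := hR x
    rw [single_eq] at h1 ⊢
    rw [single_eq] at h1 ⊢
    have h2 := RL.pop 0 (st4 (T.node (f x) (g x)).enc [] [] [])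
    have h3 := takeTree_run (a := 0) (b := 1) (c := 2) (by decide) (by decide) (by decide) (f x)
        (g x).enc (st4 ((f x).enc ++ (g x).enc) [] [] []) rfl rfl
    have h4 := mv_run (a := 1) (b := 3) (by decide) (f x).enc.reverse
      (st4 (g x).enc (f x).enc.reverse [] []) rfl
    simp only [upd0, upd1, upd2, upd3, st4_0, st4_1, st4_2, st4_3, List.append_nil,
      List.reverse_reverse, List.length_reverse, enc_length, T.enc, List.tail_cons] at h2 h3 h4
    refine h1.seq (h2.seq (h3.seq (h4.seq ?_)))
    -- the comparison loop
    have key : ∀ (u w c : List Bool), ∃ m, m ≤ u.length ∧ ∃ w' : List Bool, w'.length ≤ w.length ∧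
        RL (.loop 3 Option.isSome body) (st4 w [] c u) (6 * u.length + 1)
          (st4 w' [] (List.replicate m true ++ c) []) ∧ (u = w ↔ m = 0 ∧ w' = []) := by
      intro u
      induction u with
      | nil =>
        intro w c
        refine ⟨0, by simp, w, le_rfl, (RL.loop_stop (by rfl)).mono (by omega), ?_⟩
        simp [eq_comm]
      | cons b u ih =>
        intro w c
        have pops : ∀ c', RL (.seq (.pop 3) (.pop 0)) (st4 w [] c' (b :: u)) 2
            (st4 w.tail [] c' u) := by
          intro c'
          have h5 := RL.pop 3 (st4 w [] c' (b :: u))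
          have h6 := RL.pop 0 (st4 w [] c' u)
          simp only [upd0, upd3, st4_0, st4_3, List.tail_cons] at h5 h6
          exact h5.seq h6
        have pushes : RL (.push 2 true) (st4 w [] c (b :: u)) 1
            (st4 w [] (true :: c) (b :: u)) := by
          have := RL.push 2 true (st4 w [] c (b :: u))
          simpa using this
        by_cases hw : w.head? = some b
        · -- the tops agree
          obtain ⟨w1, rfl⟩ : ∃ w1, w = b :: w1 := by
            cases w with
            | nil => simp at hw
            | cons a w1 => simp at hw; exact ⟨w1, by rw [hw]⟩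
          obtain ⟨m, hm, w', hw', hrun, hiff⟩ := ih w1 c
          refine ⟨m, by simp; omega, w', by simp; omega, ?_, by simpa using hiff⟩
          have hb : RL body (st4 (b :: w1) [] c (b :: u)) (3 + 2) (st4 w1 [] c u) := by
            refine RL.seq ?_ (pops c)
            cases b with
            | false => exact RL.case_false (by rfl) (RL.case_false (by rfl) (RL.skip _))
            | true => exact RL.case_true (by rfl) (RL.case_true (by rfl) (RL.skip _))
          refine (RL.loop_go (by rfl) hb hrun).mono ?_
          simp only [List.length_cons]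
          omega
        · obtain ⟨m, hm, w', hw', hrun, hiff⟩ := ih w.tail (true :: c)
          refine ⟨m + 1, by simp; omega, w', by simp at hw'; omega, ?_, ?_⟩
          · have hb : RL body (st4 w [] c (b :: u)) (3 + 2) (st4 w.tail [] (true :: c) u) := by
              refine RL.seq ?_ (pops (true :: c))
              cases b with
              | false =>
                refine RL.case_false (by rfl) ?_
                cases w with
                | nil => exact RL.case_none (by rfl) pushes
                | cons a w1 =>
                  cases a with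
                  | false => simp at hw
                  | true => exact RL.case_true (by rfl) pushes
              | true =>
                refine RL.case_true (by rfl) ?_
                cases w with
                | nil => exact RL.case_none (by rfl) pushes
                | cons a w1 =>
                  cases a with
                  | true => simp at hw
                  | false => exact RL.case_false (by rfl) pushes
            have e : List.replicate m true ++ true :: c = List.replicate (m + 1) true ++ c := by
              rw [List.replicate_succ', List.append_assoc]; rfl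
            rw [e] at hrun
            refine (RL.loop_go (by rfl) hb hrun).mono ?_
            simp only [List.length_cons]
            omega
          · constructor
            · intro h
              rw [← h] at hw
              simp at hw
            · intro h
              omega
    obtain ⟨m, hm, w', hw', hrun, hiff⟩ := key (f x).enc (g x).enc []
    simp only [enc_length, List.append_nil] at hm hw' hrun
    refine hrun.seq ?_
    -- remaining symbols on stack `0` mean inequality
    have h5 : ∃ m', m' ≤ (f x).size + 1 ∧ ((f x = g x) ↔ m' = 0) ∧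
        RL (.case 0 .skip (.push 2 true) (.push 2 true)) (st4 w' [] (List.replicate m true) [])
          2 (st4 w' [] (List.replicate m' true) []) := by
      have hinj : f x = g x ↔ (f x).enc = (g x).enc := ⟨fun h => by rw [h], fun h => enc_injective h⟩
      have hpush := RL.push 2 true (st4 w' [] (List.replicate m true) [])
      simp only [upd2, st4_2] at hpush
      cases w' with
      | nil =>
        refine ⟨m, by omega, ?_, RL.case_none (by rfl) (RL.skip _)⟩
        rw [hinj, hiff]; simp
      | cons b w' =>
        refine ⟨m + 1, by omega, ?_, ?_⟩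
        · rw [hinj, hiff]; simp
        · cases b with
          | false => exact RL.case_false (by rfl) hpush
          | true => exact RL.case_true (by rfl) hpush
    obtain ⟨m', hm', hiff', h5⟩ := h5
    refine h5.seq ?_
    have h6 := clr_run (a := 0) w' (st4 w' [] (List.replicate m' true) []) rfl
    simp only [upd0] at h6
    refine (h6.mono (by omega)).seq ?_
    beta_reduce
    by_cases hfg : f x = g x
    · rw [if_pos hfg]
      rw [hiff'] at hfg
      subst hfg
      have h7 := RL.push 0 false (st4 [] [] (List.replicate 0 true) [])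
      simp only [upd0, List.replicate_zero, st4_0] at h7
      exact (RL.case_none (by rfl) h7).mono (by omega)
    · rw [if_neg hfg]
      rw [hiff'] at hfg
      obtain ⟨m'', rfl⟩ : ∃ m'', m' = m'' + 1 := ⟨m' - 1, by omega⟩
      have h7 := clr_run (a := 2) (List.replicate (m'' + 1) true)
        (st4 [] [] (List.replicate (m'' + 1) true) []) rfl
      have h8 := RL.push 0 false (st4 [] [] [] [])
      have h9 := RL.push 0 false (st4 [false] [] [] [])
      have h10 := RL.push 0 true (st4 [false, false] [] [] [])
      simp only [upd0, upd2, st4_0, List.length_replicate] at h7 h8 h9 h10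
      refine (RL.case_true (by rfl) (h7.seq (h8.seq (h9.seq h10)))).mono ?_
      omega

end PE

end Pool.Agent.PolyTime
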