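import Mathlib

/-!
# The class NP and satisfiability of formulas in conjunctive normal form
-/

set_option autoImplicit false

open Turing Computability

namespace Pool.Agent.PolyTime

/-- A language is in NP if it has a polynomial-time verifier: there are a polynomial `p` and a
polynomial-time computable predicate `V` such that `x` is in the language iff `V (x, y)` holds for
some certificate `y` of length at most `p |x|`. -/
def InNP (L : Set (List Bool)) : Prop :=
  ∃ (p : Polynomial ℕ) (V : List Bool × List Bool → Bool),
    Nonempty (TM2ComputableInPolyTime
      (encodingProd (encodingList Bool) (encodingList Bool)).encode encodingBoolBool.encode V) ∧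
    ∀ x, x ∈ L ↔ ∃ y : List Bool, y.length ≤ p.eval x.length ∧ V (x, y) = true

/-- A formula in conjunctive normal form: a list of clauses, each a list of literals; a literal is
a variable together with the truth value it requires. -/
abbrev CNF (V : Type*) := List (List (V × Bool))

/-- Satisfiability. -/
def CNF.Sat {V : Type*} (φ : CNF V) : Prop := ∃ a : V → Bool, ∀ c ∈ φ, ∃ l ∈ c, a l.1 = l.2

end Pool.Agent.PolyTime
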