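import Pool.Agent.PolyTimeCL.Micro
import Pool.Agent.PolyTimeCL.NP

/-!
# The Cook-Levin theorem

Every language in NP is reducible in polynomial time to satisfiability of formulas in conjunctive
normal form.
-/

set_option autoImplicit false

open Turing Computability StateTransition

namespace Pool.Agent.PolyTime

namespace PF

variable {α β : Type*} [TEnc α] [TEnc β]

theorem constFlatMap {ι : Type*} (Ls : List ι) {F : ι → α → List β} (h : ∀ i, PF (F i)) :
    PF (fun x => Ls.flatMap (fun i => F i x)) := by
  induction Ls with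
  | nil => exact const []
  | cons i Ls ih => exact (append (h i) ih).congr (fun x => by simp)

theorem constMap {ι : Type*} (Ls : List ι) {F : ι → α → β} (h : ∀ i, PF (F i)) :
    PF (fun x => Ls.map (fun i => F i x)) := by
  induction Ls with
  | nil => exact const []
  | cons i Ls ih => exact (cons (h i) ih).congr (fun x => by simp)

theorem polyEval (P : Polynomial ℕ) {f : α → ℕ} (hf : PF f) : PF (fun x => P.eval (f x)) := by
  induction P using Polynomial.induction_on' with
  | add p q hp hq => exact (hp.add hq).congr (fun x => by simp)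
  | monomial n a =>
    exact ((const a).mul (hf.pow_const n)).congr (fun x => by simp [Polynomial.eval_monomial])

end PF

namespace CL

variable (tm : FinTM2)

/-- Control states of the micro-step machine. -/
abbrev Ctl := Option (TM2.Stmt tm.Γ tm.Λ tm.σ) × tm.σ

/-- The control state of a micro-configuration. -/
def ctl {tm : FinTM2} (c : MC tm) : Ctl tm := (c.s, c.v)

/-- All stacks. -/
noncomputable def Kl : List tm.K := letI := tm.kFin; Finset.univ.toList

theorem mem_Kl (k : tm.K) : k ∈ Kl tm := by
  letI := tm.kFin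
  simp [Kl]

/-- The relevant statements. -/
noncomputable def stms : Finset (Option (TM2.Stmt tm.Γ tm.Λ tm.σ)) :=
  letI := tm.ΛFin
  TM2.stmts tm.m Finset.univ

theorem stms_sub {q q' : TM2.Stmt tm.Γ tm.Λ tm.σ} (h : some q ∈ stms tm)
    (h' : q' ∈ TM2.stmts₁ q) : some q' ∈ stms tm := by
  letI := tm.ΛFin
  exact TM2.stmts_trans h' h

theorem stms_none : none ∈ stms tm := by
  letI := tm.ΛFin
  exact Finset.none_mem_insertNone

theorem stms_m (l : tm.Λ) : some (tm.m l) ∈ stms tm := by
  letI := tm.ΛFin
  classical
  unfold stms TM2.stmts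
  rw [Finset.mem_insertNone]
  intro a ha
  simp only [Option.mem_def, Option.some.injEq] at ha
  subst ha
  exact Finset.mem_biUnion.2 ⟨l, Finset.mem_univ l, TM2.stmts₁_self⟩

/-- The relevant control states. -/
noncomputable def ctls : List (Ctl tm) :=
  letI := tm.σFin
  (stms tm ×ˢ (Finset.univ : Finset tm.σ)).toList

theorem mem_ctls {c : Ctl tm} : c ∈ ctls tm ↔ c.1 ∈ stms tm := by
  letI := tm.σFin
  simp [ctls]

theorem next_mem {c : MC tm} (h : ctl c ∈ ctls tm) : ctl c.next ∈ ctls tm := by
  classical
  rw [mem_ctls] at h ⊢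
  rcases c with ⟨s, v, S⟩
  simp only [ctl, MC.next] at h ⊢
  rcases s with _ | (⟨k, f, q⟩ | ⟨k, f, q⟩ | ⟨k, f, q⟩ | ⟨f, q⟩ | ⟨p, q₁, q₂⟩ | l | _)
  · exact stms_none tm
  · refine stms_sub tm h ?_
    unfold TM2.stmts₁
    exact Finset.mem_insert_of_mem TM2.stmts₁_self
  · refine stms_sub tm h ?_
    unfold TM2.stmts₁
    exact Finset.mem_insert_of_mem TM2.stmts₁_self
  · refine stms_sub tm h ?_
    unfold TM2.stmts₁
    exact Finset.mem_insert_of_mem TM2.stmts₁_self
  · refine stms_sub tm h ?_
    unfold TM2.stmts₁
    exact Finset.mem_insert_of_mem TM2.stmts₁_self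
  · refine stms_sub tm h ?_
    unfold TM2.stmts₁
    cases hp : p v
    · exact Finset.mem_insert_of_mem (Finset.mem_union_right _ TM2.stmts₁_self)
    · exact Finset.mem_insert_of_mem (Finset.mem_union_left _ TM2.stmts₁_self)
  · exact stms_m tm _
  · exact stms_none tm

/-- The symbols that can occur on stack `k`. -/
def symSet (k : tm.K) : Set (tm.Γ k) :=
  {_g | k = tm.k₀} ∪ ⋃ c ∈ {c | c ∈ ctls tm}, {g | ∃ f q, c.1 = some (TM2.Stmt.push k f q) ∧ g = f c.2}

theorem symSet_finite (k : tm.K) : (symSet tm k).Finite := by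
  refine Set.Finite.union ?_ (Set.Finite.biUnion (List.finite_toSet _) fun c _ =>
    Set.Subsingleton.finite ?_)
  · by_cases hk : k = tm.k₀
    · subst hk
      letI := tm.Γk₀Fin
      exact Set.toFinite _
    · have : {_g : tm.Γ k | k = tm.k₀} = ∅ := by ext g; simp [hk]
      rw [this]
      exact Set.finite_empty
  · rintro g ⟨f, q, h1, h2⟩ g' ⟨f', q', h1', h2'⟩
    rw [h1] at h1'
    simp only [Option.some.injEq, TM2.Stmt.push.injEq, heq_eq_eq, true_and] at h1'
    rw [h2, h2', h1'.1]

/-- The possible contents of a cell of stack `k`. -/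
noncomputable def Gl (k : tm.K) : List (Option (tm.Γ k)) :=
  none :: (symSet_finite tm k).toFinset.toList.map some

/-- All symbols on the stacks are among the relevant ones. -/
def SymOK {tm : FinTM2} (c : MC tm) : Prop := ∀ k, ∀ g ∈ c.S k, g ∈ symSet tm k

theorem mem_Gl {c : MC tm} (h : SymOK c) (k : tm.K) (i : ℕ) : (c.S k)[i]? ∈ Gl tm k := by
  unfold Gl
  cases hg : (c.S k)[i]? with
  | none => simp
  | some g =>
    have := h k g (List.mem_of_getElem? hg)
    simp [this]

theorem some_mem_Gl {k : tm.K} {g : tm.Γ k} : some g ∈ Gl tm k ↔ g ∈ symSet tm k := by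
  simp [Gl]

theorem none_mem_Gl {k : tm.K} : none ∈ Gl tm k := by
  simp [Gl]

theorem push_mem {k : tm.K} {f : tm.σ → tm.Γ k} {q : TM2.Stmt tm.Γ tm.Λ tm.σ} {v : tm.σ}
    (h : (some (TM2.Stmt.push k f q), v) ∈ ctls tm) : f v ∈ symSet tm k := by
  refine Or.inr (Set.mem_biUnion (x := (some (TM2.Stmt.push k f q), v)) h ⟨f, q, rfl, rfl⟩)

theorem next_symOK {c : MC tm} (h : ctl c ∈ ctls tm) (hs : SymOK c) : SymOK c.next := by
  rcases c with ⟨s, v, S⟩
  rcases s with _ | (⟨k, f, q⟩ | ⟨k, f, q⟩ | ⟨k, f, q⟩ | ⟨f, q⟩ | ⟨p, q₁, q₂⟩ | l | _)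
  · exact hs
  · intro k' g hg
    simp only [MC.next] at hg
    by_cases hk : k' = k
    · subst hk
      rw [Function.update_self] at hg
      rcases List.mem_cons.1 hg with rfl | hg
      · exact push_mem tm h
      · exact hs k' g hg
    · rw [Function.update_of_ne hk] at hg
      exact hs k' g hg
  · exact hs
  · intro k' g hg
    simp only [MC.next] at hg
    by_cases hk : k' = k
    · subst hk
      rw [Function.update_self] at hg
      exact hs k' g (List.mem_of_mem_tail hg)
    · rw [Function.update_of_ne hk] at hg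
      exact hs k' g hg
  · exact hs
  · exact hs
  · exact hs
  · exact hs

/-! ### The names of the variables -/

open Classical in
/-- The variable saying that the control state at time `t` is `c`. -/
noncomputable def vQ (t : ℕ) (c : Ctl tm) : List ℕ := [0, t, (ctls tm).idxOf c]

open Classical in
/-- The variable saying that cell `i` (counted from the top) of stack `k` at time `t`
contains `g`. -/
noncomputable def vC (t : ℕ) (k : tm.K) (i : ℕ) (g : Option (tm.Γ k)) : List ℕ :=
  [1, t, (Kl tm).idxOf k, i, (Gl tm k).idxOf g]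

theorem vQ_inj {t t' : ℕ} {c c' : Ctl tm} (hc : c ∈ ctls tm)
    (h : vQ tm t c = vQ tm t' c') : t = t' ∧ c = c' := by
  classical
  simp only [vQ, List.cons.injEq, true_and, and_true] at h
  refine ⟨h.1, ?_⟩
  exact (List.idxOf_inj hc).1 h.2

theorem vC_inj {t t' : ℕ} {k k' : tm.K} {i i' : ℕ} {g : Option (tm.Γ k)} {g' : Option (tm.Γ k')}
    (hg : g ∈ Gl tm k) (h : vC tm t k i g = vC tm t' k' i' g') :
    t = t' ∧ i = i' ∧ ∃ hk : k = k', hk ▸ g = g' := by
  classical
  simp only [vC, List.cons.injEq, true_and, and_true] at h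
  have hk := (List.idxOf_inj (mem_Kl tm k)).1 h.2.1
  subst hk
  exact ⟨h.1, h.2.2.1, rfl, (List.idxOf_inj hg).1 h.2.2.2⟩

theorem vQ_ne_vC {t t' : ℕ} {c : Ctl tm} {k : tm.K} {i : ℕ} {g : Option (tm.Γ k)} :
    vQ tm t c ≠ vC tm t' k i g := by
  simp [vQ, vC]

/-! ### The clauses -/

/-- Clauses describing the change of the control state (and of the top cell of a push). -/
noncomputable def ctlClauses (t : ℕ) : Ctl tm → CNF (List ℕ)
  | (none, v) => [[(vQ tm t (none, v), false), (vQ tm (t + 1) (none, v), true)]]
  | (some (.push k f q), v) =>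
      [[(vQ tm t (some (.push k f q), v), false), (vQ tm (t + 1) (some q, v), true)],
        [(vQ tm t (some (.push k f q), v), false), (vC tm (t + 1) k 0 (some (f v)), true)]]
  | (some (.peek k f q), v) => (Gl tm k).map fun g =>
      [(vQ tm t (some (.peek k f q), v), false), (vC tm t k 0 g, false),
        (vQ tm (t + 1) (some q, f v g), true)]
  | (some (.pop k f q), v) => (Gl tm k).map fun g =>
      [(vQ tm t (some (.pop k f q), v), false), (vC tm t k 0 g, false),
        (vQ tm (t + 1) (some q, f v g), true)]
  | (some (.load f q), v) =>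
      [[(vQ tm t (some (.load f q), v), false), (vQ tm (t + 1) (some q, f v), true)]]
  | (some (.branch p q₁ q₂), v) =>
      [[(vQ tm t (some (.branch p q₁ q₂), v), false),
        (vQ tm (t + 1) (some (bif p v then q₁ else q₂), v), true)]]
  | (some (.goto l), v) =>
      [[(vQ tm t (some (.goto l), v), false), (vQ tm (t + 1) (some (tm.m (l v)), v), true)]]
  | (some .halt, v) =>
      [[(vQ tm t (some .halt, v), false), (vQ tm (t + 1) (none, v), true)]]

/-- The cell from which a cell content is copied. -/
def src (s : Option (TM2.Stmt tm.Γ tm.Λ tm.σ)) (k : tm.K) (i : ℕ) : ℕ :=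
  match s with
  | some (.pop k' _ _) => if k' = k then i + 1 else i
  | _ => i

/-- The cell to which a cell content is copied. -/
def dst (s : Option (TM2.Stmt tm.Γ tm.Λ tm.σ)) (k : tm.K) (i : ℕ) : ℕ :=
  match s with
  | some (.push k' _ _) => if k' = k then i + 1 else i
  | _ => i

/-- Copying of the content of a cell. -/
noncomputable def cellClause (c : Ctl tm) (k : tm.K) (g : Option (tm.Γ k)) (t i : ℕ) :
    List (List ℕ × Bool) :=
  [(vQ tm t c, false), (vC tm t k (src tm c.1 k i) g, false),
    (vC tm (t + 1) k (dst tm c.1 k i) g, true)]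

/-- All clauses for copying the content of cells. -/
noncomputable def cellClauses (t i : ℕ) : CNF (List ℕ) :=
  (ctls tm).flatMap fun c => (Kl tm).flatMap fun k => (Gl tm k).map fun g =>
    cellClause tm c k g t i

/-- All clauses for the first `T` steps. -/
noncomputable def transClauses (T : ℕ) : CNF (List ℕ) :=
  (List.range T).flatMap fun t => ((ctls tm).flatMap fun c => ctlClauses tm t c) ++
    (List.range (T - t)).flatMap fun i => cellClauses tm t i

/-- A clause is satisfied by an assignment. -/
def SatC (a : List ℕ → Bool) (c : List (List ℕ × Bool)) : Prop := ∃ l ∈ c, a l.1 = l.2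

/-- The clauses force the assignment to follow the computation. -/
theorem follow {T : ℕ} {a : List ℕ → Bool} (ha : ∀ c ∈ transClauses tm T, SatC a c) (c : ℕ → MC tm)
    (hc : ∀ t, c (t + 1) = (c t).next) (h0 : ctl (c 0) ∈ ctls tm) (h0' : SymOK (c 0))
    (hQ : a (vQ tm 0 (ctl (c 0))) = true)
    (hC : ∀ k, ∀ i ≤ T, a (vC tm 0 k i ((c 0).S k)[i]?) = true) :
    ∀ t ≤ T, (ctl (c t) ∈ ctls tm ∧ SymOK (c t)) ∧ a (vQ tm t (ctl (c t))) = true ∧
      ∀ k, ∀ i ≤ T - t, a (vC tm t k i ((c t).S k)[i]?) = true := by
  intro t
  induction t with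
  | zero => exact fun _ => ⟨⟨h0, h0'⟩, hQ, by simpa using hC⟩
  | succ t ih =>
    intro ht
    obtain ⟨⟨hm, hs⟩, hq, hcell⟩ := ih (by omega)
    refine ⟨⟨by rw [hc]; exact next_mem tm hm, by rw [hc]; exact next_symOK tm hm hs⟩, ?_⟩
    -- the control clauses
    have hctl : ∀ cl ∈ ctlClauses tm t (ctl (c t)), SatC a cl := by
      intro cl hcl
      apply ha
      unfold transClauses
      rw [List.mem_flatMap]
      refine ⟨t, List.mem_range.2 (by omega), List.mem_append_left _ ?_⟩
      rw [List.mem_flatMap]
      exact ⟨_, hm, hcl⟩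
    -- the cell clauses
    have hcl : ∀ k, ∀ i < T - t, a (vC tm t k (src tm (c t).s k i) ((c t).S k)[src tm (c t).s k i]?)
        = true → a (vC tm (t + 1) k (dst tm (c t).s k i) ((c t).S k)[src tm (c t).s k i]?) =
          true := by
      intro k i hi h1
      have h2 : SatC a (cellClause tm (ctl (c t)) k ((c t).S k)[src tm (c t).s k i]? t i) := by
        apply ha
        unfold transClauses
        rw [List.mem_flatMap]
        refine ⟨t, List.mem_range.2 (by omega), List.mem_append_right _ ?_⟩
        rw [List.mem_flatMap]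
        refine ⟨i, List.mem_range.2 hi, ?_⟩
        unfold cellClauses
        rw [List.mem_flatMap]
        refine ⟨_, hm, ?_⟩
        rw [List.mem_flatMap]
        refine ⟨k, mem_Kl tm k, ?_⟩
        rw [List.mem_map]
        exact ⟨_, mem_Gl tm hs k _, rfl⟩
      obtain ⟨l, hl, h3⟩ := h2
      simp only [cellClause, List.mem_cons, List.not_mem_nil, or_false] at hl
      rcases hl with rfl | rfl | rfl
      · simp only at h3
        rw [hq] at h3
        exact absurd h3 (by simp)
      · simp only [ctl] at h3
        rw [h1] at h3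
        exact absurd h3 (by simp)
      · exact h3
    rw [hc]
    have hT : T - (t + 1) < T - t := by omega
    have htop : ∀ k, a (vC tm t k 0 ((c t).S k)[0]?) = true := fun k => hcell k 0 (by omega)
    generalize hct : c t = ct at *
    rcases ct with ⟨s, v, S⟩
    rcases s with _ | (⟨k0, f, q⟩ | ⟨k0, f, q⟩ | ⟨k0, f, q⟩ | ⟨f, q⟩ | ⟨p, q₁, q₂⟩ | l | _)
    · -- halted
      constructor
      · obtain ⟨l, hl, h3⟩ := hctl _ (List.mem_singleton.2 rfl)
        simp only [List.mem_cons, List.not_mem_nil, or_false] at hl
        rcases hl with rfl | rfl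
        · rw [show vQ tm t (none, v) = vQ tm t (ctl (⟨none, v, S⟩ : MC tm)) from rfl, hq] at h3
          exact absurd h3 (by simp)
        · exact h3
      · intro k i hi
        exact hcl k i (by omega) (hcell k i (by omega))
    · -- push
      constructor
      · obtain ⟨l, hl, h3⟩ := hctl _ (List.mem_cons_self)
        simp only [List.mem_cons, List.not_mem_nil, or_false] at hl
        rcases hl with rfl | rfl
        · simp only at h3
          rw [show vQ tm t (some (TM2.Stmt.push k0 f q), v) =
            vQ tm t (ctl (⟨some (.push k0 f q), v, S⟩ : MC tm)) from rfl, hq] at h3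
          exact absurd h3 (by simp)
        · exact h3
      · intro k i hi
        simp only [MC.next]
        by_cases hk : k = k0
        · subst hk
          rw [Function.update_self]
          rcases i with _ | i
          · obtain ⟨l, hl, h3⟩ := hctl _ (List.mem_cons_of_mem _ (List.mem_cons_self))
            simp only [List.mem_cons, List.not_mem_nil, or_false] at hl
            rcases hl with rfl | rfl
            · simp only at h3
              rw [show vQ tm t (some (TM2.Stmt.push k f q), v) =
                vQ tm t (ctl (⟨some (.push k f q), v, S⟩ : MC tm)) from rfl, hq] at h3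
              exact absurd h3 (by simp)
            · exact h3
          · have h5 := hcl k i (by omega)
            simp only [src, dst, if_true] at h5
            rw [List.getElem?_cons_succ]
            exact h5 (hcell k i (by omega))
        · rw [Function.update_of_ne hk]
          have h5 := hcl k i (by omega)
          simp only [src, dst, Ne.symm hk, if_false] at h5
          exact h5 (hcell k i (by omega))
    · -- peek
      constructor
      · obtain ⟨l, hl, h3⟩ := hctl _ (List.mem_map.2 ⟨_, mem_Gl tm hs k0 0, rfl⟩)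
        simp only [List.mem_cons, List.not_mem_nil, or_false] at hl
        rcases hl with rfl | rfl | rfl
        · simp only at h3
          rw [show vQ tm t (some (TM2.Stmt.peek k0 f q), v) =
            vQ tm t (ctl (⟨some (.peek k0 f q), v, S⟩ : MC tm)) from rfl, hq] at h3
          exact absurd h3 (by simp)
        · simp only at h3
          rw [htop] at h3
          exact absurd h3 (by simp)
        · simp only [MC.next, ctl, List.head?_eq_getElem?]
          exact h3
      · intro k i hi
        exact hcl k i (by omega) (hcell k i (by omega))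
    · -- pop
      constructor
      · obtain ⟨l, hl, h3⟩ := hctl _ (List.mem_map.2 ⟨_, mem_Gl tm hs k0 0, rfl⟩)
        simp only [List.mem_cons, List.not_mem_nil, or_false] at hl
        rcases hl with rfl | rfl | rfl
        · simp only at h3
          rw [show vQ tm t (some (TM2.Stmt.pop k0 f q), v) =
            vQ tm t (ctl (⟨some (.pop k0 f q), v, S⟩ : MC tm)) from rfl, hq] at h3
          exact absurd h3 (by simp)
        · simp only at h3
          rw [htop] at h3
          exact absurd h3 (by simp)
        · simp only [MC.next, ctl, List.head?_eq_getElem?]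
          exact h3
      · intro k i hi
        simp only [MC.next]
        by_cases hk : k = k0
        · subst hk
          rw [Function.update_self]
          have h5 := hcl k i (by omega)
          simp only [src, dst, if_true] at h5
          rw [List.getElem?_tail]
          exact h5 (hcell k (i + 1) (by omega))
        · rw [Function.update_of_ne hk]
          have h5 := hcl k i (by omega)
          simp only [src, dst, Ne.symm hk, if_false] at h5
          exact h5 (hcell k i (by omega))
    · -- load
      constructor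
      · obtain ⟨l, hl, h3⟩ := hctl _ (List.mem_singleton.2 rfl)
        simp only [List.mem_cons, List.not_mem_nil, or_false] at hl
        rcases hl with rfl | rfl
        · simp only at h3
          rw [show vQ tm t (some (TM2.Stmt.load f q), v) =
            vQ tm t (ctl (⟨some (.load f q), v, S⟩ : MC tm)) from rfl, hq] at h3
          exact absurd h3 (by simp)
        · exact h3
      · intro k i hi
        exact hcl k i (by omega) (hcell k i (by omega))
    · -- branch
      constructor
      · obtain ⟨l, hl, h3⟩ := hctl _ (List.mem_singleton.2 rfl)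
        simp only [List.mem_cons, List.not_mem_nil, or_false] at hl
        rcases hl with rfl | rfl
        · simp only at h3
          rw [show vQ tm t (some (TM2.Stmt.branch p q₁ q₂), v) =
            vQ tm t (ctl (⟨some (.branch p q₁ q₂), v, S⟩ : MC tm)) from rfl, hq] at h3
          exact absurd h3 (by simp)
        · exact h3
      · intro k i hi
        exact hcl k i (by omega) (hcell k i (by omega))
    · -- goto
      constructor
      · obtain ⟨l', hl, h3⟩ := hctl _ (List.mem_singleton.2 rfl)
        simp only [List.mem_cons, List.not_mem_nil, or_false] at hl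
        rcases hl with rfl | rfl
        · simp only at h3
          rw [show vQ tm t (some (TM2.Stmt.goto l), v) =
            vQ tm t (ctl (⟨some (.goto l), v, S⟩ : MC tm)) from rfl, hq] at h3
          exact absurd h3 (by simp)
        · exact h3
      · intro k i hi
        exact hcl k i (by omega) (hcell k i (by omega))
    · -- halt
      constructor
      · obtain ⟨l, hl, h3⟩ := hctl _ (List.mem_singleton.2 rfl)
        simp only [List.mem_cons, List.not_mem_nil, or_false] at hl
        rcases hl with rfl | rfl
        · simp only at h3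
          rw [show vQ tm t (some (TM2.Stmt.halt), v) =
            vQ tm t (ctl (⟨some .halt, v, S⟩ : MC tm)) from rfl, hq] at h3
          exact absurd h3 (by simp)
        · exact h3
      · intro k i hi
        exact hcl k i (by omega) (hcell k i (by omega))

/-! ### The assignment given by a computation -/

open Classical in
/-- The assignment that describes a given sequence of micro-configurations. -/
noncomputable def val (c : ℕ → MC tm) (v : List ℕ) : Bool :=
  decide ((∃ t, v = vQ tm t (ctl (c t))) ∨ ∃ t k i, v = vC tm t k i ((c t).S k)[i]?)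

theorem val_vQ {c : ℕ → MC tm} (hc : ∀ t, ctl (c t) ∈ ctls tm) {t : ℕ} {d : Ctl tm} :
    val tm c (vQ tm t d) = true ↔ d = ctl (c t) := by
  classical
  unfold val
  rw [decide_eq_true_iff]
  constructor
  · rintro (⟨t', h⟩ | ⟨t', k, i, h⟩)
    · obtain ⟨h1, h2⟩ := vQ_inj tm (hc t') h.symm
      rw [← h2, h1]
    · exact absurd h (vQ_ne_vC tm)
  · intro h
    exact Or.inl ⟨t, by rw [h]⟩

theorem val_vC {c : ℕ → MC tm} (hc : ∀ t, SymOK (c t)) {t : ℕ} {k : tm.K} {i : ℕ}
    {g : Option (tm.Γ k)} :
    val tm c (vC tm t k i g) = true ↔ g = ((c t).S k)[i]? := by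
  classical
  unfold val
  rw [decide_eq_true_iff]
  constructor
  · rintro (⟨t', h⟩ | ⟨t', k', i', h⟩)
    · exact absurd h.symm (vQ_ne_vC tm)
    · obtain ⟨h1, h2, h3, h4⟩ := vC_inj tm (mem_Gl tm (hc t') k' i') h.symm
      subst h1 h2 h3
      exact h4.symm
  · intro h
    exact Or.inr ⟨t, k, i, by rw [h]⟩

theorem sat2 {a : List ℕ → Bool} {u v : List ℕ} (h : a u = true → a v = true) :
    SatC a [(u, false), (v, true)] := by
  cases hu : a u with
  | false => exact ⟨(u, false), by simp, hu⟩
  | true => exact ⟨(v, true), by simp, h hu⟩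

theorem sat3 {a : List ℕ → Bool} {u v w : List ℕ} (h : a u = true → a v = true → a w = true) :
    SatC a [(u, false), (v, false), (w, true)] := by
  cases hu : a u with
  | false => exact ⟨(u, false), by simp, hu⟩
  | true =>
    cases hv : a v with
    | false => exact ⟨(v, false), by simp, hv⟩
    | true => exact ⟨(w, true), by simp, h hu hv⟩

theorem next_cell (c : MC tm) (k : tm.K) (i : ℕ) :
    (c.next.S k)[dst tm c.s k i]? = (c.S k)[src tm c.s k i]? := by
  rcases c with ⟨s, v, S⟩
  rcases s with _ | (⟨k0, f, q⟩ | ⟨k0, f, q⟩ | ⟨k0, f, q⟩ | ⟨f, q⟩ | ⟨p, q₁, q₂⟩ | l | _) <;>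
    try rfl
  · simp only [MC.next, src, dst]
    by_cases hk : k0 = k
    · subst hk
      simp
    · simp only [hk, if_false]
      rw [Function.update_of_ne (Ne.symm hk)]
  · simp only [MC.next, src, dst]
    by_cases hk : k0 = k
    · subst hk
      simp
    · simp only [hk, if_false]
      rw [Function.update_of_ne (Ne.symm hk)]

theorem run_ctl {c : ℕ → MC tm} (hc : ∀ t, c (t + 1) = (c t).next)
    (hm : ∀ t, ctl (c t) ∈ ctls tm) (hs : ∀ t, SymOK (c t)) (t : ℕ) (d : Ctl tm) :
    ∀ cl ∈ ctlClauses tm t d, SatC (val tm c) cl := by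
  intro cl hcl
  have hct := hc t
  rcases d with ⟨s, v⟩
  rcases s with _ | (⟨k0, f, q⟩ | ⟨k0, f, q⟩ | ⟨k0, f, q⟩ | ⟨f, q⟩ | ⟨p, q₁, q₂⟩ | l | _)
  · simp only [ctlClauses, List.mem_singleton] at hcl
    subst hcl
    refine sat2 fun h => ?_
    rw [val_vQ tm hm] at h ⊢
    rw [hct]
    generalize c t = ct at *
    rcases ct with ⟨s', v', S'⟩
    simp only [ctl, Prod.mk.injEq] at h
    obtain ⟨rfl, rfl⟩ := h
    rfl
  · simp only [ctlClauses, List.mem_cons, List.not_mem_nil, or_false] at hcl
    rcases hcl with rfl | rfl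
    · refine sat2 fun h => ?_
      rw [val_vQ tm hm] at h ⊢
      rw [hct]
      generalize c t = ct at *
      rcases ct with ⟨s', v', S'⟩
      simp only [ctl, Prod.mk.injEq] at h
      obtain ⟨rfl, rfl⟩ := h
      rfl
    · refine sat2 fun h => ?_
      rw [val_vQ tm hm] at h
      rw [val_vC tm hs, hct]
      generalize c t = ct at *
      rcases ct with ⟨s', v', S'⟩
      simp only [ctl, Prod.mk.injEq] at h
      obtain ⟨rfl, rfl⟩ := h
      simp [MC.next]
  · simp only [ctlClauses, List.mem_map] at hcl
    obtain ⟨g, hg, rfl⟩ := hcl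
    refine sat3 fun h h' => ?_
    rw [val_vQ tm hm] at h ⊢
    rw [val_vC tm hs] at h'
    rw [hct]
    generalize c t = ct at *
    rcases ct with ⟨s', v', S'⟩
    simp only [ctl, Prod.mk.injEq] at h
    obtain ⟨rfl, rfl⟩ := h
    subst h'
    simp only [MC.next, ctl, List.head?_eq_getElem?]
  · simp only [ctlClauses, List.mem_map] at hcl
    obtain ⟨g, hg, rfl⟩ := hcl
    refine sat3 fun h h' => ?_
    rw [val_vQ tm hm] at h ⊢
    rw [val_vC tm hs] at h'
    rw [hct]
    generalize c t = ct at *
    rcases ct with ⟨s', v', S'⟩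
    simp only [ctl, Prod.mk.injEq] at h
    obtain ⟨rfl, rfl⟩ := h
    subst h'
    simp only [MC.next, ctl, List.head?_eq_getElem?]
  · simp only [ctlClauses, List.mem_singleton] at hcl
    subst hcl
    refine sat2 fun h => ?_
    rw [val_vQ tm hm] at h ⊢
    rw [hct]
    generalize c t = ct at *
    rcases ct with ⟨s', v', S'⟩
    simp only [ctl, Prod.mk.injEq] at h
    obtain ⟨rfl, rfl⟩ := h
    rfl
  · simp only [ctlClauses, List.mem_singleton] at hcl
    subst hcl
    refine sat2 fun h => ?_
    rw [val_vQ tm hm] at h ⊢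
    rw [hct]
    generalize c t = ct at *
    rcases ct with ⟨s', v', S'⟩
    simp only [ctl, Prod.mk.injEq] at h
    obtain ⟨rfl, rfl⟩ := h
    rfl
  · simp only [ctlClauses, List.mem_singleton] at hcl
    subst hcl
    refine sat2 fun h => ?_
    rw [val_vQ tm hm] at h ⊢
    rw [hct]
    generalize c t = ct at *
    rcases ct with ⟨s', v', S'⟩
    simp only [ctl, Prod.mk.injEq] at h
    obtain ⟨rfl, rfl⟩ := h
    rfl
  · simp only [ctlClauses, List.mem_singleton] at hcl
    subst hcl
    refine sat2 fun h => ?_
    rw [val_vQ tm hm] at h ⊢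
    rw [hct]
    generalize c t = ct at *
    rcases ct with ⟨s', v', S'⟩
    simp only [ctl, Prod.mk.injEq] at h
    obtain ⟨rfl, rfl⟩ := h
    rfl

theorem run_trans {c : ℕ → MC tm} (hc : ∀ t, c (t + 1) = (c t).next)
    (hm : ∀ t, ctl (c t) ∈ ctls tm) (hs : ∀ t, SymOK (c t)) (T : ℕ) :
    ∀ cl ∈ transClauses tm T, SatC (val tm c) cl := by
  intro cl hcl
  unfold transClauses at hcl
  rw [List.mem_flatMap] at hcl
  obtain ⟨t, _, hcl⟩ := hcl
  rcases List.mem_append.1 hcl with hcl | hcl
  · rw [List.mem_flatMap] at hcl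
    obtain ⟨d, _, hcl⟩ := hcl
    exact run_ctl tm hc hm hs t d cl hcl
  · rw [List.mem_flatMap] at hcl
    obtain ⟨i, _, hcl⟩ := hcl
    unfold cellClauses at hcl
    rw [List.mem_flatMap] at hcl
    obtain ⟨d, _, hcl⟩ := hcl
    rw [List.mem_flatMap] at hcl
    obtain ⟨k, _, hcl⟩ := hcl
    rw [List.mem_map] at hcl
    obtain ⟨g, _, rfl⟩ := hcl
    refine sat3 fun h h' => ?_
    rw [val_vQ tm hm] at h
    rw [val_vC tm hs] at h' ⊢
    rw [h', hc t, h]
    exact (next_cell tm (c t) k i).symm

/-! ### The initial configuration -/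

/-- The clauses for cell `i` of the input stack. -/
noncomputable def init0 (sym : Bool ⊕ Bool → tm.Γ tm.k₀) (x : List Bool) (P i : ℕ) :
    CNF (List ℕ) :=
  match x[i]? with
  | some b => [[(vC tm 0 tm.k₀ i (some (sym (.inl b))), true)]]
  | none => if i < x.length + P then
      [[(vC tm 0 tm.k₀ i (some (sym (.inr false))), true),
        (vC tm 0 tm.k₀ i (some (sym (.inr true))), true), (vC tm 0 tm.k₀ i none, true)],
       [(vC tm 0 tm.k₀ i none, false), (vC tm 0 tm.k₀ (i + 1) none, true)]]
    else [[(vC tm 0 tm.k₀ i none, true)]]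

/-- The clauses for the initial configuration. -/
noncomputable def initClauses (sym : Bool ⊕ Bool → tm.Γ tm.k₀) (x : List Bool) (P T : ℕ) :
    CNF (List ℕ) :=
  (List.range (T + 1)).flatMap fun i =>
    ((Kl tm).filter (fun k => decide (k ≠ tm.k₀))).map (fun k => [(vC tm 0 k i none, true)]) ++
      init0 tm sym x P i

/-- The whole formula. -/
noncomputable def formula (sym : Bool ⊕ Bool → tm.Γ tm.k₀) (out : Bool → tm.Γ tm.k₁)
    (x : List Bool) (P T : ℕ) : CNF (List ℕ) :=
  [(vQ tm 0 (some (tm.m tm.main), tm.initialState), true)] ::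
    (initClauses tm sym x P T ++ (transClauses tm T ++
      [[(vC tm T tm.k₁ 0 (some (out false)), false)]]))

/-- The input for `x` and a certificate `y`. -/
def inp (sym : Bool ⊕ Bool → tm.Γ tm.k₀) (x y : List Bool) : List (tm.Γ tm.k₀) :=
  (x.map Sum.inl ++ y.map Sum.inr).map sym

theorem init_ctl (s : List (tm.Γ tm.k₀)) :
    ctl (MC.of (initList tm s)) = (some (tm.m tm.main), tm.initialState) := rfl

theorem init_S0 (s : List (tm.Γ tm.k₀)) : (MC.of (initList tm s)).S tm.k₀ = s := by
  simp [MC.of, initList]

theorem init_S (s : List (tm.Γ tm.k₀)) {k : tm.K} (hk : k ≠ tm.k₀) :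
    (MC.of (initList tm s)).S k = [] := by
  simp [MC.of, initList, hk]

theorem init_mem (s : List (tm.Γ tm.k₀)) : ctl (MC.of (initList tm s)) ∈ ctls tm := by
  rw [mem_ctls, init_ctl]
  exact stms_m tm _

theorem init_symOK (s : List (tm.Γ tm.k₀)) : SymOK (MC.of (initList tm s)) := by
  intro k g hg
  by_cases hk : k = tm.k₀
  · exact Or.inl hk
  · rw [init_S tm s hk] at hg
    simp at hg

theorem inp_lt {sym : Bool ⊕ Bool → tm.Γ tm.k₀} {x y : List Bool} {i : ℕ} {b : Bool}
    (h : x[i]? = some b) : (inp tm sym x y)[i]? = some (sym (.inl b)) := by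
  have hi : i < x.length := (List.getElem?_eq_some_iff.1 h).1
  unfold inp
  rw [List.getElem?_map, List.getElem?_append_left (by simpa using hi), List.getElem?_map, h]
  rfl

theorem inp_ge {sym : Bool ⊕ Bool → tm.Γ tm.k₀} {x y : List Bool} {i : ℕ}
    (h : x.length ≤ i) : (inp tm sym x y)[i]? = y[i - x.length]?.map (fun b => sym (.inr b)) := by
  unfold inp
  rw [List.getElem?_map, List.getElem?_append_right (by simpa using h), List.getElem?_map,
    List.length_map]
  cases y[i - x.length]? <;> rfl

/-- A satisfying assignment yields a certificate. -/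
theorem cert_of_sat {sym : Bool ⊕ Bool → tm.Γ tm.k₀} {x : List Bool} {P T : ℕ}
    {a : List ℕ → Bool} (ha : ∀ c ∈ initClauses tm sym x P T, SatC a c) :
    ∃ y : List Bool, y.length ≤ P ∧ ∀ k, ∀ i ≤ T,
      a (vC tm 0 k i ((MC.of (initList tm (inp tm sym x y))).S k)[i]?) = true := by
  classical
  have ha0 : ∀ i ≤ T, ∀ c ∈ init0 tm sym x P i, SatC a c := by
    intro i hi c hc
    apply ha
    unfold initClauses
    rw [List.mem_flatMap]
    exact ⟨i, List.mem_range.2 (by omega), List.mem_append_right _ hc⟩
  have ha1 : ∀ i ≤ T, ∀ k ≠ tm.k₀, a (vC tm 0 k i none) = true := by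
    intro i hi k hk
    have : SatC a [(vC tm 0 k i none, true)] := by
      apply ha
      unfold initClauses
      rw [List.mem_flatMap]
      refine ⟨i, List.mem_range.2 (by omega), List.mem_append_left _ ?_⟩
      rw [List.mem_map]
      exact ⟨k, List.mem_filter.2 ⟨mem_Kl tm k, by simpa using hk⟩, rfl⟩
    obtain ⟨l, hl, h⟩ := this
    simp only [List.mem_singleton] at hl
    subst hl
    exact h
  -- the cells with index between `n` and `n + P`
  have hmid : ∀ i ≤ T, x.length ≤ i → i < x.length + P →
      (a (vC tm 0 tm.k₀ i (some (sym (.inr false)))) = true ∨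
        a (vC tm 0 tm.k₀ i (some (sym (.inr true)))) = true ∨ a (vC tm 0 tm.k₀ i none) = true) ∧
      (a (vC tm 0 tm.k₀ i none) = true → a (vC tm 0 tm.k₀ (i + 1) none) = true) := by
    intro i hi h1 h2
    have h3 := ha0 i hi
    unfold init0 at h3
    rw [List.getElem?_eq_none h1] at h3
    simp only [h2, if_true] at h3
    constructor
    · obtain ⟨l, hl, h⟩ := h3 _ List.mem_cons_self
      simp only [List.mem_cons, List.not_mem_nil, or_false] at hl
      rcases hl with rfl | rfl | rfl
      · exact Or.inl h
      · exact Or.inr (Or.inl h)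
      · exact Or.inr (Or.inr h)
    · intro h4
      obtain ⟨l, hl, h⟩ := h3 _ (List.mem_cons_of_mem _ List.mem_cons_self)
      simp only [List.mem_cons, List.not_mem_nil, or_false] at hl
      rcases hl with rfl | rfl
      · simp only at h
        rw [h4] at h
        exact absurd h (by simp)
      · exact h
  have hhi : ∀ i ≤ T, x.length + P ≤ i → a (vC tm 0 tm.k₀ i none) = true := by
    intro i hi h1
    have h3 := ha0 i hi
    unfold init0 at h3
    rw [List.getElem?_eq_none (by omega)] at h3
    simp only [show ¬ i < x.length + P by omega, if_false] at h3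
    obtain ⟨l, hl, h⟩ := h3 _ List.mem_cons_self
    simp only [List.mem_singleton] at hl
    subst hl
    exact h
  have hlo : ∀ i ≤ T, ∀ b, x[i]? = some b →
      a (vC tm 0 tm.k₀ i (some (sym (.inl b)))) = true := by
    intro i hi b hb
    have h3 := ha0 i hi
    unfold init0 at h3
    rw [hb] at h3
    obtain ⟨l, hl, h⟩ := h3 _ List.mem_cons_self
    simp only [List.mem_singleton] at hl
    subst hl
    exact h
  -- the length of the certificate
  obtain ⟨m, hmP, hm1, hm2⟩ : ∃ m ≤ P,
      (∀ j < m, a (vC tm 0 tm.k₀ (x.length + j) none) = false) ∧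
      (∀ i ≤ T, x.length + m ≤ i → a (vC tm 0 tm.k₀ i none) = true) := by
    by_cases h : ∃ j, j < P ∧ a (vC tm 0 tm.k₀ (x.length + j) none) = true
    · refine ⟨Nat.find h, (Nat.find_spec h).1.le, ?_, ?_⟩
      · intro j hj
        have h1 := Nat.find_min h hj
        have h2 : j < P := hj.trans (Nat.find_spec h).1
        simpa [h2] using h1
      · intro i hi h1
        obtain ⟨d, rfl⟩ : ∃ d, i = x.length + Nat.find h + d := ⟨i - (x.length + Nat.find h), by omega⟩
        clear h1
        induction d with
        | zero => exact (Nat.find_spec h).2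
        | succ d ih =>
          have h2 := ih (by omega)
          by_cases h3 : x.length + Nat.find h + d < x.length + P
          · exact (hmid _ (by omega) (by omega) h3).2 h2
          · exact hhi _ hi (by omega)
    · refine ⟨P, le_rfl, ?_, hhi⟩
      intro j hj
      by_contra h1
      exact h ⟨j, hj, by simpa using h1⟩
  refine ⟨(List.range m).map (fun j => a (vC tm 0 tm.k₀ (x.length + j) (some (sym (.inr true))))),
    by simpa using hmP, ?_⟩
  intro k i hi
  by_cases hk : k = tm.k₀
  · subst hk
    rw [init_S0]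
    by_cases h1 : i < x.length
    · rw [inp_lt tm (List.getElem?_eq_getElem h1)]
      exact hlo i hi _ (List.getElem?_eq_getElem h1)
    · rw [inp_ge tm (by omega)]
      by_cases h2 : i < x.length + m
      · rw [List.getElem?_map, List.getElem?_range (by omega)]
        simp only [Option.map_some]
        have h3 : x.length + (i - x.length) = i := by omega
        rw [h3]
        have h4 := hm1 (i - x.length) (by omega)
        rw [h3] at h4
        cases h5 : a (vC tm 0 tm.k₀ i (some (sym (.inr true)))) with
        | true => exact h5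
        | false =>
          rcases (hmid i hi (by omega) (by omega)).1 with h6 | h6 | h6
          · exact h6
          · rw [h5] at h6; exact absurd h6 (by simp)
          · rw [h4] at h6; exact absurd h6 (by simp)
      · rw [List.getElem?_eq_none (by simp; omega)]
        exact hm2 i hi (by omega)
  · rw [init_S tm _ hk]
    exact ha1 i hi k hk

/-- A certificate yields an assignment satisfying the initial clauses. -/
theorem run_init {sym : Bool ⊕ Bool → tm.Γ tm.k₀} {x y : List Bool} {P T : ℕ}
    (hy : y.length ≤ P) {c : ℕ → MC tm} (h0 : c 0 = MC.of (initList tm (inp tm sym x y)))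
    (hs : ∀ t, SymOK (c t)) :
    ∀ cl ∈ initClauses tm sym x P T, SatC (val tm c) cl := by
  intro cl hcl
  unfold initClauses at hcl
  rw [List.mem_flatMap] at hcl
  obtain ⟨i, _, hcl⟩ := hcl
  rcases List.mem_append.1 hcl with hcl | hcl
  · rw [List.mem_map] at hcl
    obtain ⟨k, hk, rfl⟩ := hcl
    have hk' : k ≠ tm.k₀ := by simpa using (List.mem_filter.1 hk).2
    refine ⟨_, List.mem_cons_self, ?_⟩
    simp only
    rw [val_vC tm hs, h0, init_S tm _ hk']
    rfl
  · unfold init0 at hcl
    cases hx : x[i]? with
    | some b =>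
      rw [hx] at hcl
      simp only [List.mem_singleton] at hcl
      subst hcl
      refine ⟨_, List.mem_cons_self, ?_⟩
      simp only
      rw [val_vC tm hs, h0, init_S0, inp_lt tm hx]
    | none =>
      rw [hx] at hcl
      have hi : x.length ≤ i := List.getElem?_eq_none_iff.1 hx
      simp only at hcl
      split_ifs at hcl with hP
      · simp only [List.mem_cons, List.not_mem_nil, or_false] at hcl
        rcases hcl with rfl | rfl
        · cases hyi : y[i - x.length]? with
          | none =>
            refine ⟨(vC tm 0 tm.k₀ i none, true), by simp, ?_⟩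
            simp only
            rw [val_vC tm hs, h0, init_S0, inp_ge tm hi, hyi]
            rfl
          | some b =>
            refine ⟨(vC tm 0 tm.k₀ i (some (sym (.inr b))), true), by cases b <;> simp, ?_⟩
            simp only
            rw [val_vC tm hs, h0, init_S0, inp_ge tm hi, hyi]
            rfl
        · refine sat2 fun h => ?_
          rw [val_vC tm hs, h0, init_S0, inp_ge tm hi] at h
          rw [val_vC tm hs, h0, init_S0, inp_ge tm (by omega)]
          have h1 : y.length ≤ i - x.length := by
            by_contra h2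
            rw [List.getElem?_eq_getElem (by omega)] at h
            simp at h
          rw [List.getElem?_eq_none (by omega)]
          rfl
      · simp only [List.mem_singleton] at hcl
        subst hcl
        refine ⟨_, List.mem_cons_self, ?_⟩
        simp only
        rw [val_vC tm hs, h0, init_S0, inp_ge tm hi, List.getElem?_eq_none (by omega)]
        rfl

/-- The main property of the formula. -/
theorem formula_sat {sym : Bool ⊕ Bool → tm.Γ tm.k₀} {out : Bool → tm.Γ tm.k₁}
    (hout : Function.Injective out) {V : List Bool → Bool} {x : List Bool} {P T : ℕ}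
    (hrun : ∀ y : List Bool, y.length ≤ P →
      MC.next^[T] (MC.of (initList tm (inp tm sym x y))) = MC.of (haltList tm [out (V y)])) :
    (formula tm sym out x P T).Sat ↔ ∃ y : List Bool, y.length ≤ P ∧ V y = true := by
  have hh : ∀ b, (MC.of (haltList tm [out b])).S tm.k₁ = [out b] := by
    intro b
    simp [MC.of, haltList]
  constructor
  · rintro ⟨a, ha⟩
    have ha1 : SatC a [(vQ tm 0 (some (tm.m tm.main), tm.initialState), true)] :=
      ha _ List.mem_cons_self
    have ha2 : ∀ c ∈ initClauses tm sym x P T, SatC a c := fun c hc =>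
      ha c (List.mem_cons_of_mem _ (List.mem_append_left _ hc))
    have ha3 : ∀ c ∈ transClauses tm T, SatC a c := fun c hc =>
      ha c (List.mem_cons_of_mem _ (List.mem_append_right _ (List.mem_append_left _ hc)))
    have ha4 : SatC a [(vC tm T tm.k₁ 0 (some (out false)), false)] :=
      ha _ (List.mem_cons_of_mem _ (List.mem_append_right _
        (List.mem_append_right _ List.mem_cons_self)))
    obtain ⟨y, hy, hc⟩ := cert_of_sat tm ha2
    refine ⟨y, hy, ?_⟩
    have h0 : a (vQ tm 0 (ctl (MC.of (initList tm (inp tm sym x y))))) = true := by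
      obtain ⟨l, hl, h⟩ := ha1
      simp only [List.mem_singleton] at hl
      subst hl
      exact h
    have hf := follow tm ha3 (fun t => MC.next^[t] (MC.of (initList tm (inp tm sym x y))))
      (fun t => Function.iterate_succ_apply' _ _ _) (init_mem tm _) (init_symOK tm _) h0 hc T le_rfl
    have h1 := hf.2.2 tm.k₁ 0 (by omega)
    rw [hrun y hy, hh] at h1
    cases hV : V y with
    | true => rfl
    | false =>
      rw [hV] at h1
      obtain ⟨l, hl, h⟩ := ha4
      simp only [List.mem_singleton] at hl
      subst hl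
      simp only at h
      rw [List.getElem?_cons_zero] at h1
      rw [h1] at h
      exact absurd h (by simp)
  · rintro ⟨y, hy, hV⟩
    set c : ℕ → MC tm := fun t => MC.next^[t] (MC.of (initList tm (inp tm sym x y))) with hcdef
    have hc : ∀ t, c (t + 1) = (c t).next := fun t => Function.iterate_succ_apply' _ _ _
    have hms : ∀ t, ctl (c t) ∈ ctls tm ∧ SymOK (c t) := by
      intro t
      induction t with
      | zero => exact ⟨init_mem tm _, init_symOK tm _⟩
      | succ t ih =>
        rw [hc]
        exact ⟨next_mem tm ih.1, next_symOK tm ih.1 ih.2⟩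
    have hm := fun t => (hms t).1
    have hs := fun t => (hms t).2
    refine ⟨val tm c, ?_⟩
    intro cl hcl
    rcases List.mem_cons.1 hcl with rfl | hcl
    · refine ⟨_, List.mem_cons_self, ?_⟩
      simp only
      rw [val_vQ tm hm]
      rfl
    rcases List.mem_append.1 hcl with hcl | hcl
    · exact run_init tm hy rfl hs cl hcl
    rcases List.mem_append.1 hcl with hcl | hcl
    · exact run_trans tm hc hm hs T cl hcl
    · simp only [List.mem_singleton] at hcl
      subst hcl
      refine ⟨_, List.mem_cons_self, ?_⟩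
      simp only
      rw [Bool.eq_false_iff]
      intro h
      rw [val_vC tm hs] at h
      have h2 : c T = MC.of (haltList tm [out (V y)]) := hrun y hy
      rw [h2, hh, hV, List.getElem?_cons_zero, Option.some.injEq] at h
      exact absurd (hout h) (by simp)

/-! ### The formula is computable in polynomial time -/

section PF

variable {α : Type*} [TEnc α]

theorem PF_vQ {f : α → ℕ} (hf : PF f) (c : Ctl tm) : PF (fun x => vQ tm (f x) c) :=
  (PF.const 0).cons (hf.cons ((PF.const _).cons (PF.const [])))

theorem PF_vC {f g : α → ℕ} (hf : PF f) (hg : PF g) (k : tm.K) (c : Option (tm.Γ k)) :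
    PF (fun x => vC tm (f x) k (g x) c) :=
  (PF.const 1).cons (hf.cons ((PF.const _).cons (hg.cons ((PF.const _).cons (PF.const [])))))

theorem PF_lit {f : α → List ℕ} (hf : PF f) (b : Bool) : PF (fun x => (f x, b)) :=
  hf.pair (PF.const b)

theorem PF_cl1 {f : α → List ℕ × Bool} (hf : PF f) : PF (fun x => [f x]) :=
  hf.cons (PF.const [])

theorem PF_cl2 {f g : α → List ℕ × Bool} (hf : PF f) (hg : PF g) : PF (fun x => [f x, g x]) :=
  hf.cons (hg.cons (PF.const []))

theorem PF_cl3 {f g h : α → List ℕ × Bool} (hf : PF f) (hg : PF g) (hh : PF h) :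
    PF (fun x => [f x, g x, h x]) :=
  hf.cons (hg.cons (hh.cons (PF.const [])))

theorem PF_ctlClauses {f : α → ℕ} (hf : PF f) (c : Ctl tm) :
    PF (fun x => ctlClauses tm (f x) c) := by
  rcases c with ⟨s, v⟩
  rcases s with _ | (⟨k0, g, q⟩ | ⟨k0, g, q⟩ | ⟨k0, g, q⟩ | ⟨g, q⟩ | ⟨p, q₁, q₂⟩ | l | _)
  · exact (PF_cl2 (PF_lit (PF_vQ tm hf _) _) (PF_lit (PF_vQ tm hf.succ _) _)).cons (PF.const [])
  · exact (PF_cl2 (PF_lit (PF_vQ tm hf _) _) (PF_lit (PF_vQ tm hf.succ _) _)).cons
      ((PF_cl2 (PF_lit (PF_vQ tm hf _) _)
        (PF_lit (PF_vC tm hf.succ (PF.const 0) _ _) _)).cons (PF.const []))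
  · exact PF.constMap _ fun g => PF_cl3 (PF_lit (PF_vQ tm hf _) _)
      (PF_lit (PF_vC tm hf (PF.const 0) _ _) _) (PF_lit (PF_vQ tm hf.succ _) _)
  · exact PF.constMap _ fun g => PF_cl3 (PF_lit (PF_vQ tm hf _) _)
      (PF_lit (PF_vC tm hf (PF.const 0) _ _) _) (PF_lit (PF_vQ tm hf.succ _) _)
  · exact (PF_cl2 (PF_lit (PF_vQ tm hf _) _) (PF_lit (PF_vQ tm hf.succ _) _)).cons (PF.const [])
  · exact (PF_cl2 (PF_lit (PF_vQ tm hf _) _) (PF_lit (PF_vQ tm hf.succ _) _)).cons (PF.const [])
  · exact (PF_cl2 (PF_lit (PF_vQ tm hf _) _) (PF_lit (PF_vQ tm hf.succ _) _)).cons (PF.const [])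
  · exact (PF_cl2 (PF_lit (PF_vQ tm hf _) _) (PF_lit (PF_vQ tm hf.succ _) _)).cons (PF.const [])

theorem PF_src {f : α → ℕ} (hf : PF f) (s : Option (TM2.Stmt tm.Γ tm.Λ tm.σ)) (k : tm.K) :
    PF (fun x => src tm s k (f x)) := by
  unfold src
  split
  · split_ifs
    · exact hf.succ
    · exact hf
  · exact hf

theorem PF_dst {f : α → ℕ} (hf : PF f) (s : Option (TM2.Stmt tm.Γ tm.Λ tm.σ)) (k : tm.K) :
    PF (fun x => dst tm s k (f x)) := by
  unfold dst
  split
  · split_ifs
    · exact hf.succ
    · exact hf
  · exact hf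

theorem PF_cellClauses {f g : α → ℕ} (hf : PF f) (hg : PF g) :
    PF (fun x => cellClauses tm (f x) (g x)) := by
  unfold cellClauses cellClause
  exact PF.constFlatMap _ fun c => PF.constFlatMap _ fun k => PF.constMap _ fun o =>
    PF_cl3 (PF_lit (PF_vQ tm hf _) _) (PF_lit (PF_vC tm hf (PF_src tm hg _ _) _ _) _)
      (PF_lit (PF_vC tm hf.succ (PF_dst tm hg _ _) _ _) _)

theorem PF_transClauses {f : α → ℕ} (hf : PF f) : PF (fun x => transClauses tm (f x)) := by
  unfold transClauses
  refine PF.flatMap (f := fun x t => ((ctls tm).flatMap fun c => ctlClauses tm t c) ++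
    (List.range (f x - t)).flatMap fun i => cellClauses tm t i) ?_ hf.range
  refine PF.append ?_ ?_
  · exact PF.constFlatMap _ fun c => PF_ctlClauses tm PF.snd c
  · refine PF.flatMap (f := fun (p : α × ℕ) i => cellClauses tm p.2 i)
      (l := fun p => List.range (f p.1 - p.2)) ?_ ?_
    · exact PF_cellClauses tm PF.fst.snd' PF.snd
    · exact ((hf.comp PF.fst).sub PF.snd).range

theorem PF_init0 (sym : Bool ⊕ Bool → tm.Γ tm.k₀) {x : α → List Bool} {P i : α → ℕ}
    (hx : PF x) (hP : PF P) (hi : PF i) : PF (fun a => init0 tm sym (x a) (P a) (i a)) := by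
  refine PF.optionCases (o := fun a => (x a)[i a]?)
    (f := fun a => if i a < (x a).length + P a then
      [[(vC tm 0 tm.k₀ (i a) (some (sym (.inr false))), true),
        (vC tm 0 tm.k₀ (i a) (some (sym (.inr true))), true), (vC tm 0 tm.k₀ (i a) none, true)],
       [(vC tm 0 tm.k₀ (i a) none, false), (vC tm 0 tm.k₀ (i a + 1) none, true)]]
      else [[(vC tm 0 tm.k₀ (i a) none, true)]])
    (g := fun a b => [[(vC tm 0 tm.k₀ (i a) (some (sym (.inl b))), true)]])
    (hx.getElem? hi) ?_ ?_ ?_ ?_
  · refine PF.ite (p := fun a => i a < (x a).length + P a) (hi.lt (hx.length.add hP)) ?_ ?_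
    · exact (PF_cl3 (PF_lit (PF_vC tm (PF.const 0) hi _ _) _)
        (PF_lit (PF_vC tm (PF.const 0) hi _ _) _) (PF_lit (PF_vC tm (PF.const 0) hi _ _) _)).cons
        ((PF_cl2 (PF_lit (PF_vC tm (PF.const 0) hi _ _) _)
          (PF_lit (PF_vC tm (PF.const 0) hi.succ _ _) _)).cons (PF.const []))
    · exact (PF_cl1 (PF_lit (PF_vC tm (PF.const 0) hi _ _) _)).cons (PF.const [])
  · exact PF.finite_cases (s := fun p : α × Bool => p.2)
      (f := fun b p => [[(vC tm 0 tm.k₀ (i p.1) (some (sym (.inl b))), true)]]) PF.snd
      fun b => (PF_cl1 (PF_lit (PF_vC tm (PF.const 0) (hi.comp PF.fst) _ _) _)).cons (PF.const [])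
  · intro a h
    unfold init0
    rw [h]
  · intro a b h
    unfold init0
    rw [h]

theorem PF_initClauses (sym : Bool ⊕ Bool → tm.Γ tm.k₀) {x : α → List Bool} {P T : α → ℕ}
    (hx : PF x) (hP : PF P) (hT : PF T) : PF (fun a => initClauses tm sym (x a) (P a) (T a)) := by
  unfold initClauses
  refine PF.flatMap (f := fun a i => ((Kl tm).filter (fun k => decide (k ≠ tm.k₀))).map
      (fun k => [(vC tm 0 k i none, true)]) ++ init0 tm sym (x a) (P a) i)
    (l := fun a => List.range (T a + 1)) ?_ hT.succ.range
  refine PF.append ?_ ?_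
  · exact PF.constMap _ fun k => PF_cl1 (PF_lit (PF_vC tm (PF.const 0) PF.snd _ _) _)
  · exact PF_init0 tm sym (hx.comp PF.fst) (hP.comp PF.fst) PF.snd

theorem PF_formula (sym : Bool ⊕ Bool → tm.Γ tm.k₀) (out : Bool → tm.Γ tm.k₁)
    {x : α → List Bool} {P T : α → ℕ} (hx : PF x) (hP : PF P) (hT : PF T) :
    PF (fun a => formula tm sym out (x a) (P a) (T a)) := by
  unfold formula
  refine PF.cons (PF.const _) (PF.append (PF_initClauses tm sym hx hP hT)
    (PF.append (PF_transClauses tm hT) ?_))
  exact (PF_cl1 (PF_lit (PF_vC tm hT (PF.const 0) _ _) _)).cons (PF.const [])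

end PF

end CL

theorem poly_eval_mono (p : Polynomial ℕ) {m n : ℕ} (h : m ≤ n) : p.eval m ≤ p.eval n := by
  induction p using Polynomial.induction_on' with
  | add p q hp hq => simp only [Polynomial.eval_add]; omega
  | monomial k a =>
    simp only [Polynomial.eval_monomial]
    exact Nat.mul_le_mul_left _ (Nat.pow_le_pow_left h k)

/-- **Cook-Levin theorem**, variables being named by lists of natural numbers. -/
theorem cookLevin {L : Set (List Bool)} (hL : InNP L) :
    ∃ f : List Bool → CNF (List ℕ), PF f ∧ ∀ x, x ∈ L ↔ (f x).Sat := by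
  obtain ⟨p, V, ⟨C⟩, hV⟩ := hL
  set sym : Bool ⊕ Bool → C.tm.Γ C.tm.k₀ := C.inputAlphabet.invFun with hsym
  set out : Bool → C.tm.Γ C.tm.k₁ := C.outputAlphabet.invFun with hout
  refine ⟨fun x => CL.formula C.tm sym out x (p.eval x.length)
    (C.time.eval (x.length + p.eval x.length) * MC.D C.tm), ?_, ?_⟩
  · have hP : PF (fun x : List Bool => p.eval x.length) := PF.polyEval p (PF.length PF.id)
    exact CL.PF_formula C.tm sym out PF.id hP
      ((PF.polyEval C.time ((PF.length PF.id).add hP)).mul (PF.const _))
  · intro x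
    rw [hV]
    symm
    refine CL.formula_sat C.tm (sym := sym) (out := out) (V := fun y => V (x, y))
      C.outputAlphabet.symm.injective ?_
    · intro y hy
      have h := C.outputsFun (x, y)
      have e : List.map C.inputAlphabet.invFun
          ((encodingProd (encodingList Bool) (encodingList Bool)).encode (x, y)) =
          CL.inp C.tm sym x y := rfl
      have e' : List.map C.outputAlphabet.invFun (encodingBoolBool.encode (V (x, y))) =
          [out (V (x, y))] := rfl
      rw [e, e'] at h
      refine MC.next_outputs h _ ?_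
      apply Nat.mul_le_mul_right
      apply poly_eval_mono
      have : ((encodingProd (encodingList Bool) (encodingList Bool)).encode (x, y)).length =
          x.length + y.length := by
        simp [encodingProd, encodingList]
      rw [this]
      omega

end Pool.Agent.PolyTime

namespace Pool.Agent.PolyTime

/-! ### Formulas whose variables are natural numbers -/

/-- The variables of a formula, with repetitions. -/
def CNF.vars {V : Type*} (φ : CNF V) : List V := φ.flatten.map Prod.fst

/-- Rename the variables of a formula by their positions in the list of variables. -/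
def CNF.toNat {V : Type*} [DecidableEq V] (φ : CNF V) : CNF ℕ :=
  φ.map fun c => c.map fun l => (List.idxOf l.1 φ.vars, l.2)

theorem CNF.mem_vars {V : Type*} {φ : CNF V} {c : List (V × Bool)} (hc : c ∈ φ) {l : V × Bool}
    (hl : l ∈ c) : l.1 ∈ φ.vars :=
  List.mem_map.2 ⟨l, List.mem_flatten.2 ⟨c, hc, hl⟩, rfl⟩

theorem CNF.toNat_sat {V : Type*} [DecidableEq V] (φ : CNF V) : φ.toNat.Sat ↔ φ.Sat := by
  constructor
  · rintro ⟨a, ha⟩
    refine ⟨fun v => a (List.idxOf v φ.vars), fun c hc => ?_⟩
    obtain ⟨l, hl, h⟩ := ha _ (List.mem_map.2 ⟨c, hc, rfl⟩)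
    obtain ⟨l', hl', rfl⟩ := List.mem_map.1 hl
    exact ⟨l', hl', h⟩
  · rintro ⟨a, ha⟩
    refine ⟨fun n => (φ.vars[n]?).elim true a, fun c hc => ?_⟩
    obtain ⟨c', hc', rfl⟩ := List.mem_map.1 hc
    obtain ⟨l, hl, h⟩ := ha c' hc'
    refine ⟨_, List.mem_map.2 ⟨l, hl, rfl⟩, ?_⟩
    have h1 := CNF.mem_vars hc' hl
    have h2 : List.idxOf l.1 φ.vars < φ.vars.length := List.idxOf_lt_length_iff.2 h1
    simp only
    rw [List.getElem?_eq_getElem h2, List.getElem_idxOf h2]
    exact h

theorem PF.cnfToNat {α V : Type*} [TEnc α] [TEnc V] [DecidableEq V] {f : α → CNF V} (hf : PF f) :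
    PF (fun x => (f x).toNat) := by
  unfold CNF.toNat CNF.vars
  refine PF.map (f := fun x c => c.map fun l => (List.idxOf l.1 ((f x).flatten.map Prod.fst), l.2))
    ?_ hf
  refine PF.map (f := fun (p : α × List (V × Bool)) l =>
    (List.idxOf l.1 ((f p.1).flatten.map Prod.fst), l.2)) ?_ PF.snd
  refine PF.pair ?_ PF.snd.snd'
  refine PF.idxOf PF.snd.fst' ?_
  refine PF.map (f := fun (_ : (α × List (V × Bool)) × V × Bool) (l : V × Bool) => l.1)
    PF.snd.fst' ?_
  exact (hf.comp (f := fun p : (α × List (V × Bool)) × V × Bool => p.1.1) PF.fst.fst').flatten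

/-- **Cook-Levin theorem**: every language in NP is polynomial-time reducible to satisfiability of
formulas in conjunctive normal form. -/
theorem cookLevin_nat {L : Set (List Bool)} (hL : InNP L) :
    ∃ f : List Bool → CNF ℕ, PF f ∧ ∀ x, x ∈ L ↔ (f x).Sat := by
  obtain ⟨f, hf, h⟩ := cookLevin hL
  exact ⟨fun x => (f x).toNat, hf.cnfToNat, fun x => by rw [h, CNF.toNat_sat]⟩

end Pool.Agent.PolyTime
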