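import Pool.Agent.PolyTimeCL.Typed

/-!
# Polynomial-time functions: arithmetic in unary and lists
-/

set_option autoImplicit false

namespace Pool.Agent.PolyTime

attribute [fun_prop] PF

attribute [fun_prop] PF.id PF.const PF.comp PF.fst' PF.snd' PF.pair PF.cons PF.succ PF.pred
  PF.some PF.cond PF.ite PF.eq PF.not PF.and PF.or PF.inl PF.inr

namespace PF

variable {α β γ δ σ : Type*} [TEnc α] [TEnc β] [TEnc γ] [TEnc δ] [TEnc σ]

/-! #### Natural numbers in unary -/

@[fun_prop]
theorem add {f g : α → ℕ} (hf : PF f) (hg : PF g) : PF (fun x => f x + g x) := by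
  have e : ∀ (m n : ℕ), (fun k => k + 1)^[n] m = m + n := by
    intro m n
    induction n with
    | zero => rfl
    | succ n ih => rw [Function.iterate_succ_apply', ih]; rfl
  refine (iterate (f := fun (_ : α) k => k + 1) (n := g) (i := f) (by fun_prop) hg hf
    (fun x => sz (f x) + sz (g x)) (hf.size_le.add hg.size_le) ?_).congr (fun x => e _ _)
  intro x j hj
  rw [e]
  simp only [sz_nat]
  omega

@[fun_prop]
theorem sub {f g : α → ℕ} (hf : PF f) (hg : PF g) : PF (fun x => f x - g x) := by
  have e : ∀ (m n : ℕ), (fun k => k - 1)^[n] m = m - n := by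
    intro m n
    induction n with
    | zero => rfl
    | succ n ih => rw [Function.iterate_succ_apply', ih]; omega
  refine (iterate (f := fun (_ : α) k => k - 1) (n := g) (i := f) (by fun_prop) hg hf
    (fun x => sz (f x)) hf.size_le ?_).congr (fun x => e _ _)
  intro x j hj
  rw [e]
  simp only [sz_nat]
  omega

@[fun_prop]
theorem mul {f g : α → ℕ} (hf : PF f) (hg : PF g) : PF (fun x => f x * g x) := by
  have e : ∀ (x : α) (n : ℕ), (fun k => k + f x)^[n] 0 = f x * n := by
    intro x n
    induction n with
    | zero => rfl
    | succ n ih => rw [Function.iterate_succ_apply', ih]; ring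
  refine (iterate (f := fun (x : α) k => k + f x) (n := g) (i := fun _ => 0)
    (add snd (hf.comp fst)) hg (const 0)
    (fun x => 2 * (sz (f x) * sz (g x)) + 1)
    (((PB.const 2).mul (hf.size_le.mul hg.size_le)).add (PB.const 1)) ?_).congr (fun x => e _ _)
  intro x j hj
  rw [e]
  simp only [sz_nat]
  have : f x * j ≤ (2 * f x + 1) * (2 * g x + 1) := by
    apply Nat.mul_le_mul <;> omega
  omega

@[fun_prop]
theorem pow_const {f : α → ℕ} (hf : PF f) (k : ℕ) : PF (fun x => f x ^ k) := by
  induction k with
  | zero => exact (const 1).congr (fun x => by simp)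
  | succ k ih => exact (ih.mul hf).congr (fun x => by rw [pow_succ])

@[fun_prop]
theorem le {f g : α → ℕ} (hf : PF f) (hg : PF g) : PF (fun x => decide (f x ≤ g x)) :=
  ((hf.sub hg).eq (const 0)).congr (fun x => by
    rw [decide_eq_decide]; omega)

@[fun_prop]
theorem lt {f g : α → ℕ} (hf : PF f) (hg : PF g) : PF (fun x => decide (f x < g x)) :=
  ((hf.succ).le hg).congr (fun x => by rw [decide_eq_decide]; omega)

theorem decide_and {p q : α → Prop} [DecidablePred p] [DecidablePred q]
    (hp : PF (fun x => decide (p x))) (hq : PF (fun x => decide (q x))) :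
    PF (fun x => decide (p x ∧ q x)) :=
  (hp.and hq).congr (fun x => by simp)

theorem decide_or {p q : α → Prop} [DecidablePred p] [DecidablePred q]
    (hp : PF (fun x => decide (p x))) (hq : PF (fun x => decide (q x))) :
    PF (fun x => decide (p x ∨ q x)) :=
  (hp.or hq).congr (fun x => by simp)

theorem decide_not {p : α → Prop} [DecidablePred p]
    (hp : PF (fun x => decide (p x))) : PF (fun x => decide (¬ p x)) :=
  hp.not.congr (fun x => by simp)

theorem decide_bool {p : α → Bool} (hp : PF p) : PF (fun x => decide (p x = true)) :=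
  hp.congr (fun x => by simp)

/-! #### Lists -/

theorem foldl_cons (l l' : List α) : l.foldl (fun acc a => a :: acc) l' = l.reverse ++ l' := by
  simp

@[fun_prop]
theorem reverse {l : α → List β} (hl : PF l) : PF (fun x => (l x).reverse) := by
  refine (foldl (f := fun (_ : α) (acc : List β) a => a :: acc) (i := fun _ => []) (by fun_prop) hl
    (by fun_prop) (fun x => sz (l x)) hl.size_le ?_).congr (fun x => by rw [foldl_cons]; simp)
  intro x j
  rw [foldl_cons, List.append_nil, sz_reverse]
  exact sz_sublist_le (List.take_sublist _ _)

@[fun_prop]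
theorem append {l l' : α → List β} (hl : PF l) (hl' : PF l') : PF (fun x => l x ++ l' x) := by
  refine (foldl (f := fun (_ : α) (acc : List β) a => a :: acc) (l := fun x => (l x).reverse)
    (i := l') (by fun_prop) hl.reverse hl' (fun x => sz (l x) + sz (l' x))
    (hl.size_le.add hl'.size_le) ?_).congr (fun x => by rw [foldl_cons]; simp)
  intro x j
  rw [foldl_cons]
  have h1 := sz_append (List.take j (l x).reverse).reverse (l' x)
  have h2 : sz (List.take j (l x).reverse).reverse ≤ sz (l x) := by
    rw [sz_reverse, ← sz_reverse (l x)]
    exact sz_sublist_le (List.take_sublist _ _)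
  omega

@[fun_prop]
theorem length {l : α → List β} (hl : PF l) : PF (fun x => (l x).length) := by
  have e : ∀ (l : List β) (n : ℕ), l.foldl (fun n _ => n + 1) n = n + l.length := by
    intro l
    induction l with
    | nil => intro n; rfl
    | cons a l ih => intro n; rw [List.foldl_cons, ih]; simp; omega
  refine (foldl (f := fun (_ : α) (n : ℕ) (_ : β) => n + 1) (i := fun _ => 0) (by fun_prop) hl
    (by fun_prop) (fun x => 2 * sz (l x) + 1)
    (((PB.const 2).mul hl.size_le).add (PB.const 1)) ?_).congr
    (fun x => by rw [e]; simp)
  intro x j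
  rw [e]
  simp only [sz_nat]
  have := length_lt_sz (l x)
  have := List.length_take_le' j (l x)
  omega

/-- The size of a family of values computed from the elements of a list. -/
theorem elem_bound {l : α → List γ} {f : α → γ → β} (hl : PF l)
    (hf : PF (fun p : α × γ => f p.1 p.2)) :
    ∃ B : α → ℕ, PB sz B ∧ ∀ x, ∀ c ∈ l x, sz (f x c) ≤ B x := by
  obtain ⟨k, hk⟩ := hf.size_le
  refine ⟨fun x => (sz x + sz (l x) + 1 + 2) ^ k,
    (((PB.self.add hl.size_le).add (PB.const 1)).add (PB.const 2)).pow k, fun x c hc => ?_⟩
  refine (hk (x, c)).trans (Nat.pow_le_pow_left ?_ k)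
  rw [sz_pair]
  have := sz_le_of_mem hc
  omega

@[fun_prop]
theorem map {l : α → List γ} {f : α → γ → β} (hf : PF (fun p : α × γ => f p.1 p.2)) (hl : PF l) :
    PF (fun x => (l x).map (f x)) := by
  have e : ∀ (x : α) (l : List γ) (l' : List β),
      l.foldl (fun acc c => f x c :: acc) l' = (l.map (f x)).reverse ++ l' := by
    intro x l
    induction l with
    | nil => intro l'; rfl
    | cons a l ih => intro l'; rw [List.foldl_cons, ih]; simp
  obtain ⟨B, hB, hB'⟩ := elem_bound hl hf
  refine (reverse (foldl (f := fun (x : α) (acc : List β) (c : γ) => f x c :: acc)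
    (i := fun _ => []) ?_ hl
    (by fun_prop) (fun x => sz (l x) * (B x + 1) + 1)
    ((hl.size_le.mul (hB.add (PB.const 1))).add (PB.const 1)) ?_)).congr
    (fun x => by rw [e]; simp)
  · exact (comp₂ hf fst snd.snd').cons snd.fst'
  · intro x j
    rw [e, List.append_nil, sz_reverse]
    refine (sz_le_of_forall (c := B x) ?_).trans ?_
    · intro b hb
      obtain ⟨c, hc, rfl⟩ := List.mem_map.1 hb
      exact hB' x c (List.mem_of_mem_take hc)
    · have h1 := length_lt_sz (l x)
      have h2 := List.length_take_le' j (l x)
      have : ((List.take j (l x)).map (f x)).length * (B x + 1) ≤ sz (l x) * (B x + 1) := by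
        apply Nat.mul_le_mul_right
        rw [List.length_map]
        omega
      omega

theorem sz_flatten_le (l : List (List β)) : sz l.flatten ≤ sz l := by
  induction l with
  | nil => simp
  | cons a l ih =>
    rw [List.flatten_cons, sz_cons]
    have := sz_append a l.flatten
    omega

@[fun_prop]
theorem flatten {l : α → List (List β)} (hl : PF l) : PF (fun x => (l x).flatten) := by
  have e : ∀ (l : List (List β)) (l' : List β),
      l.foldl (fun acc c => acc ++ c) l' = l' ++ l.flatten := by
    intro l
    induction l with
    | nil => intro l'; simp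
    | cons a l ih => intro l'; rw [List.foldl_cons, ih]; simp
  refine (foldl (f := fun (_ : α) (acc : List β) (c : List β) => acc ++ c)
    (i := fun _ => []) (by fun_prop) hl
    (by fun_prop) (fun x => sz (l x)) hl.size_le ?_).congr (fun x => by rw [e]; simp)
  intro x j
  rw [e, List.nil_append]
  exact (sz_flatten_le _).trans (sz_sublist_le (List.take_sublist _ _))

@[fun_prop]
theorem flatMap {l : α → List γ} {f : α → γ → List β} (hf : PF (fun p : α × γ => f p.1 p.2))
    (hl : PF l) : PF (fun x => (l x).flatMap (f x)) :=
  (flatten (map hf hl)).congr (fun x => by rw [List.flatMap_def])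

@[fun_prop]
theorem filter {l : α → List γ} {f : α → γ → Bool} (hf : PF (fun p : α × γ => f p.1 p.2))
    (hl : PF l) : PF (fun x => (l x).filter (f x)) := by
  have : PF (fun x => (l x).flatMap (fun c => bif f x c then [c] else [])) :=
    flatMap (f := fun x c => bif f x c then [c] else [])
      (hf.cond (snd.cons (const [])) (const [])) hl
  refine this.congr (fun x => ?_)
  induction l x with
  | nil => rfl
  | cons a t ih =>
    rw [List.flatMap_cons, ih, List.filter_cons]
    cases f x a <;> simp

@[fun_prop]
theorem any {l : α → List γ} {f : α → γ → Bool} (hf : PF (fun p : α × γ => f p.1 p.2))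
    (hl : PF l) : PF (fun x => (l x).any (f x)) := by
  have e : ∀ (x : α) (l : List γ) (b : Bool),
      l.foldl (fun b c => b || f x c) b = (b || l.any (f x)) := by
    intro x l
    induction l with
    | nil => intro b; simp
    | cons a l ih => intro b; rw [List.foldl_cons, ih]; simp [Bool.or_assoc]
  refine (foldl (f := fun (x : α) (b : Bool) (c : γ) => b || f x c) (i := fun _ => false) ?_ hl
    (by fun_prop) (fun x => 3) (PB.const 3) (fun x j => sz_bool_le _)).congr
    (fun x => by rw [e]; simp)
  exact snd.fst'.or (comp₂ hf fst snd.snd')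

@[fun_prop]
theorem all {l : α → List γ} {f : α → γ → Bool} (hf : PF (fun p : α × γ => f p.1 p.2))
    (hl : PF l) : PF (fun x => (l x).all (f x)) :=
  ((any (f := fun x c => !f x c) hf.not hl).not).congr (fun x => by
    induction l x with
    | nil => rfl
    | cons a t ih => simp [← ih])

@[fun_prop]
theorem mem [DecidableEq β] {a : α → β} {l : α → List β} (ha : PF a) (hl : PF l) :
    PF (fun x => decide (a x ∈ l x)) :=
  (any (f := fun x c => decide (a x = c)) ((ha.comp fst).eq snd) hl).congr (fun x => by
    rw [Bool.eq_iff_iff]
    simp)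

@[fun_prop]
theorem range {n : α → ℕ} (hn : PF n) : PF (fun x => List.range (n x)) := by
  have e : ∀ (n : ℕ), (fun l : List ℕ => l ++ [l.length])^[n] [] = List.range n := by
    intro n
    induction n with
    | zero => rfl
    | succ n ih => rw [Function.iterate_succ_apply', ih, List.length_range, List.range_succ]
  refine (iterate (f := fun (_ : α) (l : List ℕ) => l ++ [l.length]) (n := n) (i := fun _ => [])
    (by fun_prop) hn (by fun_prop) (fun x => n x * (2 * n x + 1 + 1) + 1) ?_ ?_).congr
    (fun x => e _)
  · have h1 : PB sz n := hn.size_le.mono (fun x => by rw [sz_nat]; omega)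
    exact (h1.mul ((((PB.const 2).mul h1).add (PB.const 1)).add (PB.const 1))).add (PB.const 1)
  · intro x j hj
    rw [e]
    refine (sz_le_of_forall (c := 2 * n x + 1) ?_).trans ?_
    · intro i hi
      rw [List.mem_range] at hi
      rw [sz_nat]
      omega
    · rw [List.length_range]
      have := Nat.mul_le_mul_right (2 * n x + 1 + 1) hj
      omega

@[fun_prop]
theorem replicate {n : α → ℕ} {a : α → β} (hn : PF n) (ha : PF a) :
    PF (fun x => List.replicate (n x) (a x)) :=
  (map (f := fun x (_ : ℕ) => a x) (ha.comp fst) hn.range).congr (fun x => by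
    rw [List.map_const', List.length_range])

@[fun_prop]
theorem tail {l : α → List β} (hl : PF l) : PF (fun x => (l x).tail) :=
  listCases (f := fun _ => []) (g := fun _ _ t => t) hl (by fun_prop) (by fun_prop)
    (fun a h => by rw [h]; rfl) (fun a b t h => by rw [h]; rfl)

@[fun_prop]
theorem head? {l : α → List β} (hl : PF l) : PF (fun x => (l x).head?) :=
  listCases (f := fun _ => none) (g := fun _ b _ => Option.some b) hl (by fun_prop) (by fun_prop)
    (fun a h => by rw [h]; rfl) (fun a b t h => by rw [h]; rfl)

@[fun_prop]
theorem drop {l : α → List β} {n : α → ℕ} (hn : PF n) (hl : PF l) :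
    PF (fun x => (l x).drop (n x)) := by
  have e : ∀ (l : List β) (n : ℕ), (fun l : List β => l.tail)^[n] l = l.drop n := by
    intro l n
    induction n with
    | zero => rfl
    | succ n ih => rw [Function.iterate_succ_apply', ih, List.tail_drop]
  refine (iterate (f := fun (_ : α) (l : List β) => l.tail) (n := n) (i := l)
    (by fun_prop) hn hl (fun x => sz (l x)) hl.size_le ?_).congr (fun x => e _ _)
  intro x j _
  rw [e]
  exact sz_sublist_le (List.drop_sublist _ _)

@[fun_prop]
theorem getElem? {l : α → List β} {n : α → ℕ} (hl : PF l) (hn : PF n) :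
    PF (fun x => (l x)[n x]?) :=
  (head? (drop hn hl)).congr (fun x => by rw [List.head?_drop])

@[fun_prop]
theorem optionGetD {o : α → Option β} {d : α → β} (ho : PF o) (hd : PF d) :
    PF (fun x => (o x).getD (d x)) :=
  optionCases (f := d) (g := fun _ b => b) ho hd (by fun_prop)
    (fun a h => by rw [h]; rfl) (fun a b h => by rw [h]; rfl)

theorem dedup_eq_foldr [DecidableEq β] (l : List β) :
    l.dedup = l.foldr (fun a acc => if a ∈ acc then acc else a :: acc) [] := by
  induction l with
  | nil => rfl
  | cons a l ih =>
    rw [List.foldr_cons, ← ih]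
    by_cases h : a ∈ l
    · rw [List.dedup_cons_of_mem h, if_pos (List.mem_dedup.2 h)]
    · rw [List.dedup_cons_of_notMem h, if_neg (fun h' => h (List.mem_dedup.1 h'))]

@[fun_prop]
theorem dedup [DecidableEq β] {l : α → List β} (hl : PF l) : PF (fun x => (l x).dedup) := by
  have e : ∀ (l : List β), l.reverse.foldl (fun acc a => if a ∈ acc then acc else a :: acc) [] =
      l.dedup := by
    intro l
    rw [dedup_eq_foldr, List.foldl_reverse]
  refine (foldl (f := fun (_ : α) (acc : List β) (a : β) => if a ∈ acc then acc else a :: acc)
    (l := fun x => (l x).reverse)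
    (i := fun _ => []) ?_ hl.reverse (by fun_prop) (fun x => sz (l x)) hl.size_le ?_).congr
    (fun x => e _)
  · exact ite (p := fun p : α × List β × β => p.2.2 ∈ p.2.1) (by fun_prop) (by fun_prop)
      (by fun_prop)
  · intro x j
    have h1 : List.take j (l x).reverse = (List.drop ((l x).length - j) (l x)).reverse := by
      rw [List.take_reverse]
    rw [h1, e]
    refine (sz_sublist_le (List.dedup_sublist _)).trans (sz_sublist_le (List.drop_sublist _ _))

@[fun_prop]
theorem idxOf [DecidableEq β] {a : α → β} {l : α → List β} (ha : PF a) (hl : PF l) :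
    PF (fun x => List.idxOf (a x) (l x)) := by
  have e : ∀ (a : β) (l : List β) (n : ℕ) (f : Bool),
      l.foldl (fun s b => if s.1 = true then s else if b = a then (true, s.2) else (false, s.2 + 1))
        (f, n) = (if f = true then (f, n) else (decide (a ∈ l), n + List.idxOf a l)) := by
    intro a l
    induction l with
    | nil => intro n f; cases f <;> simp
    | cons b l ih =>
      intro n f
      rw [List.foldl_cons]
      cases f with
      | true => simp only [if_true, ih]
      | false =>
        simp only [Bool.false_eq_true, if_false]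
        by_cases hb : b = a
        · subst hb
          simp only [if_true, ih]
          simp
        · simp only [hb, if_false, ih, Bool.false_eq_true]
          rw [List.idxOf_cons_ne _ hb]
          simp only [List.mem_cons, Ne.symm hb, false_or, Prod.mk.injEq, true_and]
          omega
  refine (snd' (foldl (f := fun (x : α) (s : Bool × ℕ) (b : β) => if s.1 = true then s else
    if b = a x then (true, s.2) else (false, s.2 + 1)) (i := fun _ => (false, 0)) ?_ hl
    (by fun_prop) (fun x => 3 + (2 * sz (l x) + 1) + 1)
    (((PB.const 3).add (((PB.const 2).mul hl.size_le).add (PB.const 1))).add (PB.const 1))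
      ?_)).congr (fun x => by rw [e]; simp)
  · refine ite (p := fun p : α × (Bool × ℕ) × β => p.2.1.1 = true) ?_ (by fun_prop) ?_
    · exact decide_bool (by fun_prop)
    · refine ite (p := fun p : α × (Bool × ℕ) × β => p.2.2 = a p.1) ?_ (by fun_prop)
        (by fun_prop)
      exact eq (by fun_prop) (ha.comp fst)
  · intro x j
    rw [e]
    simp only [Bool.false_eq_true, if_false, sz_pair, zero_add]
    have h1 := sz_bool_le (decide (a x ∈ List.take j (l x)))
    have h2 : List.idxOf (a x) (List.take j (l x)) ≤ (List.take j (l x)).length :=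
      List.idxOf_le_length
    have h3 := List.length_take_le' j (l x)
    have h4 := length_lt_sz (l x)
    rw [sz_nat]
    omega

end PF

end Pool.Agent.PolyTime
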