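import Pool.Agent.PolyTimeCL.Lists

/-!
# From polynomial-time functions on codes to Mathlib's `TM2ComputableInPolyTime`
-/

set_option autoImplicit false

open Turing

namespace Pool.Agent.PolyTime

open T

/-- Convert a raw bit string on stack `0` into the code of the corresponding tree. -/
def rawIn : Prog :=
  .seq (mv 0 1) (.seq (.push 0 false) (.loop 1 Option.isSome
    (.case 1 .skip
      (.seq (.pop 1) (.seq (.push 0 false) (.push 0 true)))
      (.seq (.pop 1) (.seq (.push 0 false) (.seq (.push 0 false)
        (.seq (.push 0 true) (.push 0 true))))))))

theorem rawIn_run (x : List Bool) :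
    RL rawIn (single x) (11 * x.length + 3) (single (enc x).enc) := by
  have key : ∀ (u v : List Bool), RL (.loop 1 Option.isSome
    (.case 1 .skip
      (.seq (.pop 1) (.seq (.push 0 false) (.push 0 true)))
      (.seq (.pop 1) (.seq (.push 0 false) (.seq (.push 0 false)
        (.seq (.push 0 true) (.push 0 true))))))) (st4 (enc v).enc u [] []) (7 * u.length + 1)
      (st4 (enc (u.reverse ++ v)).enc [] [] []) := by
    intro u
    induction u with
    | nil => intro v; exact RL.loop_stop (by rfl)
    | cons b u ih =>
      intro v
      have h := ih (b :: v)
      have hp := RL.pop 1 (st4 (enc v).enc (b :: u) [] [])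
      simp only [upd1, st4_1, List.tail_cons] at hp
      cases b with
      | false =>
        have h1 := RL.push 0 false (st4 (enc v).enc u [] [])
        have h2 := RL.push 0 true (st4 (false :: (enc v).enc) u [] [])
        simp only [upd0, st4_0] at h1 h2
        have h3 : RL (.case 1 .skip
          (.seq (.pop 1) (.seq (.push 0 false) (.push 0 true)))
          (.seq (.pop 1) (.seq (.push 0 false) (.seq (.push 0 false)
            (.seq (.push 0 true) (.push 0 true)))))) (st4 (enc v).enc (false :: u) [] []) (1 + (1 + 1) + 1)
            (st4 (enc (false :: v)).enc u [] []) := RL.case_false (by rfl) (hp.seq (h1.seq h2))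
        have h4 := RL.loop_go (c := Option.isSome) (by rfl) h3 h
        rw [List.reverse_cons, List.append_assoc]
        exact h4.mono (by simp only [List.length_cons]; omega)
      | true =>
        have h1 := RL.push 0 false (st4 (enc v).enc u [] [])
        have h2 := RL.push 0 false (st4 (false :: (enc v).enc) u [] [])
        have h3 := RL.push 0 true (st4 (false :: false :: (enc v).enc) u [] [])
        have h4 := RL.push 0 true (st4 (true :: false :: false :: (enc v).enc) u [] [])
        simp only [upd0, st4_0] at h1 h2 h3 h4
        have h5 : RL (.case 1 .skip
          (.seq (.pop 1) (.seq (.push 0 false) (.push 0 true)))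
          (.seq (.pop 1) (.seq (.push 0 false) (.seq (.push 0 false)
            (.seq (.push 0 true) (.push 0 true)))))) (st4 (enc v).enc (true :: u) [] [])
            (1 + (1 + (1 + (1 + 1))) + 1)
            (st4 (enc (true :: v)).enc u [] []) :=
              RL.case_true (by rfl) (hp.seq (h1.seq (h2.seq (h3.seq h4))))
        have h6 := RL.loop_go (c := Option.isSome) (by rfl) h5 h
        rw [List.reverse_cons, List.append_assoc]
        exact h6.mono (by simp only [List.length_cons]; omega)
  rw [single_eq, single_eq]
  have h1 := mv_run (a := 0) (b := 1) (by decide) x (st4 x [] [] []) rfl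
  have h2 := RL.push 0 false (st4 [] x.reverse [] [])
  have h3 := key x.reverse []
  simp only [upd0, upd1, st4_0, st4_1, List.append_nil, List.reverse_reverse,
    List.length_reverse] at h1 h2 h3
  exact (h1.seq (h2.seq h3)).mono (by omega)

/-- Convert the code of the tree of a bit string on stack `0` into the raw bit string. -/
def rawOut : Prog :=
  .seq (.loop 0 (fun o => o == some true)
    (.seq (.pop 0) (.case 0 .skip
      (.seq (.pop 0) (.push 1 false))
      (.seq (.pop 0) (.seq (.pop 0) (.seq (.pop 0) (.push 1 true)))))))
    (.seq (.pop 0) (mv 1 0))

theorem rawOut_run (x : List Bool) :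
    RL rawOut (single (enc x).enc) (11 * x.length + 3) (single x) := by
  have key : ∀ (u v : List Bool), RL (.loop 0 (fun o => o == some true)
    (.seq (.pop 0) (.case 0 .skip
      (.seq (.pop 0) (.push 1 false))
      (.seq (.pop 0) (.seq (.pop 0) (.seq (.pop 0) (.push 1 true)))))))
      (st4 (enc u).enc v [] []) (7 * u.length + 1)
      (st4 [false] (u.reverse ++ v) [] []) := by
    intro u
    induction u with
    | nil => intro v; exact RL.loop_stop (by rfl)
    | cons b u ih =>
      intro v
      have h := ih (b :: v)
      cases b with
      | false =>
        have h0 := RL.pop 0 (st4 (enc (false :: u)).enc v [] [])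
        have h1 := RL.pop 0 (st4 (false :: (enc u).enc) v [] [])
        have h2 := RL.push 1 false (st4 (enc u).enc v [] [])
        rw [show (enc (false :: u)).enc = true :: false :: (enc u).enc from rfl] at *
        simp only [upd0, upd1, st4_0, st4_1, List.tail_cons] at h0 h1 h2
        have h3 := h0.seq (RL.case_false (k := 0) (P := .skip)
          (R := (.seq (.pop 0) (.seq (.pop 0) (.seq (.pop 0) (.push 1 true))))) (by rfl)
          (h1.seq h2))
        have h4 := RL.loop_go (c := fun o => o == some true) (by rfl) h3 h
        rw [List.reverse_cons, List.append_assoc]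
        exact h4.mono (by simp only [List.length_cons]; omega)
      | true =>
        have h0 := RL.pop 0 (st4 (enc (true :: u)).enc v [] [])
        have h1 := RL.pop 0 (st4 (true :: false :: false :: (enc u).enc) v [] [])
        have h2 := RL.pop 0 (st4 (false :: false :: (enc u).enc) v [] [])
        have h3 := RL.pop 0 (st4 (false :: (enc u).enc) v [] [])
        have h4 := RL.push 1 true (st4 (enc u).enc v [] [])
        rw [show (enc (true :: u)).enc = true :: true :: false :: false :: (enc u).enc from rfl]
          at *
        simp only [upd0, upd1, st4_0, st4_1, List.tail_cons] at h0 h1 h2 h3 h4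
        have h5 := h0.seq (RL.case_true (k := 0) (P := .skip)
          (Q := (.seq (.pop 0) (.push 1 false))) (by rfl)
          (h1.seq (h2.seq (h3.seq h4))))
        have h6 := RL.loop_go (c := fun o => o == some true) (by rfl) h5 h
        rw [List.reverse_cons, List.append_assoc]
        exact h6.mono (by simp only [List.length_cons]; omega)
  rw [single_eq, single_eq]
  have h1 := key x []
  have h2 := RL.pop 0 (st4 [false] (x.reverse ++ []) [] [])
  have h3 := mv_run (a := 1) (b := 0) (by decide) x.reverse (st4 [] x.reverse [] []) rfl
  simp only [upd0, upd1, st4_0, st4_1, List.append_nil, List.reverse_reverse,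
    List.length_reverse, List.tail_cons] at h1 h2 h3
  exact (h1.seq (h2.seq h3)).mono (by omega)

/-- A bound `(n + 2) ^ k` as a polynomial. -/
noncomputable def boundPoly (k : ℕ) : Polynomial ℕ := (Polynomial.X + 2) ^ k

theorem boundPoly_eval (k n : ℕ) : (boundPoly k).eval n = (n + 2) ^ k := by
  simp [boundPoly]

/-- The natural code of an element as a bit string. -/
def bits {α : Type*} [TEnc α] (a : α) : List Bool := (enc a).enc

theorem bits_length {α : Type*} [TEnc α] (a : α) : (bits a).length = sz a := enc_length _

/-- Polynomial-time functions, input and output being given by their codes. -/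
theorem PF.toTM2 {α β : Type} [TEnc α] [TEnc β] {f : α → β} (hf : PF f) :
    Nonempty (TM2ComputableInPolyTime (fun a : α => bits a) (fun b : β => bits b) f) := by
  obtain ⟨P, k, h⟩ := hf
  refine Prog.computableInPolyTime _ _ f P (boundPoly k) (fun a => ?_)
  rw [boundPoly_eval, bits_length]
  exact h a

/-- Polynomial-time functions whose input is a raw bit string. -/
theorem PF.toTM2_raw {β : Type} [TEnc β] {f : List Bool → β} (hf : PF f) :
    Nonempty (TM2ComputableInPolyTime (fun x : List Bool => x) (fun b : β => bits b) f) := by
  obtain ⟨P, k, h⟩ := hf
  have hb : PB (fun x : List Bool => x.length)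
      (fun x => (11 * x.length + 3) + (sz x + 2) ^ k) := by
    have h1 : PB (fun x : List Bool => x.length) (fun x => x.length) := PB.self
    have h2 : PB (fun x : List Bool => x.length) (fun x : List Bool => sz x) := by
      refine (((PB.const 4).mul h1).add (PB.const 1)).mono (fun x => ?_)
      induction x with
      | nil => simp
      | cons b x ih =>
        have := sz_bool_le b
        simp only [sz_cons, List.length_cons] at *
        omega
    exact (((PB.const 11).mul h1).add (PB.const 3)).add ((h2.add (PB.const 2)).pow k)
  obtain ⟨l, hl⟩ := hb
  refine Prog.computableInPolyTime _ _ f (.seq rawIn P) (boundPoly l) (fun a => ?_)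
  rw [boundPoly_eval]
  exact ((rawIn_run a).seq (h a)).mono (hl a)

/-- Polynomial-time functions whose input and output are raw bit strings. -/
theorem PF.toTM2_raw_raw {f : List Bool → List Bool} (hf : PF f) :
    Nonempty (TM2ComputableInPolyTime (fun x : List Bool => x) (fun x : List Bool => x) f) := by
  have hs := hf.size_le
  obtain ⟨P, k, h⟩ := hf
  have hb : PB (fun x : List Bool => x.length)
      (fun x => (11 * x.length + 3) + ((sz x + 2) ^ k + (11 * (f x).length + 3))) := by
    have h1 : PB (fun x : List Bool => x.length) (fun x => x.length) := PB.self
    have h2 : PB (fun x : List Bool => x.length) (fun x : List Bool => sz x) := by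
      refine (((PB.const 4).mul h1).add (PB.const 1)).mono (fun x => ?_)
      induction x with
      | nil => simp
      | cons b x ih =>
        have := sz_bool_le b
        simp only [sz_cons, List.length_cons] at *
        omega
    have h3 : PB (fun x : List Bool => x.length) (fun x : List Bool => (f x).length) := by
      refine PB.mono (t := fun x => sz (f x)) ?_ (fun x => (length_lt_sz (f x)).le)
      exact PB.comp (f := fun x : List Bool => x) hs h2
    exact (((PB.const 11).mul h1).add (PB.const 3)).add (((h2.add (PB.const 2)).pow k).add
      (((PB.const 11).mul h3).add (PB.const 3)))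
  obtain ⟨l, hl⟩ := hb
  refine Prog.computableInPolyTime _ _ f (.seq rawIn (.seq P rawOut)) (boundPoly l) (fun a => ?_)
  rw [boundPoly_eval]
  exact ((rawIn_run a).seq ((h a).seq (rawOut_run (f a)))).mono (hl a)

end Pool.Agent.PolyTime
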