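import Pool.Agent.PolyTimeCL.Machine

/-!
# Micro-steps of Mathlib's stack machines

A step of a `TM2` machine executes a whole statement.  Here each elementary operation is a step of
its own; this is the form used in the proof of the Cook-Levin theorem.
-/

set_option autoImplicit false

open Turing StateTransition

namespace Pool.Agent.PolyTime

/-- Micro-configurations: the statement still to be executed (`none`: halted), the internal
state, and the stacks. -/
structure MC (tm : FinTM2) where
  s : Option (TM2.Stmt tm.Γ tm.Λ tm.σ)
  v : tm.σ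
  S : ∀ k, List (tm.Γ k)

namespace MC

variable {tm : FinTM2}

/-- One elementary operation. -/
def next (c : MC tm) : MC tm :=
  match c.s with
  | none => c
  | some (.push k f q) => ⟨some q, c.v, Function.update c.S k (f c.v :: c.S k)⟩
  | some (.peek k f q) => ⟨some q, f c.v (c.S k).head?, c.S⟩
  | some (.pop k f q) => ⟨some q, f c.v (c.S k).head?, Function.update c.S k (c.S k).tail⟩
  | some (.load f q) => ⟨some q, f c.v, c.S⟩
  | some (.branch p q₁ q₂) => ⟨some (bif p c.v then q₁ else q₂), c.v, c.S⟩
  | some (.goto l) => ⟨some (tm.m (l c.v)), c.v, c.S⟩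
  | some .halt => ⟨none, c.v, c.S⟩

/-- The micro-configuration of a configuration. -/
def of (c : TM2.Cfg tm.Γ tm.Λ tm.σ) : MC tm := ⟨c.l.map tm.m, c.var, c.stk⟩

/-- The number of elementary operations in a statement (along the longest branch). -/
def depth : TM2.Stmt tm.Γ tm.Λ tm.σ → ℕ
  | .push _ _ q => depth q + 1
  | .peek _ _ q => depth q + 1
  | .pop _ _ q => depth q + 1
  | .load _ q => depth q + 1
  | .branch _ q₁ q₂ => max (depth q₁) (depth q₂) + 1
  | .goto _ => 1
  | .halt => 1

theorem next_stmt : ∀ (q : TM2.Stmt tm.Γ tm.Λ tm.σ) (v : tm.σ) (S : ∀ k, List (tm.Γ k)),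
    ∃ n ≤ depth q, next^[n] ⟨some q, v, S⟩ = of (TM2.stepAux q v S) := by
  intro q
  induction q with
  | push k f q ih =>
    intro v S
    obtain ⟨n, hn, h⟩ := ih v (Function.update S k (f v :: S k))
    exact ⟨n + 1, by simp only [depth]; omega, h⟩
  | peek k f q ih =>
    intro v S
    obtain ⟨n, hn, h⟩ := ih (f v (S k).head?) S
    exact ⟨n + 1, by simp only [depth]; omega, h⟩
  | pop k f q ih =>
    intro v S
    obtain ⟨n, hn, h⟩ := ih (f v (S k).head?) (Function.update S k (S k).tail)
    exact ⟨n + 1, by simp only [depth]; omega, h⟩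
  | load f q ih =>
    intro v S
    obtain ⟨n, hn, h⟩ := ih (f v) S
    exact ⟨n + 1, by simp only [depth]; omega, h⟩
  | branch p q₁ q₂ ih₁ ih₂ =>
    intro v S
    cases hp : p v with
    | true =>
      obtain ⟨n, hn, h⟩ := ih₁ v S
      refine ⟨n + 1, by simp only [depth]; omega, ?_⟩
      rw [Function.iterate_succ_apply]
      simp only [next, hp, cond_true, TM2.stepAux]
      exact h
    | false =>
      obtain ⟨n, hn, h⟩ := ih₂ v S
      refine ⟨n + 1, by simp only [depth]; omega, ?_⟩
      rw [Function.iterate_succ_apply]
      simp only [next, hp, cond_false, TM2.stepAux]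
      exact h
  | goto l =>
    intro v S
    exact ⟨1, by simp [depth], rfl⟩
  | halt =>
    intro v S
    exact ⟨1, by simp [depth], rfl⟩

/-- A bound for the number of elementary operations per step. -/
noncomputable def D (tm : FinTM2) : ℕ :=
  letI := tm.ΛFin
  Finset.univ.sup (fun l => depth (tm := tm) (tm.m l))

theorem depth_le (l : tm.Λ) : depth (tm.m l) ≤ D tm := by
  letI := tm.ΛFin
  exact Finset.le_sup (f := fun l => depth (tm := tm) (tm.m l)) (Finset.mem_univ l)

theorem iter_none (n : ℕ) : (flip bind tm.step)^[n] none = none := by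
  induction n with
  | zero => rfl
  | succ n ih => rw [Function.iterate_succ_apply]; exact ih

theorem next_steps : ∀ (n : ℕ) (c d : tm.Cfg),
    (flip bind tm.step)^[n] (some c) = some d →
    ∃ N ≤ n * D tm, next^[N] (of c) = of d := by
  intro n
  induction n with
  | zero =>
    intro c d h
    refine ⟨0, by omega, ?_⟩
    simp only [Function.iterate_zero, id_eq, Option.some.injEq] at h ⊢
    rw [h]
  | succ n ih =>
    intro c d h
    rw [Function.iterate_succ_apply] at h
    rcases c with ⟨_ | l, v, S⟩
    · have : flip bind tm.step (some ⟨none, v, S⟩) = none := rfl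
      rw [this, iter_none] at h
      exact absurd h (by simp)
    · have : flip bind tm.step (some ⟨some l, v, S⟩) = some (TM2.stepAux (tm.m l) v S) := rfl
      rw [this] at h
      obtain ⟨N, hN, h1⟩ := ih _ _ h
      obtain ⟨N', hN', h2⟩ := next_stmt (tm.m l) v S
      refine ⟨N + N', ?_, ?_⟩
      · have := depth_le (tm := tm) l
        rw [Nat.succ_mul]
        omega
      · rw [Function.iterate_add_apply]
        have e : of ⟨some l, v, S⟩ = (⟨some (tm.m l), v, S⟩ : MC tm) := rfl
        rw [e, h2, h1]

theorem next_halted {c : MC tm} (h : c.s = none) (n : ℕ) : next^[n] c = c := by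
  induction n with
  | zero => rfl
  | succ n ih =>
    rw [Function.iterate_succ_apply', ih]
    simp only [next, h]

/-- After sufficiently many micro-steps the final configuration is reached. -/
theorem next_outputs {l : List (tm.Γ tm.k₀)} {l' : List (tm.Γ tm.k₁)} {m : ℕ}
    (h : TM2OutputsInTime tm l (some l') m) (T : ℕ) (hT : m * D tm ≤ T) :
    next^[T] (of (initList tm l)) = of (haltList tm l') := by
  obtain ⟨N, hN, h1⟩ := next_steps h.steps _ _ h.evals_in_steps
  have h2 : N ≤ T := hN.trans ((Nat.mul_le_mul_right _ h.steps_le_m).trans hT)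
  rw [show T = (T - N) + N by omega, Function.iterate_add_apply, h1]
  exact next_halted rfl _

end MC

end Pool.Agent.PolyTime
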