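import Mathlib

/-!
# Structured stack programs and their translation to Mathlib's stack machines

`Prog` is a small structured programming language acting on countably many stacks of bits.
`Runs P s n s'` says that `P`, started in state `s`, ends in state `s'` after exactly `n` elementary
steps.  `Prog.toTM2` translates a program to a `Turing.FinTM2`, and `Prog.computableInPolyTime`
turns a polynomial bound on the number of steps into Mathlib's
`Turing.TM2ComputableInPolyTime`.
-/

set_option autoImplicit false

open Turing StateTransition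

namespace Pool.Agent.PolyTime

/-- Structured programs over countably many stacks of bits. -/
inductive Prog : Type
  | skip : Prog
  | push : ℕ → Bool → Prog
  | pop : ℕ → Prog
  | seq : Prog → Prog → Prog
  | case : ℕ → Prog → Prog → Prog → Prog
  | loop : ℕ → (Option Bool → Bool) → Prog → Prog

/-- A state gives the content of each stack, top of the stack first. -/
abbrev St := ℕ → List Bool

/-- Big-step semantics with an exact count of elementary steps. -/
inductive Runs : Prog → St → ℕ → St → Prop
  | skip (s : St) : Runs .skip s 1 s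
  | push (k : ℕ) (b : Bool) (s : St) : Runs (.push k b) s 1 (Function.update s k (b :: s k))
  | pop (k : ℕ) (s : St) : Runs (.pop k) s 1 (Function.update s k (s k).tail)
  | seq {P Q : Prog} {s s' s'' : St} {n n' : ℕ} :
      Runs P s n s' → Runs Q s' n' s'' → Runs (.seq P Q) s (n + n') s''
  | case_none {k : ℕ} {P Q R : Prog} {s s' : St} {n : ℕ} :
      (s k).head? = none → Runs P s n s' → Runs (.case k P Q R) s (n + 1) s'
  | case_false {k : ℕ} {P Q R : Prog} {s s' : St} {n : ℕ} :
      (s k).head? = some false → Runs Q s n s' → Runs (.case k P Q R) s (n + 1) s'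
  | case_true {k : ℕ} {P Q R : Prog} {s s' : St} {n : ℕ} :
      (s k).head? = some true → Runs R s n s' → Runs (.case k P Q R) s (n + 1) s'
  | loop_stop {k : ℕ} {c : Option Bool → Bool} {P : Prog} {s : St} :
      c (s k).head? = false → Runs (.loop k c P) s 1 s
  | loop_go {k : ℕ} {c : Option Bool → Bool} {P : Prog} {s s' s'' : St} {n n' : ℕ} :
      c (s k).head? = true → Runs P s n s' → Runs (.loop k c P) s' n' s'' →
      Runs (.loop k c P) s (n + n' + 1) s''

namespace Prog

/-- A number larger than every stack index used by the program. -/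
def bound : Prog → ℕ
  | .skip => 1
  | .push k _ => k + 1
  | .pop k => k + 1
  | .seq P Q => max P.bound Q.bound
  | .case k P Q R => max (k + 1) (max P.bound (max Q.bound R.bound))
  | .loop k _ P => max (k + 1) P.bound

/-- The labels of the translated program. -/
def Lab : Prog → Type
  | .skip => Unit
  | .push _ _ => Unit
  | .pop _ => Unit
  | .seq P Q => P.Lab ⊕ Q.Lab
  | .case _ P Q R => Unit ⊕ (P.Lab ⊕ (Q.Lab ⊕ R.Lab))
  | .loop _ _ P => Unit ⊕ P.Lab

/-- The label at which the translated program starts. -/
def entry : (P : Prog) → P.Lab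
  | .skip => ()
  | .push _ _ => ()
  | .pop _ => ()
  | .seq P _ => Sum.inl P.entry
  | .case _ _ _ _ => Sum.inl ()
  | .loop _ _ _ => Sum.inl ()

theorem finite_lab : ∀ P : Prog, Finite P.Lab
  | .skip => inferInstanceAs (Finite Unit)
  | .push _ _ => inferInstanceAs (Finite Unit)
  | .pop _ => inferInstanceAs (Finite Unit)
  | .seq P Q => by
      have := finite_lab P
      have := finite_lab Q
      exact inferInstanceAs (Finite (P.Lab ⊕ Q.Lab))
  | .case _ P Q R => by
      have := finite_lab P
      have := finite_lab Q
      have := finite_lab R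
      exact inferInstanceAs (Finite (Unit ⊕ (P.Lab ⊕ (Q.Lab ⊕ R.Lab))))
  | .loop _ _ P => by
      have := finite_lab P
      exact inferInstanceAs (Finite (Unit ⊕ P.Lab))

/-- Statements of the target machines: `N` stacks of bits, and a register holding the result of
the last inspection of a stack. -/
abbrev Stm (N : ℕ) (L : Type) := TM2.Stmt (fun _ : Fin N => Bool) L (Option Bool)

/-- Translation of a program, in a context that says where its labels are placed and where
control goes at the end. -/
def code (N : ℕ) [NeZero N] {L : Type} : (P : Prog) → (P.Lab → L) → L → P.Lab → Stm N L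
  | .skip, _, e => fun _ => .goto fun _ => e
  | .push k b, _, e => fun _ => .push (Fin.ofNat N k) (fun _ => b) (.goto fun _ => e)
  | .pop k, _, e => fun _ => .pop (Fin.ofNat N k) (fun v _ => v) (.goto fun _ => e)
  | .seq P Q, i, e =>
      Sum.elim (code N P (fun l => i (Sum.inl l)) (i (Sum.inr Q.entry)))
        (code N Q (fun l => i (Sum.inr l)) e)
  | .case k P Q R, i, e =>
      Sum.elim
        (fun _ => .peek (Fin.ofNat N k) (fun _ a => a) (.goto fun v =>
          match v with
          | none => i (Sum.inr (Sum.inl P.entry))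
          | some false => i (Sum.inr (Sum.inr (Sum.inl Q.entry)))
          | some true => i (Sum.inr (Sum.inr (Sum.inr R.entry)))))
        (Sum.elim (code N P (fun l => i (Sum.inr (Sum.inl l))) e)
          (Sum.elim (code N Q (fun l => i (Sum.inr (Sum.inr (Sum.inl l)))) e)
            (code N R (fun l => i (Sum.inr (Sum.inr (Sum.inr l)))) e)))
  | .loop k c P, i, e =>
      Sum.elim
        (fun _ => .peek (Fin.ofNat N k) (fun _ a => a) (.goto fun v =>
          if c v then i (Sum.inr P.entry) else e))
        (code N P (fun l => i (Sum.inr l)) (i (Sum.inl ())))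

end Prog

section Sim

variable {N : ℕ} [NeZero N] {L : Type}

/-- The configuration of the target machine corresponding to a state. -/
def mkCfg (l : Option L) (v : Option Bool) (s : St) :
    TM2.Cfg (fun _ : Fin N => Bool) L (Option Bool) :=
  ⟨l, v, fun k => s k⟩

theorem update_fin (s : St) (k : ℕ) (hk : k < N) (x : List Bool) :
    (fun j : Fin N => Function.update s k x j) =
      Function.update (fun j : Fin N => s j) (Fin.ofNat N k) x := by
  funext j
  by_cases h : j = Fin.ofNat N k
  · subst h
    have : ((Fin.ofNat N k : Fin N) : ℕ) = k := by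
      simp [Fin.ofNat, Nat.mod_eq_of_lt hk]
    simp only [this, Function.update_self]
  · have h' : (j : ℕ) ≠ k := by
      intro h2
      apply h
      apply Fin.ext
      simp [Fin.ofNat, Nat.mod_eq_of_lt hk, h2]
    rw [Function.update_of_ne h', Function.update_of_ne h]

theorem ofNat_val (k : ℕ) (hk : k < N) : ((Fin.ofNat N k : Fin N) : ℕ) = k := by
  simp [Fin.ofNat, Nat.mod_eq_of_lt hk]

theorem iter_add {α : Type*} (f : α → Option α) (m n : ℕ) (a b : α) (c : Option α)
    (h1 : (flip bind f)^[m] (some a) = some b) (h2 : (flip bind f)^[n] (some b) = c) :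
    (flip bind f)^[m + n] (some a) = c := by
  rw [Nat.add_comm, Function.iterate_add_apply, h1, h2]

theorem iter_one {α : Type*} (f : α → Option α) (a b : α) (h : f a = some b) :
    (flip bind f)^[1] (some a) = some b := by
  simpa [flip] using h

theorem sim (M : L → Prog.Stm N L) {P : Prog} {s s' : St} {n : ℕ} (h : Runs P s n s') :
    ∀ (i : P.Lab → L) (e : L), P.bound ≤ N → (∀ l, M (i l) = P.code N i e l) →
      ∀ v, ∃ v', (flip bind (TM2.step M))^[n] (some (mkCfg (some (i P.entry)) v s)) =
        some (mkCfg (some e) v' s') := by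
  induction h with
  | skip s =>
    intro i e _ hM v
    refine ⟨v, iter_one _ _ _ ?_⟩
    have h0 : M (i Prog.skip.entry) = .goto fun _ => e := hM ()
    simp only [mkCfg, TM2.step, h0, TM2.stepAux]
  | push k b s =>
    intro i e hN hM v
    refine ⟨v, iter_one _ _ _ ?_⟩
    simp only [Prog.bound] at hN
    have h0 : M (i (Prog.push k b).entry) =
      .push (Fin.ofNat N k) (fun _ => b) (.goto fun _ => e) := hM ()
    simp only [mkCfg, TM2.step, h0, TM2.stepAux]
    rw [update_fin s k (by omega)]
    simp only [ofNat_val k (by omega : k < N)]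
  | pop k s =>
    intro i e hN hM v
    refine ⟨v, iter_one _ _ _ ?_⟩
    simp only [Prog.bound] at hN
    have h0 : M (i (Prog.pop k).entry) =
      .pop (Fin.ofNat N k) (fun v _ => v) (.goto fun _ => e) := hM ()
    simp only [mkCfg, TM2.step, h0, TM2.stepAux]
    rw [update_fin s k (by omega)]
    simp only [ofNat_val k (by omega : k < N)]
  | @seq P Q s s' s'' n n' _ _ ih1 ih2 =>
    intro i e hN hM v
    simp only [Prog.bound] at hN
    obtain ⟨v1, h1⟩ := ih1 (fun l => i (Sum.inl l)) (i (Sum.inr Q.entry)) (by omega)
      (fun l => hM (Sum.inl l)) v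
    obtain ⟨v2, h2⟩ := ih2 (fun l => i (Sum.inr l)) e (by omega) (fun l => hM (Sum.inr l)) v1
    exact ⟨v2, iter_add _ _ _ _ _ _ h1 h2⟩
  | @case_none k P Q R s s' n hk _ ih =>
    intro i e hN hM v
    simp only [Prog.bound] at hN
    obtain ⟨v1, h1⟩ := ih (fun l => i (Sum.inr (Sum.inl l))) e (by omega)
      (fun l => hM (Sum.inr (Sum.inl l))) none
    refine ⟨v1, ?_⟩
    rw [Nat.add_comm]
    refine iter_add _ _ _ _ _ _ (iter_one _ _ _ ?_) h1
    simp only [mkCfg, TM2.step]
    rw [show M (i (Prog.case k P Q R).entry) = _ from hM (Sum.inl ())]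
    simp only [Prog.code, Sum.elim_inl, TM2.stepAux, ofNat_val k (by omega : k < N), hk]
  | @case_false k P Q R s s' n hk _ ih =>
    intro i e hN hM v
    simp only [Prog.bound] at hN
    obtain ⟨v1, h1⟩ := ih (fun l => i (Sum.inr (Sum.inr (Sum.inl l)))) e (by omega)
      (fun l => hM (Sum.inr (Sum.inr (Sum.inl l)))) (some false)
    refine ⟨v1, ?_⟩
    rw [Nat.add_comm]
    refine iter_add _ _ _ _ _ _ (iter_one _ _ _ ?_) h1
    simp only [mkCfg, TM2.step]
    rw [show M (i (Prog.case k P Q R).entry) = _ from hM (Sum.inl ())]
    simp only [Prog.code, Sum.elim_inl, TM2.stepAux, ofNat_val k (by omega : k < N), hk]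
  | @case_true k P Q R s s' n hk _ ih =>
    intro i e hN hM v
    simp only [Prog.bound] at hN
    obtain ⟨v1, h1⟩ := ih (fun l => i (Sum.inr (Sum.inr (Sum.inr l)))) e (by omega)
      (fun l => hM (Sum.inr (Sum.inr (Sum.inr l)))) (some true)
    refine ⟨v1, ?_⟩
    rw [Nat.add_comm]
    refine iter_add _ _ _ _ _ _ (iter_one _ _ _ ?_) h1
    simp only [mkCfg, TM2.step]
    rw [show M (i (Prog.case k P Q R).entry) = _ from hM (Sum.inl ())]
    simp only [Prog.code, Sum.elim_inl, TM2.stepAux, ofNat_val k (by omega : k < N), hk]
  | @loop_stop k c P s hk =>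
    intro i e hN hM v
    simp only [Prog.bound] at hN
    refine ⟨(s k).head?, iter_one _ _ _ ?_⟩
    simp only [mkCfg, TM2.step]
    rw [show M (i (Prog.loop k c P).entry) = _ from hM (Sum.inl ())]
    simp only [Prog.code, Sum.elim_inl, TM2.stepAux, ofNat_val k (by omega : k < N), hk]
    simp
  | @loop_go k c P s s' s'' n n' hk _ _ ih1 ih2 =>
    intro i e hN hM v
    have hN' := hN
    simp only [Prog.bound] at hN
    obtain ⟨v1, h1⟩ := ih1 (fun l => i (Sum.inr l)) (i (Sum.inl ())) (by omega)
      (fun l => hM (Sum.inr l)) (s k).head?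
    obtain ⟨v2, h2⟩ := ih2 i e hN' hM v1
    refine ⟨v2, ?_⟩
    have h0 : (flip bind (TM2.step M))^[1]
        (some (mkCfg (some (i (Prog.loop k c P).entry)) v s)) =
        some (mkCfg (some (i (Sum.inr P.entry))) (s k).head? s) := by
      refine iter_one _ _ _ ?_
      simp only [mkCfg, TM2.step]
      rw [show M (i (Prog.loop k c P).entry) = _ from hM (Sum.inl ())]
      simp only [Prog.code, Sum.elim_inl, TM2.stepAux, ofNat_val k (by omega : k < N), hk]
      simp
    have := iter_add _ _ _ _ _ _ h0 (iter_add _ _ _ _ _ _ h1 h2)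
    rw [Nat.add_comm 1] at this
    exact this

end Sim

/-- The state whose stack `0` contains `x`, all other stacks being empty. -/
def single (x : List Bool) : St := Function.update (fun _ => []) 0 x

@[simp] theorem single_zero (x : List Bool) : single x 0 = x := by simp [single]

@[simp] theorem single_succ (x : List Bool) (k : ℕ) : single x (k + 1) = [] := by simp [single]

/-- The machine that runs a program. -/
noncomputable def Prog.toTM2 (P : Prog) : FinTM2 :=
  letI : NeZero (P.bound + 1) := ⟨by omega⟩
  letI : Finite P.Lab := P.finite_lab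
  letI : Fintype P.Lab := Fintype.ofFinite P.Lab
  { K := Fin (P.bound + 1)
    k₀ := 0
    k₁ := 0
    Γ := fun _ => Bool
    Λ := P.Lab ⊕ Unit
    main := Sum.inl P.entry
    σ := Option Bool
    initialState := none
    m := Sum.elim (P.code (P.bound + 1) Sum.inl (Sum.inr ()))
      (fun _ => .load (fun _ => none) .halt) }

theorem cfg_ext {K : Type*} {Γ : K → Type*} {Λ σ : Type*} {a b : TM2.Cfg Γ Λ σ}
    (h1 : a.l = b.l) (h2 : a.var = b.var) (h3 : ∀ k, a.stk k = b.stk k) : a = b := by
  cases a
  cases b
  simp only at h1 h2 h3
  subst h1 h2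
  congr 1
  exact funext h3

theorem Prog.toTM2_outputs (P : Prog) {x y : List Bool} {n : ℕ} (h : Runs P (single x) n (single y)) :
    (flip bind P.toTM2.step)^[n + 1] (some (initList P.toTM2 x)) =
      some (haltList P.toTM2 y) := by
  letI : NeZero (P.bound + 1) := ⟨by omega⟩
  obtain ⟨v', h1⟩ := sim (N := P.bound + 1) P.toTM2.m h Sum.inl (Sum.inr ()) (by omega)
    (fun l => rfl) none
  have e1 : initList P.toTM2 x = mkCfg (N := P.bound + 1) (some (Sum.inl P.entry)) none (single x) := by
    refine cfg_ext rfl rfl ?_
    intro k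
    by_cases hk : k = P.toTM2.k₀
    · subst hk
      simp only [initList, dite_true]
      rfl
    · have hk' : (k : Fin (P.bound + 1)).val ≠ 0 := by
        intro h0
        exact hk (Fin.ext h0)
      simp only [initList, dif_neg hk]
      show [] = single x (k : Fin (P.bound + 1)).val
      unfold single
      rw [Function.update_of_ne hk']
  have e2 : P.toTM2.step (mkCfg (N := P.bound + 1) (some (Sum.inr ())) v' (single y)) =
      some (haltList P.toTM2 y) := by
    show some (_ : TM2.Cfg _ _ _) = some _
    congr 1
    refine cfg_ext rfl rfl ?_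
    intro k
    by_cases hk : k = P.toTM2.k₁
    · subst hk
      simp only [haltList, dite_true]
      rfl
    · have hk' : (k : Fin (P.bound + 1)).val ≠ 0 := by
        intro h0
        exact hk (Fin.ext h0)
      simp only [haltList, dif_neg hk]
      show single y (k : Fin (P.bound + 1)).val = []
      unfold single
      rw [Function.update_of_ne hk']
  rw [e1]
  exact iter_add _ _ _ _ _ _ h1 (iter_one _ _ _ e2)

/-- A program whose running time is polynomially bounded gives a polynomial-time computable
function in Mathlib's sense. -/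
theorem Prog.computableInPolyTime {α β : Type} (ea : α → List Bool) (eb : β → List Bool)
    (f : α → β) (P : Prog) (p : Polynomial ℕ)
    (h : ∀ a, ∃ n ≤ p.eval (ea a).length, Runs P (single (ea a)) n (single (eb (f a)))) :
    Nonempty (TM2ComputableInPolyTime ea eb f) := by
  have key : ∀ a, Nonempty (TM2OutputsInTime P.toTM2 (List.map (Equiv.refl Bool).invFun (ea a))
      (some (List.map (Equiv.refl Bool).invFun (eb (f a)))) ((p + 1).eval (ea a).length)) := by
    intro a
    obtain ⟨n, hn, hr⟩ := h a
    have e1 : List.map (Equiv.refl Bool).invFun (ea a) = ea a := List.map_id _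
    have e2 : List.map (Equiv.refl Bool).invFun (eb (f a)) = eb (f a) := List.map_id _
    have h2 := P.toTM2_outputs hr
    rw [← e1, ← e2] at h2
    refine ⟨⟨⟨n + 1, h2⟩, ?_⟩⟩
    simpa using hn
  exact ⟨{ tm := P.toTM2, inputAlphabet := Equiv.refl Bool, outputAlphabet := Equiv.refl Bool,
           time := p + 1, outputsFun := fun a => (key a).some }⟩

end Pool.Agent.PolyTime
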