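import Pool.Agent.PolyTimeCL.Closure

/-!
# Polynomial-time functions between types coded by binary trees
-/

set_option autoImplicit false

namespace Pool.Agent.PolyTime

/-- Types whose elements are coded, injectively, by binary trees. -/
class TEnc (α : Type*) where
  enc : α → T
  inj : Function.Injective enc

export TEnc (enc)

/-- The size of the code of an element. -/
def sz {α : Type*} [TEnc α] (a : α) : ℕ := (enc a).size

theorem sz_pos {α : Type*} [TEnc α] (a : α) : 0 < sz a := (enc a).size_pos

instance : TEnc T := ⟨fun t => t, fun _ _ h => h⟩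

instance : TEnc Unit := ⟨fun _ => .nil, fun _ _ _ => rfl⟩

/-- Code of a Boolean. -/
def encB : Bool → T
  | false => .nil
  | true => .node .nil .nil

instance : TEnc Bool := ⟨encB, fun a b h => by cases a <;> cases b <;> simp_all [encB]⟩

/-- Code of a natural number (unary). -/
def encN : ℕ → T
  | 0 => .nil
  | n + 1 => .node .nil (encN n)

theorem encN_inj : ∀ m n : ℕ, encN m = encN n → m = n
  | 0, 0, _ => rfl
  | 0, n + 1, h => by simp [encN] at h
  | m + 1, 0, h => by simp [encN] at h
  | m + 1, n + 1, h => by
      simp only [encN, T.node.injEq, true_and] at h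
      rw [encN_inj m n h]

instance : TEnc ℕ := ⟨encN, fun m n h => encN_inj m n h⟩

instance {α β : Type*} [TEnc α] [TEnc β] : TEnc (α × β) :=
  ⟨fun p => .node (enc p.1) (enc p.2), fun p q h => by
    simp only [T.node.injEq] at h
    exact Prod.ext (TEnc.inj h.1) (TEnc.inj h.2)⟩

/-- Code of a list. -/
def encL {α : Type*} [TEnc α] : List α → T
  | [] => .nil
  | a :: l => .node (enc a) (encL l)

theorem encL_inj {α : Type*} [TEnc α] : ∀ l l' : List α, encL l = encL l' → l = l'
  | [], [], _ => rfl
  | [], a :: l, h => by simp [encL] at h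
  | a :: l, [], h => by simp [encL] at h
  | a :: l, a' :: l', h => by
      simp only [encL, T.node.injEq] at h
      rw [encL_inj l l' h.2, TEnc.inj h.1]

instance {α : Type*} [TEnc α] : TEnc (List α) := ⟨encL, fun l l' h => encL_inj l l' h⟩

/-- Code of an optional value. -/
def encO {α : Type*} [TEnc α] : Option α → T
  | none => .nil
  | some a => .node .nil (enc a)

instance {α : Type*} [TEnc α] : TEnc (Option α) := ⟨encO, fun a b h => by
  cases a <;> cases b <;> simp [encO] at h
  · rfl
  · exact congrArg some (TEnc.inj h)⟩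

/-- Code of an element of a disjoint union. -/
def encS {α β : Type*} [TEnc α] [TEnc β] : α ⊕ β → T
  | .inl a => .node .nil (enc a)
  | .inr b => .node (.node .nil .nil) (enc b)

instance {α β : Type*} [TEnc α] [TEnc β] : TEnc (α ⊕ β) := ⟨encS, fun a b h => by
  cases a <;> cases b <;> simp [encS] at h
  · exact congrArg _ (TEnc.inj h)
  · exact congrArg _ (TEnc.inj h)⟩

section encs

variable {α β : Type*} [TEnc α] [TEnc β]

theorem enc_pair (a : α) (b : β) : enc (a, b) = .node (enc a) (enc b) := rfl
theorem enc_zero : enc 0 = T.nil := rfl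
theorem enc_succ (n : ℕ) : enc (n + 1) = .node .nil (enc n) := rfl
theorem enc_false : enc false = T.nil := rfl
theorem enc_true : enc true = .node .nil .nil := rfl
theorem enc_nil : enc ([] : List α) = .nil := rfl
theorem enc_cons (a : α) (l : List α) : enc (a :: l) = .node (enc a) (enc l) := rfl
theorem enc_none : enc (none : Option α) = .nil := rfl
theorem enc_some (a : α) : enc (some a) = .node .nil (enc a) := rfl
theorem enc_inl (a : α) : enc (Sum.inl a : α ⊕ β) = .node .nil (enc a) := rfl
theorem enc_inr (b : β) : enc (Sum.inr b : α ⊕ β) = .node (.node .nil .nil) (enc b) := rfl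
theorem enc_T (t : T) : enc t = t := rfl

@[simp] theorem sz_pair (a : α) (b : β) : sz (a, b) = sz a + sz b + 1 := rfl
@[simp] theorem sz_nat (n : ℕ) : sz n = 2 * n + 1 := by
  induction n with
  | zero => rfl
  | succ n ih =>
    have : sz (n + 1) = 1 + sz n + 1 := rfl
    omega
@[simp] theorem sz_nil : sz ([] : List α) = 1 := rfl
@[simp] theorem sz_cons (a : α) (l : List α) : sz (a :: l) = sz a + sz l + 1 := rfl
theorem sz_bool_le (b : Bool) : sz b ≤ 3 := by cases b <;> decide
@[simp] theorem sz_none : sz (none : Option α) = 1 := rfl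
@[simp] theorem sz_some (a : α) : sz (some a) = sz a + 2 := by
  show (T.node T.nil (enc a)).size = _
  simp only [T.size, sz]
  omega
@[simp] theorem sz_unit (u : Unit) : sz u = 1 := rfl

theorem length_lt_sz (l : List α) : l.length < sz l := by
  induction l with
  | nil => simp
  | cons a l ih => simp; omega

theorem sz_append (l l' : List α) : sz (l ++ l') + 1 = sz l + sz l' := by
  induction l with
  | nil => simp; omega
  | cons a l ih => simp only [List.cons_append, sz_cons]; omega

theorem sz_reverse (l : List α) : sz l.reverse = sz l := by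
  induction l with
  | nil => simp
  | cons a l ih =>
    have := sz_append l.reverse [a]
    simp only [List.reverse_cons, sz_cons, sz_nil] at *
    omega

theorem sz_le_of_mem {a : α} {l : List α} (h : a ∈ l) : sz a < sz l := by
  induction l with
  | nil => simp at h
  | cons b l ih =>
    rcases List.mem_cons.1 h with rfl | h
    · simp only [sz_cons]; omega
    · have := ih h; simp only [sz_cons]; omega

theorem sz_sublist_le {l l' : List α} (h : l.Sublist l') : sz l ≤ sz l' := by
  induction h with
  | slnil => simp
  | cons a _ ih => simp; omega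
  | cons_cons a _ ih => simp; omega

theorem sz_le_of_forall {l : List α} {c : ℕ} (h : ∀ a ∈ l, sz a ≤ c) :
    sz l ≤ l.length * (c + 1) + 1 := by
  induction l with
  | nil => simp
  | cons a l ih =>
    have h1 := h a (by simp)
    have h2 := ih (fun b hb => h b (by simp [hb]))
    simp only [sz_cons, List.length_cons, Nat.add_mul, Nat.one_mul]
    omega

end encs

/-- `f` is computable in polynomial time (on tree codes). -/
def PF {α β : Type*} [TEnc α] [TEnc β] (f : α → β) : Prop :=
  PE (fun a : α => enc a) (fun a => enc (f a))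

namespace PF

variable {α β γ δ σ : Type*} [TEnc α] [TEnc β] [TEnc γ] [TEnc δ] [TEnc σ]

theorem size_le {f : α → β} (hf : PF f) : PB sz (fun x => sz (f x)) := PE.size_le hf

theorem congr {f g : α → β} (hf : PF f) (h : ∀ x, f x = g x) : PF g := by
  rwa [show g = f from funext (fun x => (h x).symm)]

theorem id : PF (fun x : α => x) := PE.id

theorem const (b : β) : PF (fun _ : α => b) := PE.const (enc b)

theorem comp {g : β → γ} {f : α → β} (hg : PF g) (hf : PF f) : PF (fun x => g (f x)) :=
  PE.comp hf (PE.restrict f hg)

theorem pair {f : α → β} {g : α → γ} (hf : PF f) (hg : PF g) : PF (fun x => (f x, g x)) :=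
  PE.node hf hg

theorem fst : PF (fun p : α × β => p.1) := PE.left

theorem snd : PF (fun p : α × β => p.2) := PE.right

theorem fst' {f : α → β × γ} (hf : PF f) : PF (fun x => (f x).1) := fst.comp hf

theorem snd' {f : α → β × γ} (hf : PF f) : PF (fun x => (f x).2) := snd.comp hf

/-- The general form of composition with a function of two arguments. -/
theorem comp₂ {g : β → γ → δ} {f₁ : α → β} {f₂ : α → γ} (hg : PF (fun p : β × γ => g p.1 p.2))
    (h₁ : PF f₁) (h₂ : PF f₂) : PF (fun x => g (f₁ x) (f₂ x)) :=
  hg.comp (h₁.pair h₂)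

theorem comp₃ {ε : Type*} [TEnc ε] {g : β → γ → δ → ε} {f₁ : α → β} {f₂ : α → γ} {f₃ : α → δ}
    (hg : PF (fun p : β × γ × δ => g p.1 p.2.1 p.2.2))
    (h₁ : PF f₁) (h₂ : PF f₂) (h₃ : PF f₃) : PF (fun x => g (f₁ x) (f₂ x) (f₃ x)) :=
  hg.comp (h₁.pair (h₂.pair h₃))

/-- Case distinction on a Boolean. -/
theorem cond {c : α → Bool} {f g : α → β} (hc : PF c) (hf : PF f) (hg : PF g) :
    PF (fun x => bif c x then f x else g x) := by
  refine (PE.cond (f := fun x => enc (g x)) (g := fun x => enc (f x)) hc
    (PE.restrict Subtype.val hg) (PE.restrict Subtype.val hf)).congr (fun a => ?_)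
  cases hca : c a with
  | false => simp [enc_false, hca]
  | true => simp [enc_true, hca]

/-- Case distinction on a decidable proposition. -/
theorem ite {p : α → Prop} [DecidablePred p] {f g : α → β} (hc : PF (fun x => decide (p x)))
    (hf : PF f) (hg : PF g) : PF (fun x => if p x then f x else g x) := by
  refine (hc.cond hf hg).congr (fun x => ?_)
  by_cases h : p x <;> simp [h]

/-- Equality test. -/
theorem eq [DecidableEq β] {f g : α → β} (hf : PF f) (hg : PF g) :
    PF (fun x => decide (f x = g x)) := by
  refine (PE.cond (f := fun _ => enc true) (g := fun _ => enc false) (PE.eq hf hg)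
    (PE.const (enc true)) (PE.const (enc false))).congr (fun a => ?_)
  by_cases hfg : f a = g a
  · simp [hfg]
  · have : enc (f a) ≠ enc (g a) := fun h => hfg (TEnc.inj h)
    simp [hfg, this]

theorem not {c : α → Bool} (hc : PF c) : PF (fun x => !c x) :=
  (hc.cond (const false) (const true)).congr (fun x => by cases c x <;> rfl)

theorem and {c d : α → Bool} (hc : PF c) (hd : PF d) : PF (fun x => c x && d x) :=
  (hc.cond hd (const false)).congr (fun x => by cases c x <;> rfl)

theorem or {c d : α → Bool} (hc : PF c) (hd : PF d) : PF (fun x => c x || d x) :=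
  (hc.cond (const true) hd).congr (fun x => by cases c x <;> rfl)

/-! #### Constructors and case distinctions -/

theorem succ {f : α → ℕ} (hf : PF f) : PF (fun x => f x + 1) :=
  (PE.node (PE.const .nil) hf : PE _ (fun a => T.node .nil (enc (f a))))

theorem natCases {n : α → ℕ} {h f : α → β} {g : α → ℕ → β} (hn : PF n) (hf : PF f)
    (hg : PF (fun p : α × ℕ => g p.1 p.2)) (h0 : ∀ a, n a = 0 → h a = f a)
    (h1 : ∀ a k, n a = k + 1 → h a = g a k) : PF h := by
  have hg' : PE (fun a : {a : α // enc (n a) ≠ T.nil} => enc a.1)
      (fun a => enc (g a.1 (n a.1 - 1))) := by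
    refine PE.comp (f := fun a => enc (a.1, n a.1 - 1)) ?_ (PE.restrict
      (fun a : {a : α // enc (n a) ≠ T.nil} => (a.1, n a.1 - 1)) hg)
    refine PE.node PE.id ?_
    refine PE.comp (PE.restrict Subtype.val hn) (PE.right.congr (fun a => ?_))
    cases h : n a.1 with
    | zero => exact absurd (by rw [h]; rfl) a.2
    | succ k => rfl
  refine (PE.cond (f := fun a => enc (f a)) (g := fun a => enc (g a (n a - 1))) hn
    (PE.restrict Subtype.val hf) hg').congr (fun a => ?_)
  cases hna : n a with
  | zero => simp [enc_zero, h0 a hna]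
  | succ k => simp [enc_succ, h1 a k hna]

theorem pred {f : α → ℕ} (hf : PF f) : PF (fun x => f x - 1) :=
  natCases (g := fun _ k => k) hf (const 0) snd (fun a h => by simp [h])
    (fun a k h => by simp [h])

theorem cons {f : α → β} {g : α → List β} (hf : PF f) (hg : PF g) : PF (fun x => f x :: g x) :=
  PE.node hf hg

theorem listCases {l : α → List γ} {h f : α → β} {g : α → γ → List γ → β} (hl : PF l) (hf : PF f)
    (hg : PF (fun p : α × γ × List γ => g p.1 p.2.1 p.2.2)) (h0 : ∀ a, l a = [] → h a = f a)
    (h1 : ∀ a b t, l a = b :: t → h a = g a b t) : PF h := by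
  have ex : ∀ a : {a : α // enc (l a) ≠ T.nil}, ∃ b t, l a.1 = b :: t := by
    intro a
    cases h : l a.1 with
    | nil => exact absurd (by rw [h]; rfl) a.2
    | cons b t => exact ⟨b, t, rfl⟩
  choose b t hbt using ex
  have hg' : PE (fun a : {a : α // enc (l a) ≠ T.nil} => enc a.1)
      (fun a => enc (h a.1)) := by
    have h2 : PE (fun a : {a : α // enc (l a) ≠ T.nil} => enc a.1)
      (fun a => enc (g a.1 (b a) (t a))) := by
      refine PE.comp (f := fun a => enc (a.1, b a, t a)) ?_ (PE.restrict
        (fun a : {a : α // enc (l a) ≠ T.nil} => (a.1, b a, t a)) hg)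
      refine PE.node PE.id ?_
      refine (PE.restrict Subtype.val hl).congr (fun a => ?_)
      rw [hbt a]; rfl
    exact h2.congr (fun a => by rw [h1 a.1 _ _ (hbt a)])
  refine (PE.cond (f := fun a => enc (f a)) (g := fun a => enc (h a)) hl
    (PE.restrict Subtype.val hf) hg').congr (fun a => ?_)
  cases hna : l a with
  | nil => simp [enc_nil, h0 a hna]
  | cons b t => simp [enc_cons]

theorem some {f : α → β} (hf : PF f) : PF (fun x => some (f x)) :=
  (PE.node (PE.const .nil) hf : PE _ (fun a => T.node .nil (enc (f a))))

theorem optionCases {o : α → Option γ} {h f : α → β} {g : α → γ → β} (ho : PF o) (hf : PF f)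
    (hg : PF (fun p : α × γ => g p.1 p.2)) (h0 : ∀ a, o a = none → h a = f a)
    (h1 : ∀ a b, o a = Option.some b → h a = g a b) : PF h := by
  have ex : ∀ a : {a : α // enc (o a) ≠ T.nil}, ∃ b, o a.1 = Option.some b := by
    intro a
    cases h : o a.1 with
    | none => exact absurd (by rw [h]; rfl) a.2
    | some b => exact ⟨b, rfl⟩
  choose b hb using ex
  have hg' : PE (fun a : {a : α // enc (o a) ≠ T.nil} => enc a.1)
      (fun a => enc (h a.1)) := by
    have h2 : PE (fun a : {a : α // enc (o a) ≠ T.nil} => enc a.1)
      (fun a => enc (g a.1 (b a))) := by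
      refine PE.comp (f := fun a => enc (a.1, b a)) ?_ (PE.restrict
        (fun a : {a : α // enc (o a) ≠ T.nil} => (a.1, b a)) hg)
      refine PE.node PE.id ?_
      refine PE.comp (PE.restrict Subtype.val ho) (PE.right.congr (fun a => ?_))
      rw [hb a]; rfl
    exact h2.congr (fun a => by rw [h1 a.1 _ (hb a)])
  refine (PE.cond (f := fun a => enc (f a)) (g := fun a => enc (h a)) ho
    (PE.restrict Subtype.val hf) hg').congr (fun a => ?_)
  cases hna : o a with
  | none => simp [enc_none, h0 a hna]
  | some b => simp [enc_some]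

theorem inl {f : α → β} (hf : PF f) : PF (fun x => (Sum.inl (f x) : β ⊕ γ)) :=
  (PE.node (PE.const .nil) hf : PE _ (fun a => T.node .nil (enc (f a))))

theorem inr {f : α → γ} (hf : PF f) : PF (fun x => (Sum.inr (f x) : β ⊕ γ)) :=
  (PE.node (PE.const (.node .nil .nil)) hf : PE _ (fun a => T.node (.node .nil .nil) (enc (f a))))

theorem sumCases {s : α → γ ⊕ δ} {h : α → β} {f : α → γ → β} {g : α → δ → β} (hs : PF s)
    (hf : PF (fun p : α × γ => f p.1 p.2)) (hg : PF (fun p : α × δ => g p.1 p.2))
    (h0 : ∀ a b, s a = Sum.inl b → h a = f a b) (h1 : ∀ a b, s a = Sum.inr b → h a = g a b) :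
    PF h := by
  have ex : ∀ a : {a : α // (enc (s a)).left = T.nil}, ∃ b, s a.1 = Sum.inl b := by
    intro a
    cases h : s a.1 with
    | inl b => exact ⟨b, rfl⟩
    | inr b => exact absurd a.2 (by rw [h]; simp [enc_inr, T.left])
  have ex' : ∀ a : {a : α // (enc (s a)).left ≠ T.nil}, ∃ b, s a.1 = Sum.inr b := by
    intro a
    cases h : s a.1 with
    | inl b => exact absurd (by rw [h]; rfl) a.2
    | inr b => exact ⟨b, rfl⟩
  choose b hb using ex
  choose b' hb' using ex'
  have hf' : PE (fun a : {a : α // (enc (s a)).left = T.nil} => enc a.1)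
      (fun a => enc (h a.1)) := by
    have h2 : PE (fun a : {a : α // (enc (s a)).left = T.nil} => enc a.1)
      (fun a => enc (f a.1 (b a))) := by
      refine PE.comp (f := fun a => enc (a.1, b a)) ?_ (PE.restrict
        (fun a : {a : α // (enc (s a)).left = T.nil} => (a.1, b a)) hf)
      refine PE.node PE.id ?_
      refine PE.comp (PE.restrict Subtype.val hs) (PE.right.congr (fun a => ?_))
      rw [hb a]; rfl
    exact h2.congr (fun a => by rw [h0 a.1 _ (hb a)])
  have hg' : PE (fun a : {a : α // (enc (s a)).left ≠ T.nil} => enc a.1)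
      (fun a => enc (h a.1)) := by
    have h2 : PE (fun a : {a : α // (enc (s a)).left ≠ T.nil} => enc a.1)
      (fun a => enc (g a.1 (b' a))) := by
      refine PE.comp (f := fun a => enc (a.1, b' a)) ?_ (PE.restrict
        (fun a : {a : α // (enc (s a)).left ≠ T.nil} => (a.1, b' a)) hg)
      refine PE.node PE.id ?_
      refine PE.comp (PE.restrict Subtype.val hs) (PE.right.congr (fun a => ?_))
      rw [hb' a]; rfl
    exact h2.congr (fun a => by rw [h1 a.1 _ (hb' a)])
  refine (PE.cond (f := fun a => enc (h a)) (g := fun a => enc (h a)) (PE.comp hs PE.left)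
    hf' hg').congr (fun a => ?_)
  simp

/-- Functions on a finite type, with parameters. -/
theorem finite_cases [Finite γ] {s : α → γ} {f : γ → α → β} (hs : PF s)
    (hf : ∀ c, PF (f c)) : PF (fun x => f (s x) x) := by
  classical
  haveI := Fintype.ofFinite γ
  have key : ∀ l : List γ, ∃ F : α → T, PE (fun a : α => enc a) F ∧
      ∀ a, s a ∈ l → F a = enc (f (s a) a) := by
    intro l
    induction l with
    | nil => exact ⟨_, PE.id, fun a ha => by simp at ha⟩
    | cons c l ih =>
      obtain ⟨F, hF, h⟩ := ih
      refine ⟨_, PE.cond (PE.eq hs (PE.const (enc c))) (PE.restrict Subtype.val (hf c))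
        (PE.restrict Subtype.val hF), fun a ha => ?_⟩
      by_cases hc : s a = c
      · simp [hc]
      · have : enc (s a) ≠ enc c := fun h => hc (TEnc.inj h)
        simp only [this, if_false, reduceCtorEq]
        apply h
        simpa [hc] using ha
  obtain ⟨F, hF, h⟩ := key Finset.univ.toList
  exact hF.congr (fun a => h a (by simp))

/-- Every function on a finite type is polynomial-time computable. -/
theorem of_finite [Finite γ] (f : γ → β) : PF f :=
  finite_cases (f := fun c _ => f c) id (fun c => const (f c))

/-! #### Iteration -/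

/-- Iterate a function `sz (g x)` times. -/
theorem iterSz {f : α → σ → σ} {g : α → γ} {i : α → σ} (hf : PF (fun p : α × σ => f p.1 p.2))
    (hg : PF g) (hi : PF i) (B : α → ℕ) (hB : PB sz B)
    (hle : ∀ x, ∀ n ≤ sz (g x), sz ((f x)^[n] (i x)) ≤ B x) :
    PF (fun x => (f x)^[sz (g x)] (i x)) := by
  have h1 : PE (fun a : α => enc a)
      (fun x => enc (x, (f x)^[(enc (g x)).size] (i x))) := by
    refine PE.iter (s := fun x n => enc (x, (f x)^[n] (i x))) hg (PE.node PE.id hi) ?_
      (fun x => sz x + B x + 1) ((PB.self.add hB).add (PB.const 1)) ?_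
    · have h2 : PF (fun p : α × σ => (p.1, f p.1 p.2)) := fst.pair hf
      refine (PE.restrict (fun p : {p : α × ℕ // p.2 < (enc (g p.1)).size} =>
        (p.1.1, (f p.1.1)^[p.1.2] (i p.1.1))) h2).congr (fun p => ?_)
      rw [Function.iterate_succ_apply']
    · intro x n hn
      have := hle x n hn
      show sz (x, (f x)^[n] (i x)) ≤ _
      rw [sz_pair]
      omega
  exact PE.comp h1 PE.right

/-- Iterate a function `n x` times. -/
theorem iterate {f : α → σ → σ} {n : α → ℕ} {i : α → σ} (hf : PF (fun p : α × σ => f p.1 p.2))
    (hn : PF n) (hi : PF i) (B : α → ℕ) (hB : PB sz B)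
    (hle : ∀ x, ∀ j ≤ n x, sz ((f x)^[j] (i x)) ≤ B x) :
    PF (fun x => (f x)^[n x] (i x)) := by
  -- the state contains the number of iterations still to be done
  let F : α → ℕ × σ → ℕ × σ := fun x p => if p.1 = 0 then p else (p.1 - 1, f x p.2)
  have hF : PF (fun p : α × (ℕ × σ) => F p.1 p.2) := by
    refine ite (p := fun p : α × (ℕ × σ) => p.2.1 = 0) (eq (snd.fst') (const 0)) snd ?_
    exact (snd.fst').pred.pair (comp₂ hf fst snd.snd')
  have hiter : ∀ x j, (F x)^[j] (n x, i x) = (n x - j, (f x)^[min j (n x)] (i x)) := by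
    intro x j
    induction j with
    | zero => simp
    | succ j ih =>
      rw [Function.iterate_succ_apply', ih]
      by_cases hj : n x - j = 0
      · simp only [F, hj, if_true]
        rw [Nat.min_eq_right (by omega), Nat.min_eq_right (by omega), ← hj]
        congr 1
        omega
      · simp only [F, hj, if_false]
        rw [Nat.min_eq_left (by omega), Nat.min_eq_left (by omega),
          Function.iterate_succ_apply']
        congr 1
  have h1 := iterSz (f := F) (g := n) hF hn (hn.pair hi) (fun x => sz (n x) + B x + 1)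
    ((hn.size_le.add hB).add (PB.const 1)) (by
      intro x j _
      rw [hiter, sz_pair]
      have := hle x (min j (n x)) (by omega)
      simp only [sz_nat]
      omega)
  refine (h1.snd').congr (fun x => ?_)
  rw [hiter, sz_nat, Nat.min_eq_right (by omega)]

/-- Fold over a list. -/
theorem foldl {f : α → σ → γ → σ} {l : α → List γ} {i : α → σ}
    (hf : PF (fun p : α × σ × γ => f p.1 p.2.1 p.2.2))
    (hl : PF l) (hi : PF i) (B : α → ℕ) (hB : PB sz B)
    (hle : ∀ x, ∀ j, sz ((List.take j (l x)).foldl (f x) (i x)) ≤ B x) :
    PF (fun x => (l x).foldl (f x) (i x)) := by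
  let F : α → List γ × σ → List γ × σ := fun x p =>
    match p.1 with
    | [] => p
    | b :: t => (t, f x p.2 b)
  have hF : PF (fun p : α × (List γ × σ) => F p.1 p.2) := by
    refine listCases (l := fun p : α × (List γ × σ) => p.2.1) (f := fun p => p.2)
      (g := fun p b t => (t, f p.1 p.2.2 b)) snd.fst' snd ?_ ?_ ?_
    · exact snd.snd'.pair (comp₃ hf fst.fst' fst.snd'.snd' snd.fst')
    · intro p h
      simp only [F, h]
    · intro p b t h
      simp only [F, h]
  have hiter : ∀ x j, (F x)^[j] (l x, i x) =
      ((l x).drop j, ((l x).take j).foldl (f x) (i x)) := by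
    intro x j
    induction j with
    | zero => simp
    | succ j ih =>
      rw [Function.iterate_succ_apply', ih]
      by_cases hj : (l x).length ≤ j
      · simp only [F, List.drop_eq_nil_of_le hj, List.drop_eq_nil_of_le (by omega : (l x).length ≤ j + 1),
          List.take_of_length_le hj, List.take_of_length_le (by omega : (l x).length ≤ j + 1)]
      · have hj' : j < (l x).length := by omega
        rw [List.drop_eq_getElem_cons hj']
        simp only [F]
        rw [List.take_add_one, List.foldl_append, List.getElem?_eq_getElem hj']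
        simp
  have h1 := iterSz (f := F) (g := l) hF hl (hl.pair hi) (fun x => sz (l x) + B x + 1)
    ((hl.size_le.add hB).add (PB.const 1)) (by
      intro x j _
      rw [hiter, sz_pair]
      have := hle x j
      have := sz_sublist_le (List.drop_sublist j (l x))
      omega)
  refine (h1.snd').congr (fun x => ?_)
  rw [hiter]
  simp only
  rw [List.take_of_length_le (length_lt_sz (l x)).le]

end PF

end Pool.Agent.PolyTime
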